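import Pool.Agent.Y184.NT.StB
import Pool.Agent.W603.LV.Ord

/-!
The values of rational functions at an algebraic element, and the place of its minimal polynomial.
-/

set_option autoImplicit false
set_option linter.overlappingInstances false
set_option linter.unusedSectionVars false

open FF Polynomial Pool.Agent.W602.GT Pool.Agent.W603.LV

namespace Pool.Agent.Y184.NT

section

variable {L K : Type} [Field L] [Field K] [Algebra ℂ L] [Algebra ℂ K] [Algebra L K]
  [IsScalarTower ℂ L K]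

/-- the inclusion of the polynomials in the rational functions -/
noncomputable abbrev io (A : L[X]) : RatFunc L := algebraMap L[X] (RatFunc L) A

theorem io_inj : Function.Injective (io : L[X] → RatFunc L) :=
  IsFractionRing.injective L[X] (RatFunc L)

theorem io_ne {A : L[X]} (h : A ≠ 0) : io A ≠ 0 := fun h0 => h (io_inj (by rw [h0, io, map_zero]))

/-- the rational function `f` has the value `κ` at `τ` -/
def Sp (τ : K) (f : RatFunc L) (κ : K) : Prop :=
  ∃ A B : L[X], aeval τ B ≠ 0 ∧ f * io B = io A ∧ aeval τ A = κ * aeval τ B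

variable {τ : K}

theorem Sp.poly (A : L[X]) : Sp τ (io A) (aeval τ A) :=
  ⟨A, 1, by simp, by simp [io], by simp⟩

theorem Sp.add {f f' : RatFunc L} {κ κ' : K} (h : Sp τ f κ) (h' : Sp τ f' κ') :
    Sp τ (f + f') (κ + κ') := by
  obtain ⟨A, B, h1, h2, h3⟩ := h
  obtain ⟨A', B', h1', h2', h3'⟩ := h'
  refine ⟨A * B' + A' * B, B * B', ?_, ?_, ?_⟩
  · rw [map_mul]
    exact mul_ne_zero h1 h1'
  · simp only [io, map_mul, map_add] at h2 h2' ⊢
    rw [← h2, ← h2']
    ring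
  · rw [map_add, map_mul, map_mul, map_mul, h3, h3']
    ring

theorem Sp.mul {f f' : RatFunc L} {κ κ' : K} (h : Sp τ f κ) (h' : Sp τ f' κ') :
    Sp τ (f * f') (κ * κ') := by
  obtain ⟨A, B, h1, h2, h3⟩ := h
  obtain ⟨A', B', h1', h2', h3'⟩ := h'
  refine ⟨A * A', B * B', ?_, ?_, ?_⟩
  · rw [map_mul]
    exact mul_ne_zero h1 h1'
  · simp only [io, map_mul] at h2 h2' ⊢
    rw [← h2, ← h2']
    ring
  · rw [map_mul, map_mul, h3, h3']
    ring

theorem Sp.inv {f : RatFunc L} {κ : K} (h : Sp τ f κ) (hκ : κ ≠ 0) : Sp τ f⁻¹ κ⁻¹ := by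
  obtain ⟨A, B, h1, h2, h3⟩ := h
  have hA : aeval τ A ≠ 0 := by
    rw [h3]
    exact mul_ne_zero hκ h1
  have hf : f ≠ 0 := by
    rintro rfl
    rw [zero_mul] at h2
    have : A = 0 := io_inj (by rw [← h2, io, map_zero])
    rw [this, map_zero] at hA
    exact hA rfl
  refine ⟨B, A, hA, ?_, ?_⟩
  · rw [← h2]
    field_simp
  · rw [h3]
    field_simp

theorem Sp.const (c : ℂ) : Sp τ (algebraMap ℂ (RatFunc L) c) (algebraMap ℂ K c) := by
  have h := Sp.poly (τ := τ) (C (algebraMap ℂ L c))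
  rw [aeval_C, ← IsScalarTower.algebraMap_apply ℂ L K] at h
  have e : io (C (algebraMap ℂ L c)) = algebraMap ℂ (RatFunc L) c := by
    rw [io, ← Polynomial.algebraMap_eq, ← IsScalarTower.algebraMap_apply L L[X] (RatFunc L),
      ← IsScalarTower.algebraMap_apply ℂ L (RatFunc L)]
  rwa [e] at h

theorem Sp.sub {f f' : RatFunc L} {κ κ' : K} (h : Sp τ f κ) (h' : Sp τ f' κ') :
    Sp τ (f - f') (κ - κ') := by
  have h1 := h.add ((Sp.const (τ := τ) (-1)).mul h')
  simp only [map_neg, map_one, neg_mul, one_mul] at h1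
  rwa [← sub_eq_add_neg, ← sub_eq_add_neg] at h1

theorem Sp.div {f f' : RatFunc L} {κ κ' : K} (h : Sp τ f κ) (h' : Sp τ f' κ') (hκ : κ' ≠ 0) :
    Sp τ (f / f') (κ / κ') := by
  rw [div_eq_mul_inv, div_eq_mul_inv]
  exact h.mul (h'.inv hκ)

theorem Sp.mv {N : ℕ} {u : Fin N → RatFunc L} {x : Fin N → K} (h : ∀ j, Sp τ (u j) (x j))
    (G : MvPolynomial (Fin N) ℂ) : Sp τ (MvPolynomial.aeval u G) (MvPolynomial.aeval x G) := by
  induction G using MvPolynomial.induction_on with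
  | C c =>
    rw [MvPolynomial.aeval_C, MvPolynomial.aeval_C]
    exact Sp.const c
  | add p q hp hq =>
    rw [map_add, map_add]
    exact hp.add hq
  | mul_X p j hp =>
    rw [map_mul, map_mul, MvPolynomial.aeval_X, MvPolynomial.aeval_X]
    exact hp.mul (h j)

/-- `w0` is the place of the polynomial `g` -/
structure IsW0 (g : L[X]) (w0 : Place ℂ (RatFunc L)) : Prop where
  reg : ∀ A : L[X], w0.Reg (io A)
  unit : ∀ A : L[X], A ≠ 0 → ¬ g ∣ A → w0.ord (io A) = 0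
  one : w0.ord (io g) = 1
  frac : ∀ f : RatFunc L, w0.Reg f → ∃ A B : L[X], ¬ g ∣ B ∧ f * io B = io A
  uniq : ∀ w : Place ℂ (RatFunc L), (∀ l : L, l ≠ 0 → w.ord (algebraMap L (RatFunc L) l) = 0) →
    1 ≤ w.ord (io g) → w = w0

theorem exists_w0 (h : StW0) {g : L[X]} (hg : Irreducible g) : ∃ w0, IsW0 g w0 := by
  obtain ⟨w0, h1, h2, h3, h4, h5⟩ := h L g hg
  exact ⟨w0, h1, h2, h3, h4, h5⟩

variable {g : L[X]} {w0 : Place ℂ (RatFunc L)}

theorem IsW0.ord_of (h : IsW0 g w0) (hg : ∀ A : L[X], g ∣ A ↔ aeval τ A = 0) {A : L[X]}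
    (hA : aeval τ A ≠ 0) : io A ≠ 0 ∧ w0.ord (io A) = 0 := by
  have hA0 : A ≠ 0 := by
    rintro rfl
    rw [map_zero] at hA
    exact hA rfl
  exact ⟨io_ne hA0, h.unit A hA0 fun h1 => hA ((hg A).1 h1)⟩


theorem Sp.reg (h : IsW0 g w0) (hg : ∀ A : L[X], g ∣ A ↔ aeval τ A = 0) {f : RatFunc L} {κ : K}
    (hf : Sp τ f κ) : w0.Reg f := by
  obtain ⟨A, B, h1, h2, h3⟩ := hf
  obtain ⟨h4, h5⟩ := h.ord_of hg h1
  have h6 : Ge w0 0 (io B * f) := by
    rw [mul_comm, h2]
    exact h.reg A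
  have h7 := Ge.of_mul (P := w0) h4 h6
  rw [h5, sub_zero] at h7
  exact h7

theorem Sp.ge_one (h : IsW0 g w0) (hg : ∀ A : L[X], g ∣ A ↔ aeval τ A = 0) {f : RatFunc L}
    (hf : Sp τ f 0) : Ge w0 1 f := by
  obtain ⟨A, B, h1, h2, h3⟩ := hf
  obtain ⟨h4, h5⟩ := h.ord_of hg h1
  rw [zero_mul] at h3
  obtain ⟨q, hq⟩ := (hg A).2 h3
  have h6 : Ge w0 1 (io B * f) := by
    rw [mul_comm, h2, hq, io, map_mul]
    have h7 : Ge w0 1 (io g) := Or.inr h.one.ge
    simpa using h7.mul (show Ge w0 0 (io q) from h.reg q)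
  have h7 := Ge.of_mul (P := w0) h4 h6
  rw [h5, sub_zero] at h7
  exact h7

theorem Sp.unit (h : IsW0 g w0) (hg : ∀ A : L[X], g ∣ A ↔ aeval τ A = 0) {f : RatFunc L} {κ : K}
    (hf : Sp τ f κ) (hκ : κ ≠ 0) : f ≠ 0 ∧ w0.ord f = 0 := by
  obtain ⟨A, B, h1, h2, h3⟩ := hf
  obtain ⟨h4, h5⟩ := h.ord_of hg h1
  have hA : aeval τ A ≠ 0 := by
    rw [h3]
    exact mul_ne_zero hκ h1
  obtain ⟨h6, h7⟩ := h.ord_of hg hA
  have hf0 : f ≠ 0 := by
    rintro rfl
    rw [zero_mul] at h2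
    exact h6 h2.symm
  refine ⟨hf0, ?_⟩
  have h8 := w0.ord_mul hf0 h4
  rw [h2, h5, h7] at h8
  omega

theorem Sp.of_reg (h : IsW0 g w0) (hg : ∀ A : L[X], g ∣ A ↔ aeval τ A = 0) {f : RatFunc L}
    (hf : w0.Reg f) : ∃ κ : K, Sp τ f κ := by
  obtain ⟨A, B, h1, h2⟩ := h.frac f hf
  have h3 : aeval τ B ≠ 0 := fun h0 => h1 ((hg B).2 h0)
  exact ⟨aeval τ A / aeval τ B, A, B, h3, h2, by field_simp⟩

/-- derivations which map polynomials to polynomials are regular at `w0` -/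
theorem IsW0.derReg (h : IsW0 g w0) {δ : Derivation ℂ (RatFunc L) (RatFunc L)}
    (hδ : ∀ A : L[X], ∃ A' : L[X], δ (io A) = io A') : DerReg w0 δ := by
  intro f hf
  obtain ⟨A, B, h1, h2⟩ := h.frac f hf
  obtain ⟨A', hA'⟩ := hδ A
  obtain ⟨B', hB'⟩ := hδ B
  have hB0 : B ≠ 0 := by
    rintro rfl
    exact h1 (dvd_zero g)
  have h3 := congrArg δ h2
  rw [δ.leibniz, smul_eq_mul, smul_eq_mul, hA', hB'] at h3
  have h4 : io B * δ f = io A' - f * io B' := by
    rw [← h3]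
    ring
  have h5 : Ge w0 0 (io B * δ f) := by
    rw [h4]
    refine Ge.sub (h.reg A') ?_
    have h6 : Ge w0 0 f := hf
    simpa using h6.mul (show Ge w0 0 (io B') from h.reg B')
  have h7 := Ge.of_mul (P := w0) (io_ne hB0) h5
  rw [h.unit B hB0 h1, sub_zero] at h7
  exact h7

/-- a derivation which maps the constants and the variable to polynomials -/
theorem der_poly {δ : Derivation ℂ (RatFunc L) (RatFunc L)}
    (hL : ∀ l : L, ∃ A' : L[X], δ (algebraMap L (RatFunc L) l) = io A')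
    (hX : ∃ A' : L[X], δ RatFunc.X = io A') (A : L[X]) : ∃ A' : L[X], δ (io A) = io A' := by
  have hXi : io (X : L[X]) = RatFunc.X := RatFunc.algebraMap_X
  induction A using Polynomial.induction_on' with
  | add p q hp hq =>
    obtain ⟨p', hp'⟩ := hp
    obtain ⟨q', hq'⟩ := hq
    exact ⟨p' + q', by rw [io, map_add, map_add, ← io, ← io, hp', hq', io, io, io, map_add]⟩
  | monomial k l =>
    obtain ⟨A1, h1⟩ := hL l
    obtain ⟨A2, h2⟩ := hX
    refine ⟨C l * ((k : L[X]) * X ^ (k - 1) * A2) + X ^ k * A1, ?_⟩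
    have e : io (monomial k l) = algebraMap L (RatFunc L) l * RatFunc.X ^ k := by
      rw [← C_mul_X_pow_eq_monomial, io, map_mul, map_pow, ← io, ← io, hXi, io,
        ← Polynomial.algebraMap_eq, ← IsScalarTower.algebraMap_apply L L[X] (RatFunc L)]
    rw [e, δ.leibniz, δ.leibniz_pow, h1, h2]
    simp only [io, map_add, map_mul, map_pow, map_natCast, smul_eq_mul, nsmul_eq_mul]
    have e2 : algebraMap L[X] (RatFunc L) (C l) = algebraMap L (RatFunc L) l := by
      rw [← Polynomial.algebraMap_eq, ← IsScalarTower.algebraMap_apply L L[X] (RatFunc L)]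
    have e3 : algebraMap L[X] (RatFunc L) X = RatFunc.X := hXi
    rw [e2, e3]
    ring

end

end Pool.Agent.Y184.NT
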