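import Mathlib

/-!
Lines through the fibres of a map: the basic definitions.
-/

set_option autoImplicit false

namespace Pool.Agent.Y184.NT

section

variable {K : Type} [Field K] [Algebra ℂ K]

/-- the matrix with the rows `c`, `x` and `D i x` -/
def rows {n : ℕ} (c x : Fin (n + 2) → K) (D : Fin n → Derivation ℂ K K) :
    Matrix (Fin (n + 2)) (Fin (n + 2)) K :=
  Matrix.of (Fin.cons c (Fin.cons x fun i j => D i (x j) : Fin (n + 1) → Fin (n + 2) → K))

/-- the point `a + T b` of the line through `a` and `b` -/
noncomputable def lin {N : ℕ} (a b : Fin N → K) (j : Fin N) : Polynomial K :=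
  Polynomial.C (a j) + Polynomial.X * Polynomial.C (b j)

/-- the restriction of the form `F` to the line through `a` and `b` -/
noncomputable def restr {N : ℕ} (F : MvPolynomial (Fin N) ℂ) (a b : Fin N → K) : Polynomial K :=
  MvPolynomial.aeval (lin a b) F

/-- the Jacobian determinant of the family of the lines through `a` and `b`: the matrix has the rows
`a + T b`, `b` and `E i a + T E i b` -/
noncomputable def jac {n : ℕ} (E : Fin n → Derivation ℂ K K) (a b : Fin (n + 2) → K) :
    Polynomial K :=
  (Matrix.of (Fin.cons (lin a b) (Fin.cons (fun j => Polynomial.C (b j))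
    fun i => lin (fun j => E i (a j)) (fun j => E i (b j)) :
      Fin (n + 1) → Fin (n + 2) → Polynomial K))).det

end

end Pool.Agent.Y184.NT
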