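import Pool.Agent.Y184.NT.StB
import Pool.Agent.W73.PG.PULL

/-!
The Jacobian matrix of a point of a projective space over a field with derivations.
-/

set_option autoImplicit false
set_option linter.overlappingInstances false
set_option linter.unusedSectionVars false

open FF Polynomial Pool.Agent.W602.GT

namespace Pool.Agent.Y184.NT

section

variable {R : Type} [Field R] [Algebra ℂ R] {N : ℕ}

/-- the matrix with the rows `u` and `δ i u` -/
def jm (δ : Fin N → Derivation ℂ R R) (u : Fin (N + 1) → R) :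
    Matrix (Fin (N + 1)) (Fin (N + 1)) R :=
  Matrix.of (Fin.cons u fun i j => δ i (u j) : Fin (N + 1) → Fin (N + 1) → R)

theorem jm_zero (δ : Fin N → Derivation ℂ R R) (u : Fin (N + 1) → R) (j : Fin (N + 1)) :
    jm δ u 0 j = u j := rfl

theorem jm_succ (δ : Fin N → Derivation ℂ R R) (u : Fin (N + 1) → R) (i : Fin N)
    (j : Fin (N + 1)) : jm δ u i.succ j = δ i (u j) := rfl

theorem jm_scale (δ : Fin N → Derivation ℂ R R) (u : Fin (N + 1) → R) {c : R} (hc : c ≠ 0) :
    (jm δ fun j => c * u j).det = c ^ (N + 1) * (jm δ u).det := by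
  have h1 : (jm δ fun j => c * u j).det = (c • jm δ u).det := by
    refine Matrix.det_eq_of_forall_row_eq_smul_add_const
      (Fin.cons 0 (fun i => δ i c / c) : Fin (N + 1) → R) 0 rfl fun i j => ?_
    refine Fin.cases ?_ (fun i => ?_) i
    · rw [jm_zero, Fin.cons_zero, zero_mul, add_zero]
      rfl
    · rw [jm_succ, Fin.cons_succ, Matrix.smul_apply, Matrix.smul_apply, jm_succ, jm_zero,
        (δ i).leibniz, smul_eq_mul, smul_eq_mul, smul_eq_mul]
      field_simp
  rw [h1, Matrix.det_smul, Fintype.card_fin]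

theorem der_zero {t : Fin N → R} (ht : IsTranscendenceBasis ℂ t) {δ : Fin N → Derivation ℂ R R}
    (hδ : ∀ i j, δ i (t j) = if i = j then 1 else 0) {u : Fin (N + 1) → R}
    (hu : (jm δ u).det ≠ 0) {D : Derivation ℂ R R} (hD : ∀ j, D (u j) = 0) : D = 0 := by
  have h1 := Pool.Agent.W73.PG.PULL.expand t ht δ hδ D
  have h2 : Matrix.vecMul (Fin.cons 0 fun i => D (t i) : Fin (N + 1) → R) (jm δ u) = 0 := by
    funext j
    rw [Matrix.vecMul, dotProduct, Fin.sum_univ_succ, Fin.cons_zero, zero_mul, zero_add]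
    have h3 := hD j
    rw [← h1] at h3
    have h4 : (∑ b, D (t b) • δ b) (u j) = ∑ b, D (t b) * δ b (u j) := by
      have h5 : (∑ b, D (t b) • δ b) (u j) = ∑ b, (D (t b) • δ b) (u j) := by
        rw [← Derivation.coeFnAddMonoidHom_apply, map_sum, Finset.sum_apply]
        rfl
      rw [h5]
      rfl
    rw [h4] at h3
    exact h3
  have h3 := Matrix.eq_zero_of_vecMul_eq_zero hu h2
  have h4 : ∀ i, D (t i) = 0 := fun i => congrFun h3 i.succ
  rw [← h1]
  exact Finset.sum_eq_zero fun i _ => by rw [h4, zero_smul]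

end

end Pool.Agent.Y184.NT
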