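import Pool.Agent.Y184.NT.Sp
import Pool.Agent.Y184.NT.Mat
import Pool.Agent.Y172.Cov1
import Pool.Agent.Y988.NT.Res
import Pool.Agent.TH466.QG.Low

/-!
The lines form a congruence of order one.
-/

set_option autoImplicit false
set_option linter.overlappingInstances false
set_option linter.unusedSectionVars false

open FF Polynomial Pool.Agent.W602.GT Pool.Agent.W603.LV

namespace Pool.Agent.Y184.NT

section

variable {L : Type} [Field L] [Algebra ℂ L]

theorem io_C (l : L) : io (C l) = algebraMap L (RatFunc L) l := by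
  rw [io, ← Polynomial.algebraMap_eq, ← IsScalarTower.algebraMap_apply L L[X] (RatFunc L)]

theorem io_X : io (X : L[X]) = RatFunc.X := RatFunc.algebraMap_X

theorem io_lin {N : ℕ} (a b : Fin N → L) (j : Fin N) : io (lin a b j) =
    algebraMap L (RatFunc L) (a j) + RatFunc.X * algebraMap L (RatFunc L) (b j) := by
  rw [lin, io, map_add, map_mul, ← io, ← io, ← io, io_C, io_C, io_X]

theorem io_restr {N : ℕ} (F : MvPolynomial (Fin N) ℂ) (a b : Fin N → L) :
    io (restr F a b) = MvPolynomial.aeval (fun j => io (lin a b j)) F :=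
  (MvPolynomial.aeval_algebraMap_apply (RatFunc L) (lin a b) F).symm

theorem reg_aevalL {w : Place ℂ (RatFunc L)}
    (hw : ∀ l : L, l ≠ 0 → w.ord (algebraMap L (RatFunc L) l) = 0)
    {f : RatFunc L} (hf : w.Reg f) (P : L[X]) : w.Reg (aeval f P) := by
  induction P using Polynomial.induction_on' with
  | add p q hp hq =>
    rw [map_add]
    exact w.reg_add hp hq
  | monomial k l =>
    rw [aeval_monomial]
    refine w.reg_mul ?_ ?_
    · by_cases hl : l = 0
      · rw [hl, map_zero]
        exact w.reg_zero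
      · exact Or.inr (hw l hl).ge
    · have h1 := (show Ge w 0 f from hf).pow k
      rw [mul_zero] at h1
      exact h1

theorem io_aeval (A : L[X]) : io A = aeval (RatFunc.X : RatFunc L) A := by
  rw [← io_X, io, io, Polynomial.aeval_algebraMap_apply, aeval_X_left_apply]

theorem aeval_lin {K : Type} [Field K] [Algebra L K] {N : ℕ} (a b : Fin N → L) (s : K)
    (j : Fin N) : aeval s (lin a b j) = algebraMap L K (a j) + s * algebraMap L K (b j) := by
  rw [lin, map_add, map_mul, aeval_C, aeval_X, aeval_C]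

/-- the variable is regular at the places over the hypersurface -/
theorem X_reg {w : Place ℂ (RatFunc L)}
    (hw : ∀ l : L, l ≠ 0 → w.ord (algebraMap L (RatFunc L) l) = 0) {n d : ℕ}
    {F : MvPolynomial (Fin n) ℂ} (hh : F.IsHomogeneous d) {a b : Fin n → L}
    (hFb : MvPolynomial.aeval b F ≠ 0) {u : Fin n → RatFunc L} {α : RatFunc L}
    (hu : ∀ j, u j = α * (algebraMap L (RatFunc L) (a j) +
      RatFunc.X * algebraMap L (RatFunc L) (b j))) {j0 : Fin n} (hj0 : u j0 = 1)
    (hF : Ge w 1 (MvPolynomial.aeval u F)) : w.Reg (RatFunc.X : RatFunc L) := by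
  by_contra hX
  have hX0 : (RatFunc.X : RatFunc L) ≠ 0 := RatFunc.X_ne_zero
  have hXn : w.ord (RatFunc.X : RatFunc L) < 0 := by
    by_contra h
    exact hX (Or.inr (not_lt.1 h))
  obtain ⟨S, hS⟩ : ∃ S : RatFunc L, S = (RatFunc.X)⁻¹ := ⟨_, rfl⟩
  obtain ⟨β, hβ⟩ : ∃ β : RatFunc L, β = α * RatFunc.X := ⟨_, rfl⟩
  have hS0 : S ≠ 0 := by
    rw [hS]
    exact inv_ne_zero hX0
  have hS1 : Ge w 1 S := by
    right
    rw [hS, w.ord_inv]
    omega
  have hSr : w.Reg S := hS1.mono (by norm_num)
  have hu' : ∀ j, u j = β * aeval S (lin b a j) := by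
    intro j
    rw [hu, aeval_lin, hβ, hS]
    field_simp
    ring
  have h1 : MvPolynomial.aeval u F = β ^ d * aeval S (restr F b a) := by
    have h2 : u = fun j => β * aeval S (lin b a j) := funext hu'
    rw [h2, Pool.Agent.Y988.NT.aeval_smul_form hh]
    congr 1
    rw [restr]
    have h4 : (aeval S : L[X] →ₐ[L] RatFunc L) (MvPolynomial.aeval (lin b a) F) =
        MvPolynomial.aeval (fun j => aeval S (lin b a j)) F := by
      have h5 := MvPolynomial.comp_aeval_apply (φ := (aeval S : L[X] →ₐ[L] RatFunc L).restrictScalars ℂ)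
        (lin b a) F
      exact h5
    exact h4.symm
  -- the value at infinity
  have h2 : (restr F b a).coeff 0 = MvPolynomial.aeval b F := by
    rw [coeff_zero_eq_eval_zero, restr]
    have h5 := MvPolynomial.comp_aeval_apply (φ := (aeval (0 : L) : L[X] →ₐ[L] L).restrictScalars ℂ)
        (lin b a) F
    have h6 : (fun j => (aeval (0 : L) : L[X] →ₐ[L] L).restrictScalars ℂ (lin b a j)) = b := by
      funext j
      change aeval (0 : L) (lin b a j) = b j
      rw [aeval_lin, zero_mul, add_zero]
      rfl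
    rw [h6] at h5
    rw [← h5]
    change _ = aeval (0 : L) _
    rw [coe_aeval_eq_eval]
  have h3 : aeval S (restr F b a) = algebraMap L (RatFunc L) (MvPolynomial.aeval b F) +
      S * aeval S (restr F b a).divX := by
    conv_lhs => rw [← divX_mul_X_add (restr F b a)]
    rw [map_add, map_mul, aeval_X, aeval_C, h2]
    ring
  have hFb0 : algebraMap L (RatFunc L) (MvPolynomial.aeval b F) ≠ 0 := by
    rwa [Ne, map_eq_zero]
  have h4 : aeval S (restr F b a) ≠ 0 ∧ w.ord (aeval S (restr F b a)) = 0 := by
    have h5 : Ge w 1 (S * aeval S (restr F b a).divX) := by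
      have h6 := hS1.mul (show Ge w 0 (aeval S (restr F b a).divX) from reg_aevalL hw hSr _)
      simpa using h6
    rw [h3]
    by_cases h7 : S * aeval S (restr F b a).divX = 0
    · rw [h7, add_zero]
      exact ⟨hFb0, hw _ hFb⟩
    · have h8 := h5.resolve_left h7
      have h9 := w.ord_add_eq hFb0 h7 (by rw [hw _ hFb]; omega)
      rw [hw _ hFb] at h9
      exact h9
  -- the coefficient
  have h5 : β * aeval S (lin b a j0) = 1 := by rw [← hu', hj0]
  have hβ0 : β ≠ 0 := left_ne_zero_of_mul_eq_one h5
  have hl0 : aeval S (lin b a j0) ≠ 0 := right_ne_zero_of_mul_eq_one h5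
  have h6 := (reg_aevalL hw hSr (lin b a j0)).resolve_left hl0
  have h7 := w.ord_mul hβ0 hl0
  rw [h5, w.ord_one] at h7
  have h8 : MvPolynomial.aeval u F ≠ 0 := by
    rw [h1]
    exact mul_ne_zero (pow_ne_zero _ hβ0) h4.1
  have h9 := hF.resolve_left h8
  rw [h1, w.ord_mul (pow_ne_zero _ hβ0) h4.1, h4.2, w.ord_pow] at h9
  have h10 : (d : ℤ) * w.ord β ≤ 0 := mul_nonpos_of_nonneg_of_nonpos (by positivity) (by omega)
  omega

/-- a nonzero minor -/
theorem exists_minor {N : ℕ} {a b : Fin N → L} (hab : LinearIndependent L ![a, b]) :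
    ∃ i j, a i * b j - a j * b i ≠ 0 := by
  by_contra hcon
  push Not at hcon
  rw [LinearIndependent.pair_iff] at hab
  by_cases hb : b = 0
  · have := hab 0 1 (by rw [hb]; simp)
    exact one_ne_zero this.2
  · obtain ⟨j, hj⟩ : ∃ j, b j ≠ 0 := by
      by_contra h
      push Not at h
      exact hb (funext h)
    have := hab (b j) (-(a j)) (by
      funext i
      have h1 := hcon i j
      simp only [Pi.add_apply, Pi.smul_apply, smul_eq_mul, Pi.zero_apply, neg_mul]
      linear_combination h1)
    exact hj this.1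

end

end Pool.Agent.Y184.NT
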