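import Pool.Agent.Y184.NT.Cong

/-!
The lines form a congruence of order one: the places over the hypersurface.
-/

set_option autoImplicit false
set_option linter.overlappingInstances false
set_option linter.unusedSectionVars false

open FF Polynomial Pool.Agent.W602.GT Pool.Agent.W603.LV

namespace Pool.Agent.Y184.NT

section

variable {L K : Type} [Field L] [Field K] [Algebra ℂ L] [Algebra ℂ K] [Algebra L K]
  [IsScalarTower ℂ L K] [FiniteDimensional L K] [hess : Algebra.EssFiniteType ℂ L] {n d : ℕ}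
  {F : MvPolynomial (Fin (n + 2)) ℂ} {a b : Fin (n + 2) → L} {τ : K} {x : Fin (n + 2) → K}

/-- the matrix of the family -/
theorem jm_lin {E : Fin n → Derivation ℂ L L}
    {δ : Fin (n + 1) → Derivation ℂ (RatFunc L) (RatFunc L)} (hd1 : δ 0 RatFunc.X = 1)
    (hd2 : ∀ l, δ 0 (algebraMap L (RatFunc L) l) = 0) (hd3 : ∀ i : Fin n, δ i.succ RatFunc.X = 0)
    (hd4 : ∀ (i : Fin n) l, δ i.succ (algebraMap L (RatFunc L) l) =
      algebraMap L (RatFunc L) (E i l)) (a b : Fin (n + 2) → L) :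
    (jm δ fun j => io (lin a b j)).det = io (jac E a b) := by
  rw [jac, io, RingHom.map_det]
  congr 1
  ext i j
  rw [RingHom.mapMatrix_apply, Matrix.map_apply, Matrix.of_apply]
  refine Fin.cases ?_ (fun i => ?_) i
  · rw [jm_zero, Fin.cons_zero]
  · rw [jm_succ, Fin.cons_succ, io_lin]
    refine Fin.cases ?_ (fun i => ?_) i
    · rw [Fin.cons_zero, map_add, (δ 0).leibniz, hd1, hd2, hd2, smul_eq_mul, smul_eq_mul, mul_zero,
        mul_one, zero_add, zero_add, ← io, io_C]
    · rw [Fin.cons_succ, map_add, (δ i.succ).leibniz, hd3, hd4, hd4, smul_eq_mul, smul_eq_mul,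
        mul_zero, add_zero, ← io, io_lin]

theorem der_polys {E : Fin n → Derivation ℂ L L}
    {δ : Fin (n + 1) → Derivation ℂ (RatFunc L) (RatFunc L)} (hd1 : δ 0 RatFunc.X = 1)
    (hd2 : ∀ l, δ 0 (algebraMap L (RatFunc L) l) = 0) (hd3 : ∀ i : Fin n, δ i.succ RatFunc.X = 0)
    (hd4 : ∀ (i : Fin n) l, δ i.succ (algebraMap L (RatFunc L) l) =
      algebraMap L (RatFunc L) (E i l)) (i : Fin (n + 1)) (A : L[X]) :
    ∃ A' : L[X], δ i (io A) = io A' := by
  refine der_poly ?_ ?_ A
  · intro l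
    refine Fin.cases ?_ (fun i => ?_) i
    · exact ⟨0, by rw [hd2, io, map_zero]⟩
    · exact ⟨C (E i l), by rw [hd4, io_C]⟩
  · refine Fin.cases ?_ (fun i => ?_) i
    · exact ⟨1, by rw [hd1, io, map_one]⟩
    · exact ⟨0, by rw [hd3, io, map_zero]⟩

theorem dual_t {z : Fin n → L} {E : Fin n → Derivation ℂ L L}
    (hE : ∀ i j, E i (z j) = if i = j then 1 else 0)
    {δ : Fin (n + 1) → Derivation ℂ (RatFunc L) (RatFunc L)} (hd1 : δ 0 RatFunc.X = 1)
    (hd2 : ∀ l, δ 0 (algebraMap L (RatFunc L) l) = 0) (hd3 : ∀ i : Fin n, δ i.succ RatFunc.X = 0)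
    (hd4 : ∀ (i : Fin n) l, δ i.succ (algebraMap L (RatFunc L) l) =
      algebraMap L (RatFunc L) (E i l)) (i j : Fin (n + 1)) :
    δ i ((Fin.cons RatFunc.X fun i => algebraMap L (RatFunc L) (z i) :
      Fin (n + 1) → RatFunc L) j) = if i = j then 1 else 0 := by
  refine Fin.cases ?_ (fun i => ?_) i <;> refine Fin.cases ?_ (fun j => ?_) j
  · rw [Fin.cons_zero, hd1, if_pos rfl]
  · rw [Fin.cons_succ, hd2, if_neg (Fin.succ_ne_zero j).symm]
  · rw [Fin.cons_zero, hd3, if_neg (Fin.succ_ne_zero i)]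
  · rw [Fin.cons_succ, hd4, hE]
    by_cases hij : i = j
    · rw [if_pos hij, if_pos (by rw [hij]), map_one]
    · rw [if_neg hij, if_neg (fun h => hij (Fin.succ_injective _ h)), map_zero]

/-- **The places over the hypersurface.** -/
theorem above (hTame : StTame) (hVert : StVert) (hn : 1 ≤ n) (hL : Algebra.trdeg ℂ L = n)
    (hs : Sm F) (hh : F.IsHomogeneous d) (hnd : n < d) (hab : LinearIndependent L ![a, b])
    (hFb : MvPolynomial.aeval b F ≠ 0) {g h : L[X]} {w0 : Place ℂ (RatFunc L)} (hw0 : IsW0 g w0)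
    (hg : ∀ A : L[X], g ∣ A ↔ aeval τ A = 0) (hP : restr F a b = g * h) (hh0 : aeval τ h ≠ 0)
    {E : Fin n → Derivation ℂ L L} (hJ : h ∣ jac E a b) (hJ0 : aeval τ (jac E a b) ≠ 0)
    {z : Fin n → L} (hE : ∀ i j, E i (z j) = if i = j then 1 else 0)
    (ht : IsTranscendenceBasis ℂ (Fin.cons RatFunc.X fun i => algebraMap L (RatFunc L) (z i) :
      Fin (n + 1) → RatFunc L))
    {δ : Fin (n + 1) → Derivation ℂ (RatFunc L) (RatFunc L)} (hd1 : δ 0 RatFunc.X = 1)
    (hd2 : ∀ l, δ 0 (algebraMap L (RatFunc L) l) = 0) (hd3 : ∀ i : Fin n, δ i.succ RatFunc.X = 0)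
    (hd4 : ∀ (i : Fin n) l, δ i.succ (algebraMap L (RatFunc L) l) =
      algebraMap L (RatFunc L) (E i l))
    (hx : ∀ j, x j = algebraMap L K (a j) + τ * algebraMap L K (b j)) {j0 : Fin (n + 2)}
    (hj0 : x j0 ≠ 0) {s : Fin n → Fin (n + 2)}
    (hsx : AlgebraicIndependent ℂ (fun i => x (s i) / x j0))
    {E0 : IntermediateField ℂ (RatFunc L)}
    (hu : ∀ j, io (lin a b j) / io (lin a b j0) ∈ E0) [FiniteDimensional E0 (RatFunc L)]
    [Algebra.EssFiniteType ℂ E0] [Algebra.EssFiniteType ℂ (RatFunc L)]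
    (hE0 : Algebra.trdeg ℂ E0 = (n + 1 : ℕ)) {v : Place ℂ E0} {e0 : ℕ} (hv : Over w0 v e0) :
    e0 = 1 ∧ ∀ (w : Place ℂ (RatFunc L)) (e : ℕ), Over w v e → w = w0 := by
  classical
  have hyv : ∀ j, aeval τ (lin a b j) = x j := fun j => by rw [aeval_lin, hx]
  have hy : ∀ j, Sp τ (io (lin a b j)) (x j) := fun j => by
    have := Sp.poly (τ := τ) (lin a b j)
    rwa [hyv] at this
  obtain ⟨hy0, hy0'⟩ := (hy j0).unit hw0 hg hj0
  obtain ⟨u, hudef⟩ : ∃ u : Fin (n + 2) → RatFunc L,
    u = fun j => io (lin a b j) / io (lin a b j0) := ⟨_, rfl⟩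
  have hu0 : u j0 = 1 := by rw [hudef]; exact div_self hy0
  have hyu : (fun j => io (lin a b j)) = fun j => io (lin a b j0) * u j := by
    funext j
    rw [hudef]
    field_simp
  have hsp : ∀ j, Sp τ (u j) (x j / x j0) := fun j => by
    rw [hudef]
    exact (hy j).div (hy j0) hj0
  -- the element `F (u)`
  have hFu0 : io (g * h) = io (lin a b j0) ^ d * MvPolynomial.aeval u F := by
    rw [← hP, io_restr, hyu, Pool.Agent.Y988.NT.aeval_smul_form hh]
  obtain ⟨hho, hho'⟩ := hw0.ord_of hg hh0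
  have hgo : io g ≠ 0 := by
    intro h0
    have := hw0.one
    rw [h0, Place.ord_zero] at this
    exact zero_ne_one this
  have hFu1 : MvPolynomial.aeval u F ≠ 0 := by
    intro h0
    rw [h0, mul_zero, io, map_mul] at hFu0
    rcases mul_eq_zero.1 hFu0 with h1 | h1
    · exact hgo h1
    · exact hho h1
  have hord : ∀ w : Place ℂ (RatFunc L), w.ord (io g) + w.ord (io h) =
      d * w.ord (io (lin a b j0)) + w.ord (MvPolynomial.aeval u F) := by
    intro w
    have h1 := congrArg w.ord hFu0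
    rw [io, map_mul, ← io, ← io, w.ord_mul hgo hho, w.ord_mul (pow_ne_zero _ hy0) hFu1,
      w.ord_pow] at h1
    exact h1
  have hFu2 : w0.ord (MvPolynomial.aeval u F) = 1 := by
    have h1 := hord w0
    rw [hw0.one, hho', hy0'] at h1
    omega
  -- the elements in `E0`
  obtain ⟨uE, huE⟩ : ∃ uE : Fin (n + 2) → E0, ∀ j, (uE j : RatFunc L) = u j :=
    ⟨fun j => ⟨u j, by rw [hudef]; exact hu j⟩, fun _ => rfl⟩
  have huE' : (algebraMap E0 (RatFunc L)) ∘ uE = u := funext huE
  have hev : ∀ G : MvPolynomial (Fin (n + 2)) ℂ,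
      algebraMap E0 (RatFunc L) (MvPolynomial.aeval uE G) = MvPolynomial.aeval u G := by
    intro G
    rw [← MvPolynomial.aeval_algebraMap_apply, huE']
  have hvF : (e0 : ℤ) * v.ord (MvPolynomial.aeval uE F) = 1 := by
    rw [← hv.2, hev, hFu2]
  have he0 : e0 = 1 := by
    have h1 : (e0 : ℤ) ∣ 1 := ⟨_, hvF.symm⟩
    have h2 : e0 ∣ 1 := by exact_mod_cast h1
    exact Nat.dvd_one.1 h2
  subst he0
  have hvF1 : v.ord (MvPolynomial.aeval uE F) = 1 := by simpa using hvF
  refine ⟨rfl, fun w e hw => ?_⟩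
  -- orders of polynomials in `u`
  have hG : ∀ G : MvPolynomial (Fin n) ℂ, G ≠ 0 →
      MvPolynomial.aeval (fun i => u (s i)) G ≠ 0 ∧
        w0.ord (MvPolynomial.aeval (fun i => u (s i)) G) = 0 := by
    intro G hG
    refine (Sp.mv (τ := τ) (u := fun i => u (s i)) (x := fun i => x (s i) / x j0)
      (fun i => hsp (s i)) G).unit hw0 hg ?_
    intro h0
    exact hG ((injective_iff_map_eq_zero _).1 hsx G h0)
  have hGE : ∀ G : MvPolynomial (Fin n) ℂ,
      algebraMap E0 (RatFunc L) (MvPolynomial.aeval (fun i => uE (s i)) G) =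
        MvPolynomial.aeval (fun i => u (s i)) G := by
    intro G
    rw [← MvPolynomial.aeval_algebraMap_apply]
    congr 2
    funext i
    exact huE (s i)
  have hGv : ∀ G : MvPolynomial (Fin n) ℂ, G ≠ 0 →
      MvPolynomial.aeval (fun i => uE (s i)) G ≠ 0 ∧
        v.ord (MvPolynomial.aeval (fun i => uE (s i)) G) = 0 := by
    intro G hG0
    obtain ⟨h1, h2⟩ := hG G hG0
    refine ⟨fun h0 => h1 (by rw [← hGE, h0, map_zero]), ?_⟩
    rw [← hGE, hv.2] at h2
    simpa using h2
  have hureg : ∀ j, w.Reg (u j) := by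
    intro j
    rw [← huE]
    refine hw.reg.2 (hv.reg.1 ?_)
    change w0.Reg (uE j : RatFunc L)
    rw [huE]
    exact (hsp j).reg hw0 hg
  have hwF : w.ord (MvPolynomial.aeval u F) = e := by
    rw [← hev, hw.2, hvF1, mul_one]
  have he1 : (1 : ℤ) ≤ e := by exact_mod_cast hw.1
  have hα : ∀ j, u j = (io (lin a b j0))⁻¹ * (algebraMap L (RatFunc L) (a j) +
      RatFunc.X * algebraMap L (RatFunc L) (b j)) := by
    intro j
    rw [← io_lin, hudef]
    exact div_eq_inv_mul _ _
  -- the place is trivial on `L`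
  have htriv : ∀ l : L, l ≠ 0 → w.ord (algebraMap L (RatFunc L) l) = 0 := by
    refine hVert L (RatFunc L) n d hn hL F hs hh hnd w a b hab u hureg j0 hu0
      ((io (lin a b j0))⁻¹) ((io (lin a b j0))⁻¹ * RatFunc.X) (fun j => ?_) s (fun G hG0 => ?_)
      (Or.inr (by rw [hwF]; exact he1))
    · rw [hα]
      ring
    · obtain ⟨h1, h2⟩ := hG G hG0
      obtain ⟨h3, h4⟩ := hGv G hG0
      refine ⟨h1, ?_⟩
      rw [← hGE, hw.2, h4, mul_zero]
  have hXr : w.Reg (RatFunc.X : RatFunc L) :=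
    X_reg htriv hh hFb hα hu0 (Or.inr (by rw [hwF]; exact he1))
  have hpol : ∀ A : L[X], w.Reg (io A) := fun A => by
    rw [io_aeval]
    exact reg_aevalL htriv hXr A
  have hyw : w.ord (io (lin a b j0)) = 0 := by
    have h1 := (hpol (lin a b j0)).resolve_left hy0
    by_contra hne
    have h2 : Ge w 1 (io (lin a b j0)) := Or.inr (by omega)
    have h3 : ∀ j, Ge w 1 (io (lin a b j)) := by
      intro j
      have h4 : io (lin a b j) = io (lin a b j0) * u j := congrFun hyu j
      rw [h4]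
      simpa using h2.mul (show Ge w 0 (u j) from hureg j)
    obtain ⟨i, j, hij⟩ := exists_minor hab
    have h4 : algebraMap L (RatFunc L) (b j) * io (lin a b i) -
        algebraMap L (RatFunc L) (b i) * io (lin a b j) =
        algebraMap L (RatFunc L) (a i * b j - a j * b i) := by
      rw [io_lin, io_lin, map_sub, map_mul, map_mul]
      ring
    have hLr : ∀ l : L, Ge w 0 (algebraMap L (RatFunc L) l) := by
      intro l
      rw [← io_C]
      exact hpol _
    have h5 : Ge w 1 (algebraMap L (RatFunc L) (a i * b j - a j * b i)) := by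
      rw [← h4]
      refine Ge.sub ?_ ?_
      · simpa using (hLr (b j)).mul (h3 i)
      · simpa using (hLr (b i)).mul (h3 j)
    rcases h5 with h5 | h5
    · rw [map_eq_zero] at h5
      exact hij h5
    · rw [htriv _ hij] at h5
      omega
  have hsum := hord w
  rw [hyw, hwF, mul_zero, zero_add] at hsum
  have hgr := (hpol g).resolve_left hgo
  by_cases hg1 : 1 ≤ w.ord (io g)
  · exact hw0.uniq w htriv hg1
  exfalso
  have hg0 : w.ord (io g) = 0 := by omega
  rw [hg0, zero_add] at hsum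
  -- the Jacobian
  have hjac0 : io (jac E a b) ≠ 0 ∧ w0.ord (io (jac E a b)) = 0 := hw0.ord_of hg hJ0
  obtain ⟨q, hq⟩ := hJ
  have hjw : (e : ℤ) ≤ w.ord (io (jac E a b)) := by
    have h1 : io (jac E a b) = io h * io q := by rw [hq, io, map_mul]
    have h2 : Ge w e (io h) := Or.inr (by omega)
    have h3 := h2.mul (show Ge w 0 (io q) from hpol q)
    rw [← h1, add_zero] at h3
    exact h3.resolve_left hjac0.1
  have hdet : io (jac E a b) = io (lin a b j0) ^ (n + 2) * (jm δ u).det := by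
    rw [← jm_lin hd1 hd2 hd3 hd4, hyu, jm_scale δ u hy0]
  have hJu : (jm δ u).det ≠ 0 := by
    intro h0
    rw [h0, mul_zero] at hdet
    exact hjac0.1 hdet
  have hordJ : ∀ w' : Place ℂ (RatFunc L), w'.ord (io (lin a b j0)) = 0 →
      w'.ord (jm δ u).det = w'.ord (io (jac E a b)) := by
    intro w' h1
    rw [hdet, w'.ord_mul (pow_ne_zero _ hy0) hJu, w'.ord_pow, h1]
    ring
  have htame := hTame E0 (RatFunc L) (n + 1) hE0 _ ht δ (dual_t hE hd1 hd2 hd3 hd4) v w w0 e
    ⟨fun i : Fin n => uE (s i), hGv⟩ hw hv (by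
      intro j
      refine Fin.cases ?_ (fun j => ?_) j
      · rw [Fin.cons_zero]
        exact hXr
      · rw [Fin.cons_succ, ← io_C]
        exact hpol _)
    (fun i => hw0.derReg (der_polys hd1 hd2 hd3 hd4 i)) uE (jm δ u).det (by
      rw [jm]
      congr 2
      have h1 : (fun j => algebraMap E0 (RatFunc L) (uE j)) = u := huE'
      rw [h1]
      congr 1
      funext i j
      rw [show algebraMap E0 (RatFunc L) (uE j) = u j from huE j]) hJu
  rw [hordJ w hyw, hordJ w0 hy0', hjac0.2, mul_zero, zero_add] at htame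
  omega

end

end Pool.Agent.Y184.NT
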