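import Pool.Agent.Y184.NT.Cong2

/-!
The lines form a congruence of order one: the degree.
-/

set_option autoImplicit false
set_option linter.overlappingInstances false
set_option linter.unusedSectionVars false

open FF Polynomial Pool.Agent.W602.GT Pool.Agent.W603.LV

namespace Pool.Agent.Y184.NT

section

variable {L K : Type} [Field L] [Field K] [Algebra ℂ L] [Algebra ℂ K] [Algebra L K]
  [IsScalarTower ℂ L K] [FiniteDimensional L K] [hess : Algebra.EssFiniteType ℂ L] {n d : ℕ}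
  {F : MvPolynomial (Fin (n + 2)) ℂ} {a b : Fin (n + 2) → L} {τ : K} {x : Fin (n + 2) → K}

theorem ess_ratFunc : Algebra.EssFiniteType ℂ (RatFunc L) := by
  have hFF : IsFF L (RatFunc L) := by
    refine IsFF.of_finite (f := (RatFunc.X : RatFunc L)) RatFunc.transcendental_X ?_
    rw [RatFunc.adjoin_X]
    exact Module.Finite.of_surjective (Algebra.linearMap (⊤ : IntermediateField L (RatFunc L))
      (RatFunc L)) fun z => ⟨⟨z, trivial⟩, rfl⟩
  have hess0 : Algebra.EssFiniteType L (RatFunc L) := hFF.ess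
  exact Algebra.EssFiniteType.comp ℂ L (RatFunc L)

/-- the residue field of `w0` -/
theorem res_onto {g : L[X]} {w0 : Place ℂ (RatFunc L)} (hw0 : IsW0 g w0)
    (hg : ∀ A : L[X], g ∣ A ↔ aeval τ A = 0) {j0 : Fin (n + 2)} {u : Fin (n + 2) → RatFunc L}
    (hsp : ∀ j, Sp τ (u j) (x j / x j0))
    (hgen : IntermediateField.adjoin ℂ (Set.range fun j => x j / x j0) = ⊤)
    {E0 : IntermediateField ℂ (RatFunc L)} (hu : ∀ j, u j ∈ E0) {f : RatFunc L}
    (hf : w0.Reg f) : ∃ f' : E0, w0.Reg (f' : RatFunc L) ∧ Ge w0 1 (f - f') := by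
  obtain ⟨κ, hκ⟩ := Sp.of_reg (τ := τ) hw0 hg hf
  obtain ⟨G1, G2, hG2, hG⟩ : ∃ G1 G2 : MvPolynomial (Fin (n + 2)) ℂ,
      MvPolynomial.aeval (fun j => x j / x j0) G2 ≠ 0 ∧
        κ = MvPolynomial.aeval (fun j => x j / x j0) G1 /
          MvPolynomial.aeval (fun j => x j / x j0) G2 := by
    have h1 : κ ∈ IntermediateField.adjoin ℂ (Set.range fun j => x j / x j0) := by
      rw [hgen]
      trivial
    rw [IntermediateField.mem_adjoin_range_iff] at h1
    obtain ⟨r, s, h2⟩ := h1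
    by_cases h3 : MvPolynomial.aeval (fun j => x j / x j0) s = 0
    · exact ⟨0, 1, by simp, by rw [h2, h3]; simp⟩
    · exact ⟨r, s, h3, h2⟩
  have h1 : Sp τ (MvPolynomial.aeval u G1 / MvPolynomial.aeval u G2) κ := by
    rw [hG]
    exact (Sp.mv hsp G1).div (Sp.mv hsp G2) hG2
  have h2 : ∀ G : MvPolynomial (Fin (n + 2)) ℂ, MvPolynomial.aeval u G ∈ E0 := by
    intro G
    have h3 : MvPolynomial.aeval u G =
        ((MvPolynomial.aeval (fun j => (⟨u j, hu j⟩ : E0)) G : E0) : RatFunc L) := by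
      have h4 := MvPolynomial.aeval_algebraMap_apply (RatFunc L)
        (fun j => (⟨u j, hu j⟩ : E0)) G
      exact h4
    rw [h3]
    exact Subtype.coe_prop _
  refine ⟨⟨_, E0.div_mem (h2 G1) (h2 G2)⟩, h1.reg hw0 hg, ?_⟩
  have h3 := hκ.sub h1
  rw [sub_self] at h3
  exact h3.ge_one hw0 hg

/-- **The lines form a congruence of order one.** -/
theorem cong (hW0 : StW0) (hTame : StTame) (hFin : StFin) (hDer : StDer) (hVert : StVert)
    (hn : 1 ≤ n) (hL : Algebra.trdeg ℂ L = n)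
    (hs : Sm F) (hh : F.IsHomogeneous d) (hnd : n < d) (hab : LinearIndependent L ![a, b])
    (hFb : MvPolynomial.aeval b F ≠ 0) (hx : ∀ j, x j = algebraMap L K (a j) +
      τ * algebraMap L K (b j)) {h : L[X]} (hP : restr F a b = minpoly L τ * h)
    (hh0 : aeval τ h ≠ 0) {z : Fin n → L} (hz : IsTranscendenceBasis ℂ z)
    {E : Fin n → Derivation ℂ L L} (hE : ∀ i j, E i (z j) = if i = j then 1 else 0)
    (hJ : h ∣ jac E a b) (hJ0 : aeval τ (jac E a b) ≠ 0) {j0 : Fin (n + 2)} (hj0 : x j0 ≠ 0)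
    (hgen : IntermediateField.adjoin ℂ (Set.range fun j => x j / x j0) = ⊤)
    {s : Fin n → Fin (n + 2)} (hsx : AlgebraicIndependent ℂ (fun i => x (s i) / x j0)) :
    IntermediateField.adjoin ℂ (Set.range fun p : Fin (n + 2) × Fin (n + 2) =>
      algebraMap L[X] (RatFunc L) (lin a b p.1) / algebraMap L[X] (RatFunc L) (lin a b p.2)) =
      ⊤ := by
  classical
  have hint : IsIntegral L τ := Algebra.IsIntegral.isIntegral τ
  obtain ⟨w0, hw0⟩ := exists_w0 hW0 (minpoly.irreducible hint)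
  have hg : ∀ A : L[X], minpoly L τ ∣ A ↔ aeval τ A = 0 := fun A => minpoly.dvd_iff
  have hyv : ∀ j, aeval τ (lin a b j) = x j := fun j => by rw [aeval_lin, hx]
  have hy : ∀ j, Sp τ (io (lin a b j)) (x j) := fun j => by
    have := Sp.poly (τ := τ) (lin a b j)
    rwa [hyv] at this
  obtain ⟨hy0, hy0'⟩ := (hy j0).unit hw0 hg hj0
  have hsp : ∀ j, Sp τ (io (lin a b j) / io (lin a b j0)) (x j / x j0) := fun j =>
    (hy j).div (hy j0) hj0
  obtain ⟨ht, δ, hd1, hd2, hd3, hd4⟩ := hDer L n z hz E hE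
  obtain ⟨E0, hE0⟩ : ∃ E0 : IntermediateField ℂ (RatFunc L), E0 = IntermediateField.adjoin ℂ
    (Set.range fun j => io (lin a b j) / io (lin a b j0)) := ⟨_, rfl⟩
  have huE : ∀ j, io (lin a b j) / io (lin a b j0) ∈ E0 := by
    intro j
    rw [hE0]
    exact IntermediateField.subset_adjoin _ _ ⟨j, rfl⟩
  -- the Jacobian determinant
  obtain ⟨hjac0, -⟩ := hw0.ord_of hg hJ0
  have hyu : (fun j => io (lin a b j)) =
      fun j => io (lin a b j0) * (io (lin a b j) / io (lin a b j0)) := by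
    funext j
    field_simp
  have hJu : (jm δ fun j => io (lin a b j) / io (lin a b j0)).det ≠ 0 := by
    intro h0
    rw [← jm_lin hd1 hd2 hd3 hd4, hyu, jm_scale δ _ hy0, h0, mul_zero] at hjac0
    exact hjac0 rfl
  have hessR : Algebra.EssFiniteType ℂ (RatFunc L) := ess_ratFunc
  have hfin : FiniteDimensional E0 (RatFunc L) := hFin (RatFunc L) E0 fun D hD =>
    der_zero ht (dual_t hE hd1 hd2 hd3 hd4) hJu fun j => hD _ (huE j)
  have hessE : Algebra.EssFiniteType ℂ E0 := Pool.Agent.TH466.QG.ess_below (K := RatFunc L)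
  have htrR : Algebra.trdeg ℂ (RatFunc L) = (n + 1 : ℕ) := by
    rw [← ht.cardinalMk_eq_trdeg]
    simp
  have htr : Algebra.trdeg ℂ E0 = (n + 1 : ℕ) := by
    have h1 := trdeg_add_eq ℂ E0 (A := RatFunc L)
    have h2 : Algebra.trdeg E0 (RatFunc L) = 0 := by
      rw [trdeg_eq_zero_iff]
      infer_instance
    rw [h2, add_zero, htrR] at h1
    exact h1
  obtain ⟨v, e0, hv⟩ := Pool.Agent.Y172.exists_below (k := ℂ) (K := E0) w0
  obtain ⟨he0, hab'⟩ := above hTame hVert hn hL hs hh hnd hab hFb hw0 hg hP hh0 hJ hJ0 hE ht hd1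
    hd2 hd3 hd4 hx hj0 hsx huE htr hv
  subst he0
  obtain ⟨S, T, hS, hT, hsum⟩ := exists_places_over (K' := RatFunc L) v
  have hw0S : w0 ∈ S := hS w0 1 hv
  have hS1 : S = {w0} := by
    ext w
    rw [Finset.mem_singleton]
    constructor
    · intro hw
      obtain ⟨e, hov, -⟩ := hT w hw
      exact hab' w e hov
    · rintro rfl
      exact hw0S
  rw [hS1, Finset.sum_singleton] at hsum
  obtain ⟨e, hov, hTe, -⟩ := hT w0 hw0S
  have he : e = 1 := (Pool.Agent.Y172.over_unique' hov hv).2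
  subst he
  have hrk : @Module.finrank v.RF w0.RF _ _ hov.resMap.toRingHom.toAlgebra.toModule = 1 := by
    let _ : Algebra v.RF w0.RF := hov.resMap.toRingHom.toAlgebra
    refine finrank_eq_one (R := v.RF) (M := w0.RF) (1 : w0.RF) one_ne_zero fun ρ => ?_
    obtain ⟨⟨f, hf⟩, rfl⟩ := w0.resHom_surjective ρ
    obtain ⟨f', hf', hff⟩ := res_onto hw0 hg hsp hgen huE hf
    have hf'v : v.Reg f' := hv.reg.1 hf'
    refine ⟨v.red f', ?_⟩
    rw [Algebra.smul_def, mul_one]
    change hov.resMap (v.red f') = _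
    rw [hov.resMap_red hf'v]
    have h1 : w0.red (algebraMap E0 (RatFunc L) f') = w0.red f := by
      have h2 : w0.red (f - (f' : RatFunc L)) = 0 := by
        rw [w0.red_eq_zero_iff (hff.mono (by norm_num))]
        exact hff
      rw [w0.red_sub hf hf', sub_eq_zero] at h2
      exact h2.symm
    rw [h1, w0.red_of_reg hf]
  rw [hrk, mul_one] at hTe
  rw [hTe] at hsum
  have htop : E0 = ⊤ := IntermediateField.finrank_eq_one_iff_eq_top.1 hsum.symm
  rw [eq_top_iff, ← htop, hE0]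
  refine IntermediateField.adjoin.mono _ _ _ ?_
  rintro _ ⟨j, rfl⟩
  exact ⟨(j, j0), rfl⟩

end

end Pool.Agent.Y184.NT
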