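import Pool.Agent.Y184.NT.StC

/-!
Varieties dominated by a variety with positive canonical bundle: the statements of the parts of the
proof.
-/

set_option autoImplicit false

open FF Polynomial Pool.Agent.W602.GT

namespace Pool.Agent.Y184.NT

/-- the restriction of a divisorial place to a subfield is divisorial -/
def StAbh : Prop := ∀ (K R : Type) [Field K] [Field R] [Algebra ℂ K] [Algebra ℂ R] [Algebra K R]
  [IsScalarTower ℂ K R] (n N : ℕ), Algebra.trdeg ℂ K = n → Algebra.trdeg ℂ R = N →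
  ∀ (Q : Place ℂ R) (P : Place ℂ K) (e : ℕ), Over Q P e → Divisorial N Q → Divisorial n P

/-- pull-backs of regular forms are regular -/
def StPull : Prop := ∀ (K R : Type) [Field K] [Field R] [Algebra ℂ K] [Algebra ℂ R] [Algebra K R]
  [IsScalarTower ℂ K R] [Algebra.EssFiniteType ℂ K] (n N : ℕ), Algebra.trdeg ℂ K = n →
  Algebra.trdeg ℂ R = N → ∀ z : Fin n → K, IsTranscendenceBasis ℂ z →
  ∀ E : Fin n → Derivation ℂ K K, (∀ i j, E i (z j) = if i = j then 1 else 0) →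
  ∀ ω : (Fin n → Derivation ℂ K K) → K, IsPluri 1 ω →
  (∀ P : Place ℂ K, Divisorial n P → RegAt P ω) → ∀ Q : Place ℂ R, Divisorial N Q →
  ∀ D : Fin n → Derivation ℂ R R, (∀ i, DerReg Q (D i)) →
  Q.Reg ((Matrix.of fun i j => D i (algebraMap K R (z j))).det * algebraMap K R (ω E))

/-- varieties with a regular canonical form are not covered by rational curves -/
def StNLG : Prop := ∀ (K M : Type) [Field K] [Field M] [Algebra ℂ K] [Algebra ℂ M]
  [Algebra.EssFiniteType ℂ K] (n N : ℕ), Algebra.trdeg ℂ K = n →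
  ∀ z : Fin N → M, IsTranscendenceBasis ℂ z → ∀ ω : (Fin n → Derivation ℂ K K) → K, IsPluri 1 ω →
  (∀ P : Place ℂ K, Divisorial n P → RegAt P ω) → (∃ D, ω D ≠ 0) →
  ∀ (φ : K →ₐ[ℂ] RatFunc M) (f : K), ∃ c : M, φ f = algebraMap M (RatFunc M) c

/-- the places above are trivial on the base, for an arbitrary variety -/
def StVertG : Prop := ∀ (L K R : Type) [Field L] [Algebra ℂ L] [Field K] [Algebra ℂ K]
  [Algebra.EssFiniteType ℂ K] [Field R] [Algebra ℂ R] [Algebra L R] [IsScalarTower ℂ L R]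
  (n N : ℕ), 1 ≤ n → Algebra.trdeg ℂ L = n → Algebra.trdeg ℂ K = n →
  ∀ ω : (Fin n → Derivation ℂ K K) → K, IsPluri 1 ω →
  (∀ P : Place ℂ K, Divisorial n P → RegAt P ω) → (∃ D, ω D ≠ 0) →
  ∀ x : Fin N → K, IntermediateField.adjoin ℂ (Set.range x) = ⊤ → ∀ (w : Place ℂ R)
  (a b : Fin N → L), LinearIndependent L ![a, b] → ∀ u : Fin N → R,
  (∀ j, w.Reg (u j)) → ∀ j0 : Fin N, u j0 = 1 → ∀ α β : R,
  (∀ j, u j = α * algebraMap L R (a j) + β * algebraMap L R (b j)) →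
  (∀ G : MvPolynomial (Fin N) ℂ, MvPolynomial.aeval x G = 0 →
    MvPolynomial.aeval u G = 0 ∨ 1 ≤ w.ord (MvPolynomial.aeval u G)) →
  (∀ G : MvPolynomial (Fin N) ℂ, MvPolynomial.aeval x G ≠ 0 → MvPolynomial.aeval u G ≠ 0 ∧
    w.ord (MvPolynomial.aeval u G) = 0) →
  ∀ l : L, l ≠ 0 → w.ord (algebraMap L R l) = 0

/-- the lines through the fibres are not contained in the variety -/
def StNLx : Prop := ∀ (L K : Type) [Field L] [Field K] [Algebra ℂ L] [Algebra ℂ K]
  [Algebra.EssFiniteType ℂ K] [Algebra L K] [IsScalarTower ℂ L K] (n N l : ℕ),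
  Algebra.trdeg ℂ K = n → ∀ z : Fin l → L, IsTranscendenceBasis ℂ z →
  ∀ ω : (Fin n → Derivation ℂ K K) → K, IsPluri 1 ω →
  (∀ P : Place ℂ K, Divisorial n P → RegAt P ω) → (∃ D, ω D ≠ 0) →
  ∀ x : Fin N → K, IntermediateField.adjoin ℂ (Set.range x) = ⊤ → ∀ (a b : Fin N → L) (τ : K),
  b ≠ 0 → (∀ j, x j = algebraMap L K (a j) + τ * algebraMap L K (b j)) →
  ∃ F : MvPolynomial (Fin N) ℂ, MvPolynomial.aeval x F = 0 ∧ restr F a b ≠ 0

/-- the residual points are foci or zeros of the adjoint form -/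
def StJacG : Prop := ∀ (L K : Type) [Field L] [Field K] [Algebra ℂ L] [Algebra ℂ K] [Algebra L K]
  [IsScalarTower ℂ L K] [FiniteDimensional L K] (n d m e : ℕ)
  (F G : MvPolynomial (Fin (n + 2)) ℂ), F.IsHomogeneous d → G.IsHomogeneous e →
  m + e + n + 2 = d → d < 2 * m + 4 → ∀ a b : Fin (n + 2) → L,
  LinearIndependent L ![a, b] → MvPolynomial.aeval b F ≠ 0 → ∀ τ : K,
  IntermediateField.adjoin L {τ} = ⊤ → m + 2 ≤ Module.finrank L K → ∀ x : Fin (n + 2) → K,
  (∀ j, x j = algebraMap L K (a j) + τ * algebraMap L K (b j)) → MvPolynomial.aeval x F = 0 →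
  MvPolynomial.aeval x G ≠ 0 →
  ∀ (E : Fin n → Derivation ℂ L L) (E' : Fin n → Derivation ℂ K K),
  (∀ i f, E' i (algebraMap L K f) = algebraMap L K (E i f)) → ∀ c : Fin (n + 2) → K,
  ∑ l, MvPolynomial.aeval x (MvPolynomial.pderiv l F) * c l = 1 → (rows c x E').det ≠ 0 →
  (∀ f : Fin m → Fin (n + 2), Algebra.trace L K ((∏ k, x (f k)) *
    (MvPolynomial.aeval x G * (rows c x E').det)) = 0) →
  ∃ h : L[X], restr F a b = minpoly L τ * h ∧ aeval τ h ≠ 0 ∧ h ∣ jac E a b * restr G a b ∧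
    aeval τ (jac E a b) ≠ 0

end Pool.Agent.Y184.NT
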