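import Pool.Agent.Y184.NT.Cong3
import Pool.Agent.Y184.NT.StD

/-!
The lines form a congruence of order one: arbitrary hypersurfaces with adjoint forms.
-/

set_option autoImplicit false
set_option linter.overlappingInstances false
set_option linter.unusedSectionVars false

open FF Polynomial Pool.Agent.W602.GT Pool.Agent.W603.LV

namespace Pool.Agent.Y184.NT

section

variable {L K : Type} [Field L] [Field K] [Algebra ℂ L] [Algebra ℂ K] [Algebra L K]
  [IsScalarTower ℂ L K] [FiniteDimensional L K] [hess : Algebra.EssFiniteType ℂ L]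
  [hessK : Algebra.EssFiniteType ℂ K] {n d q0 : ℕ}
  {F : MvPolynomial (Fin (n + 2)) ℂ} {a b : Fin (n + 2) → L} {τ : K} {x : Fin (n + 2) → K}

/-- **The places over the hypersurface.** -/
theorem aboveG (hTame : StTame) (hVert : StVertG) (hn : 1 ≤ n) (hL : Algebra.trdeg ℂ L = n)
    (hK : Algebra.trdeg ℂ K = n) {ω : (Fin n → Derivation ℂ K K) → K} (hω : IsPluri 1 ω)
    (hωr : ∀ P : Place ℂ K, Divisorial n P → RegAt P ω) (hω0 : ∃ D, ω D ≠ 0)
    (hh : F.IsHomogeneous d) {G : MvPolynomial (Fin (n + 2)) ℂ} (hGh : G.IsHomogeneous q0)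
    (hGx : MvPolynomial.aeval x G ≠ 0) (hab : LinearIndependent L ![a, b])
    (hFb : MvPolynomial.aeval b F ≠ 0) {g h : L[X]} {w0 : Place ℂ (RatFunc L)} (hw0 : IsW0 g w0)
    (hg : ∀ A : L[X], g ∣ A ↔ aeval τ A = 0) (hP : restr F a b = g * h) (hh0 : aeval τ h ≠ 0)
    {E : Fin n → Derivation ℂ L L} (hJ : h ∣ jac E a b * restr G a b) (hJ0 : aeval τ (jac E a b) ≠ 0)
    {z : Fin n → L} (hE : ∀ i j, E i (z j) = if i = j then 1 else 0)
    (ht : IsTranscendenceBasis ℂ (Fin.cons RatFunc.X fun i => algebraMap L (RatFunc L) (z i) :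
      Fin (n + 1) → RatFunc L))
    {δ : Fin (n + 1) → Derivation ℂ (RatFunc L) (RatFunc L)} (hd1 : δ 0 RatFunc.X = 1)
    (hd2 : ∀ l, δ 0 (algebraMap L (RatFunc L) l) = 0) (hd3 : ∀ i : Fin n, δ i.succ RatFunc.X = 0)
    (hd4 : ∀ (i : Fin n) l, δ i.succ (algebraMap L (RatFunc L) l) =
      algebraMap L (RatFunc L) (E i l))
    (hx : ∀ j, x j = algebraMap L K (a j) + τ * algebraMap L K (b j)) {j0 : Fin (n + 2)}
    (hj0 : x j0 ≠ 0) (hgen : IntermediateField.adjoin ℂ (Set.range fun j => x j / x j0) = ⊤) {s : Fin n → Fin (n + 2)}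
    (hsx : AlgebraicIndependent ℂ (fun i => x (s i) / x j0))
    {E0 : IntermediateField ℂ (RatFunc L)}
    (hu : ∀ j, io (lin a b j) / io (lin a b j0) ∈ E0) [FiniteDimensional E0 (RatFunc L)]
    [Algebra.EssFiniteType ℂ E0] [Algebra.EssFiniteType ℂ (RatFunc L)]
    (hE0 : Algebra.trdeg ℂ E0 = (n + 1 : ℕ)) {v : Place ℂ E0} {e0 : ℕ} (hv : Over w0 v e0) :
    e0 = 1 ∧ ∀ (w : Place ℂ (RatFunc L)) (e : ℕ), Over w v e → w = w0 := by
  classical
  have hyv : ∀ j, aeval τ (lin a b j) = x j := fun j => by rw [aeval_lin, hx]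
  have hy : ∀ j, Sp τ (io (lin a b j)) (x j) := fun j => by
    have := Sp.poly (τ := τ) (lin a b j)
    rwa [hyv] at this
  obtain ⟨hy0, hy0'⟩ := (hy j0).unit hw0 hg hj0
  obtain ⟨u, hudef⟩ : ∃ u : Fin (n + 2) → RatFunc L,
    u = fun j => io (lin a b j) / io (lin a b j0) := ⟨_, rfl⟩
  have hu0 : u j0 = 1 := by rw [hudef]; exact div_self hy0
  have hyu : (fun j => io (lin a b j)) = fun j => io (lin a b j0) * u j := by
    funext j
    rw [hudef]
    field_simp
  have hsp : ∀ j, Sp τ (u j) (x j / x j0) := fun j => by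
    rw [hudef]
    exact (hy j).div (hy j0) hj0
  -- the element `F (u)`
  have hFu0 : io (g * h) = io (lin a b j0) ^ d * MvPolynomial.aeval u F := by
    rw [← hP, io_restr, hyu, Pool.Agent.Y988.NT.aeval_smul_form hh]
  obtain ⟨hho, hho'⟩ := hw0.ord_of hg hh0
  have hgo : io g ≠ 0 := by
    intro h0
    have := hw0.one
    rw [h0, Place.ord_zero] at this
    exact zero_ne_one this
  have hFu1 : MvPolynomial.aeval u F ≠ 0 := by
    intro h0
    rw [h0, mul_zero, io, map_mul] at hFu0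
    rcases mul_eq_zero.1 hFu0 with h1 | h1
    · exact hgo h1
    · exact hho h1
  have hord : ∀ w : Place ℂ (RatFunc L), w.ord (io g) + w.ord (io h) =
      d * w.ord (io (lin a b j0)) + w.ord (MvPolynomial.aeval u F) := by
    intro w
    have h1 := congrArg w.ord hFu0
    rw [io, map_mul, ← io, ← io, w.ord_mul hgo hho, w.ord_mul (pow_ne_zero _ hy0) hFu1,
      w.ord_pow] at h1
    exact h1
  have hFu2 : w0.ord (MvPolynomial.aeval u F) = 1 := by
    have h1 := hord w0
    rw [hw0.one, hho', hy0'] at h1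
    omega
  -- the elements in `E0`
  obtain ⟨uE, huE⟩ : ∃ uE : Fin (n + 2) → E0, ∀ j, (uE j : RatFunc L) = u j :=
    ⟨fun j => ⟨u j, by rw [hudef]; exact hu j⟩, fun _ => rfl⟩
  have huE' : (algebraMap E0 (RatFunc L)) ∘ uE = u := funext huE
  have hev : ∀ G : MvPolynomial (Fin (n + 2)) ℂ,
      algebraMap E0 (RatFunc L) (MvPolynomial.aeval uE G) = MvPolynomial.aeval u G := by
    intro G
    rw [← MvPolynomial.aeval_algebraMap_apply, huE']
  have hvF : (e0 : ℤ) * v.ord (MvPolynomial.aeval uE F) = 1 := by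
    rw [← hv.2, hev, hFu2]
  have he0 : e0 = 1 := by
    have h1 : (e0 : ℤ) ∣ 1 := ⟨_, hvF.symm⟩
    have h2 : e0 ∣ 1 := by exact_mod_cast h1
    exact Nat.dvd_one.1 h2
  subst he0
  have hvF1 : v.ord (MvPolynomial.aeval uE F) = 1 := by simpa using hvF
  refine ⟨rfl, fun w e hw => ?_⟩
  -- orders of polynomials in `u`
  have hG : ∀ G : MvPolynomial (Fin n) ℂ, G ≠ 0 →
      MvPolynomial.aeval (fun i => u (s i)) G ≠ 0 ∧
        w0.ord (MvPolynomial.aeval (fun i => u (s i)) G) = 0 := by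
    intro G hG
    refine (Sp.mv (τ := τ) (u := fun i => u (s i)) (x := fun i => x (s i) / x j0)
      (fun i => hsp (s i)) G).unit hw0 hg ?_
    intro h0
    exact hG ((injective_iff_map_eq_zero _).1 hsx G h0)
  have hGE : ∀ G : MvPolynomial (Fin n) ℂ,
      algebraMap E0 (RatFunc L) (MvPolynomial.aeval (fun i => uE (s i)) G) =
        MvPolynomial.aeval (fun i => u (s i)) G := by
    intro G
    rw [← MvPolynomial.aeval_algebraMap_apply]
    congr 2
    funext i
    exact huE (s i)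
  have hGv : ∀ G : MvPolynomial (Fin n) ℂ, G ≠ 0 →
      MvPolynomial.aeval (fun i => uE (s i)) G ≠ 0 ∧
        v.ord (MvPolynomial.aeval (fun i => uE (s i)) G) = 0 := by
    intro G hG0
    obtain ⟨h1, h2⟩ := hG G hG0
    refine ⟨fun h0 => h1 (by rw [← hGE, h0, map_zero]), ?_⟩
    rw [← hGE, hv.2] at h2
    simpa using h2
  have hureg : ∀ j, w.Reg (u j) := by
    intro j
    rw [← huE]
    refine hw.reg.2 (hv.reg.1 ?_)
    change w0.Reg (uE j : RatFunc L)
    rw [huE]
    exact (hsp j).reg hw0 hg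
  have hwF : w.ord (MvPolynomial.aeval u F) = e := by
    rw [← hev, hw.2, hvF1, mul_one]
  have he1 : (1 : ℤ) ≤ e := by exact_mod_cast hw.1
  have hα : ∀ j, u j = (io (lin a b j0))⁻¹ * (algebraMap L (RatFunc L) (a j) +
      RatFunc.X * algebraMap L (RatFunc L) (b j)) := by
    intro j
    rw [← io_lin, hudef]
    exact div_eq_inv_mul _ _
  -- the place is trivial on `L`
  have htriv : ∀ l : L, l ≠ 0 → w.ord (algebraMap L (RatFunc L) l) = 0 := by
    refine hVert L K (RatFunc L) n (n + 2) hn hL hK ω hω hωr hω0 (fun j => x j / x j0) hgen w a b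
      hab u hureg j0 hu0 ((io (lin a b j0))⁻¹) ((io (lin a b j0))⁻¹ * RatFunc.X) (fun j => ?_)
      (fun H hH => ?_) (fun H hH => ?_)
    · rw [hα]
      ring
    · have h1 := Sp.mv (τ := τ) hsp H
      rw [hH] at h1
      have h2 : Ge w0 1 (MvPolynomial.aeval u H) := h1.ge_one hw0 hg
      rw [← hev] at h2 ⊢
      rcases h2 with h2 | h2
      · exact Or.inl h2
      · right
        rw [hv.2] at h2
        rw [hw.2]
        have h3 : (1 : ℤ) ≤ v.ord (MvPolynomial.aeval uE H) := by simpa using h2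
        nlinarith
    · obtain ⟨h1, h2⟩ := (Sp.mv (τ := τ) hsp H).unit hw0 hg hH
      refine ⟨h1, ?_⟩
      rw [← hev, hv.2] at h2
      rw [← hev, hw.2]
      have h3 : v.ord (MvPolynomial.aeval uE H) = 0 := by simpa using h2
      rw [h3, mul_zero]
  have hXr : w.Reg (RatFunc.X : RatFunc L) :=
    X_reg htriv hh hFb hα hu0 (Or.inr (by rw [hwF]; exact he1))
  have hpol : ∀ A : L[X], w.Reg (io A) := fun A => by
    rw [io_aeval]
    exact reg_aevalL htriv hXr A
  have hyw : w.ord (io (lin a b j0)) = 0 := by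
    have h1 := (hpol (lin a b j0)).resolve_left hy0
    by_contra hne
    have h2 : Ge w 1 (io (lin a b j0)) := Or.inr (by omega)
    have h3 : ∀ j, Ge w 1 (io (lin a b j)) := by
      intro j
      have h4 : io (lin a b j) = io (lin a b j0) * u j := congrFun hyu j
      rw [h4]
      simpa using h2.mul (show Ge w 0 (u j) from hureg j)
    obtain ⟨i, j, hij⟩ := exists_minor hab
    have h4 : algebraMap L (RatFunc L) (b j) * io (lin a b i) -
        algebraMap L (RatFunc L) (b i) * io (lin a b j) =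
        algebraMap L (RatFunc L) (a i * b j - a j * b i) := by
      rw [io_lin, io_lin, map_sub, map_mul, map_mul]
      ring
    have hLr : ∀ l : L, Ge w 0 (algebraMap L (RatFunc L) l) := by
      intro l
      rw [← io_C]
      exact hpol _
    have h5 : Ge w 1 (algebraMap L (RatFunc L) (a i * b j - a j * b i)) := by
      rw [← h4]
      refine Ge.sub ?_ ?_
      · simpa using (hLr (b j)).mul (h3 i)
      · simpa using (hLr (b i)).mul (h3 j)
    rcases h5 with h5 | h5
    · rw [map_eq_zero] at h5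
      exact hij h5
    · rw [htriv _ hij] at h5
      omega
  have hsum := hord w
  rw [hyw, hwF, mul_zero, zero_add] at hsum
  have hgr := (hpol g).resolve_left hgo
  by_cases hg1 : 1 ≤ w.ord (io g)
  · exact hw0.uniq w htriv hg1
  exfalso
  have hg0 : w.ord (io g) = 0 := by omega
  rw [hg0, zero_add] at hsum
  -- the Jacobian
  have hjac0 : io (jac E a b) ≠ 0 ∧ w0.ord (io (jac E a b)) = 0 := hw0.ord_of hg hJ0
  have hGu0 : io (restr G a b) = io (lin a b j0) ^ q0 * MvPolynomial.aeval u G := by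
    rw [io_restr, hyu, Pool.Agent.Y988.NT.aeval_smul_form hGh]
  have hGu : MvPolynomial.aeval u G ≠ 0 ∧ w.ord (MvPolynomial.aeval u G) = 0 := by
    have hGx' : MvPolynomial.aeval (fun j => x j / x j0) G ≠ 0 := by
      intro h0
      apply hGx
      have h1 : x = fun j => x j0 * (x j / x j0) := by
        funext j
        field_simp
      rw [h1, Pool.Agent.Y988.NT.aeval_smul_form hGh, h0, mul_zero]
    obtain ⟨h1, h2⟩ := (Sp.mv (τ := τ) hsp G).unit hw0 hg hGx'
    refine ⟨h1, ?_⟩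
    rw [← hev, hv.2] at h2
    rw [← hev, hw.2]
    have h3 : v.ord (MvPolynomial.aeval uE G) = 0 := by simpa using h2
    rw [h3, mul_zero]
  have hGr : io (restr G a b) ≠ 0 ∧ w.ord (io (restr G a b)) = 0 := by
    rw [hGu0]
    refine ⟨mul_ne_zero (pow_ne_zero _ hy0) hGu.1, ?_⟩
    rw [w.ord_mul (pow_ne_zero _ hy0) hGu.1, w.ord_pow, hyw, hGu.2]
    ring
  obtain ⟨q, hq⟩ := hJ
  have hjw : (e : ℤ) ≤ w.ord (io (jac E a b)) := by
    have h1 : io (jac E a b) * io (restr G a b) = io h * io q := by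
      rw [io, ← map_mul, hq, map_mul]
    have h2 : Ge w e (io h) := Or.inr (by omega)
    have h3 := h2.mul (show Ge w 0 (io q) from hpol q)
    rw [← h1, add_zero] at h3
    have h4 := h3.resolve_left (mul_ne_zero hjac0.1 hGr.1)
    rw [w.ord_mul hjac0.1 hGr.1, hGr.2, add_zero] at h4
    exact h4
  have hdet : io (jac E a b) = io (lin a b j0) ^ (n + 2) * (jm δ u).det := by
    rw [← jm_lin hd1 hd2 hd3 hd4, hyu, jm_scale δ u hy0]
  have hJu : (jm δ u).det ≠ 0 := by
    intro h0
    rw [h0, mul_zero] at hdet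
    exact hjac0.1 hdet
  have hordJ : ∀ w' : Place ℂ (RatFunc L), w'.ord (io (lin a b j0)) = 0 →
      w'.ord (jm δ u).det = w'.ord (io (jac E a b)) := by
    intro w' h1
    rw [hdet, w'.ord_mul (pow_ne_zero _ hy0) hJu, w'.ord_pow, h1]
    ring
  have htame := hTame E0 (RatFunc L) (n + 1) hE0 _ ht δ (dual_t hE hd1 hd2 hd3 hd4) v w w0 e
    ⟨fun i : Fin n => uE (s i), hGv⟩ hw hv (by
      intro j
      refine Fin.cases ?_ (fun j => ?_) j
      · rw [Fin.cons_zero]
        exact hXr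
      · rw [Fin.cons_succ, ← io_C]
        exact hpol _)
    (fun i => hw0.derReg (der_polys hd1 hd2 hd3 hd4 i)) uE (jm δ u).det (by
      rw [jm]
      congr 2
      have h1 : (fun j => algebraMap E0 (RatFunc L) (uE j)) = u := huE'
      rw [h1]
      congr 1
      funext i j
      rw [show algebraMap E0 (RatFunc L) (uE j) = u j from huE j]) hJu
  rw [hordJ w hyw, hordJ w0 hy0', hjac0.2, mul_zero, zero_add] at htame
  omega

/-- **The lines form a congruence of order one.** -/
theorem congG (hW0 : StW0) (hTame : StTame) (hFin : StFin) (hDer : StDer) (hVert : StVertG)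
    (hn : 1 ≤ n) (hL : Algebra.trdeg ℂ L = n)
    (hK : Algebra.trdeg ℂ K = n) {ω : (Fin n → Derivation ℂ K K) → K} (hω : IsPluri 1 ω)
    (hωr : ∀ P : Place ℂ K, Divisorial n P → RegAt P ω) (hω0 : ∃ D, ω D ≠ 0)
    (hh : F.IsHomogeneous d) {G : MvPolynomial (Fin (n + 2)) ℂ} (hGh : G.IsHomogeneous q0)
    (hGx : MvPolynomial.aeval x G ≠ 0) (hab : LinearIndependent L ![a, b])
    (hFb : MvPolynomial.aeval b F ≠ 0) (hx : ∀ j, x j = algebraMap L K (a j) +
      τ * algebraMap L K (b j)) {h : L[X]} (hP : restr F a b = minpoly L τ * h)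
    (hh0 : aeval τ h ≠ 0) {z : Fin n → L} (hz : IsTranscendenceBasis ℂ z)
    {E : Fin n → Derivation ℂ L L} (hE : ∀ i j, E i (z j) = if i = j then 1 else 0)
    (hJ : h ∣ jac E a b * restr G a b) (hJ0 : aeval τ (jac E a b) ≠ 0) {j0 : Fin (n + 2)} (hj0 : x j0 ≠ 0)
    (hgen : IntermediateField.adjoin ℂ (Set.range fun j => x j / x j0) = ⊤)
    {s : Fin n → Fin (n + 2)} (hsx : AlgebraicIndependent ℂ (fun i => x (s i) / x j0)) :
    IntermediateField.adjoin ℂ (Set.range fun p : Fin (n + 2) × Fin (n + 2) =>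
      algebraMap L[X] (RatFunc L) (lin a b p.1) / algebraMap L[X] (RatFunc L) (lin a b p.2)) =
      ⊤ := by
  classical
  have hint : IsIntegral L τ := Algebra.IsIntegral.isIntegral τ
  obtain ⟨w0, hw0⟩ := exists_w0 hW0 (minpoly.irreducible hint)
  have hg : ∀ A : L[X], minpoly L τ ∣ A ↔ aeval τ A = 0 := fun A => minpoly.dvd_iff
  have hyv : ∀ j, aeval τ (lin a b j) = x j := fun j => by rw [aeval_lin, hx]
  have hy : ∀ j, Sp τ (io (lin a b j)) (x j) := fun j => by
    have := Sp.poly (τ := τ) (lin a b j)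
    rwa [hyv] at this
  obtain ⟨hy0, hy0'⟩ := (hy j0).unit hw0 hg hj0
  have hsp : ∀ j, Sp τ (io (lin a b j) / io (lin a b j0)) (x j / x j0) := fun j =>
    (hy j).div (hy j0) hj0
  obtain ⟨ht, δ, hd1, hd2, hd3, hd4⟩ := hDer L n z hz E hE
  obtain ⟨E0, hE0⟩ : ∃ E0 : IntermediateField ℂ (RatFunc L), E0 = IntermediateField.adjoin ℂ
    (Set.range fun j => io (lin a b j) / io (lin a b j0)) := ⟨_, rfl⟩
  have huE : ∀ j, io (lin a b j) / io (lin a b j0) ∈ E0 := by
    intro j
    rw [hE0]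
    exact IntermediateField.subset_adjoin _ _ ⟨j, rfl⟩
  -- the Jacobian determinant
  obtain ⟨hjac0, -⟩ := hw0.ord_of hg hJ0
  have hyu : (fun j => io (lin a b j)) =
      fun j => io (lin a b j0) * (io (lin a b j) / io (lin a b j0)) := by
    funext j
    field_simp
  have hJu : (jm δ fun j => io (lin a b j) / io (lin a b j0)).det ≠ 0 := by
    intro h0
    rw [← jm_lin hd1 hd2 hd3 hd4, hyu, jm_scale δ _ hy0, h0, mul_zero] at hjac0
    exact hjac0 rfl
  have hessR : Algebra.EssFiniteType ℂ (RatFunc L) := ess_ratFunc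
  have hfin : FiniteDimensional E0 (RatFunc L) := hFin (RatFunc L) E0 fun D hD =>
    der_zero ht (dual_t hE hd1 hd2 hd3 hd4) hJu fun j => hD _ (huE j)
  have hessE : Algebra.EssFiniteType ℂ E0 := Pool.Agent.TH466.QG.ess_below (K := RatFunc L)
  have htrR : Algebra.trdeg ℂ (RatFunc L) = (n + 1 : ℕ) := by
    rw [← ht.cardinalMk_eq_trdeg]
    simp
  have htr : Algebra.trdeg ℂ E0 = (n + 1 : ℕ) := by
    have h1 := trdeg_add_eq ℂ E0 (A := RatFunc L)
    have h2 : Algebra.trdeg E0 (RatFunc L) = 0 := by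
      rw [trdeg_eq_zero_iff]
      infer_instance
    rw [h2, add_zero, htrR] at h1
    exact h1
  obtain ⟨v, e0, hv⟩ := Pool.Agent.Y172.exists_below (k := ℂ) (K := E0) w0
  obtain ⟨he0, hab'⟩ := aboveG hTame hVert hn hL hK hω hωr hω0 hh hGh hGx hab hFb hw0 hg hP hh0
    hJ hJ0 hE ht hd1 hd2 hd3 hd4 hx hj0 hgen hsx huE htr hv
  subst he0
  obtain ⟨S, T, hS, hT, hsum⟩ := exists_places_over (K' := RatFunc L) v
  have hw0S : w0 ∈ S := hS w0 1 hv
  have hS1 : S = {w0} := by
    ext w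
    rw [Finset.mem_singleton]
    constructor
    · intro hw
      obtain ⟨e, hov, -⟩ := hT w hw
      exact hab' w e hov
    · rintro rfl
      exact hw0S
  rw [hS1, Finset.sum_singleton] at hsum
  obtain ⟨e, hov, hTe, -⟩ := hT w0 hw0S
  have he : e = 1 := (Pool.Agent.Y172.over_unique' hov hv).2
  subst he
  have hrk : @Module.finrank v.RF w0.RF _ _ hov.resMap.toRingHom.toAlgebra.toModule = 1 := by
    let _ : Algebra v.RF w0.RF := hov.resMap.toRingHom.toAlgebra
    refine finrank_eq_one (R := v.RF) (M := w0.RF) (1 : w0.RF) one_ne_zero fun ρ => ?_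
    obtain ⟨⟨f, hf⟩, rfl⟩ := w0.resHom_surjective ρ
    obtain ⟨f', hf', hff⟩ := res_onto hw0 hg hsp hgen huE hf
    have hf'v : v.Reg f' := hv.reg.1 hf'
    refine ⟨v.red f', ?_⟩
    rw [Algebra.smul_def, mul_one]
    change hov.resMap (v.red f') = _
    rw [hov.resMap_red hf'v]
    have h1 : w0.red (algebraMap E0 (RatFunc L) f') = w0.red f := by
      have h2 : w0.red (f - (f' : RatFunc L)) = 0 := by
        rw [w0.red_eq_zero_iff (hff.mono (by norm_num))]
        exact hff
      rw [w0.red_sub hf hf', sub_eq_zero] at h2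
      exact h2.symm
    rw [h1, w0.red_of_reg hf]
  rw [hrk, mul_one] at hTe
  rw [hTe] at hsum
  have htop : E0 = ⊤ := IntermediateField.finrank_eq_one_iff_eq_top.1 hsum.symm
  rw [eq_top_iff, ← htop, hE0]
  refine IntermediateField.adjoin.mono _ _ _ ?_
  rintro _ ⟨j, rfl⟩
  exact ⟨(j, j0), rfl⟩

end

end Pool.Agent.Y184.NT
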