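import Pool.Agent.Y184.NT.StD
import Pool.Agent.Y692.NT.Jac

/-!
# Project NT: the residual points are foci or zeros of the adjoint form (job NT-JacG)

A copy of `Pool/Agent/Y692/NT/Jac.lean` with an adjoint form `G`.
-/

set_option autoImplicit false
set_option linter.unusedSectionVars false

open Polynomial Module

namespace Pool.Agent.Y184.NT

open Pool.Agent.Y692.NT

/-- the residual points are foci or zeros of the adjoint form -/
def StJacG2 : Prop := ∀ (L K : Type) [Field L] [Field K] [Algebra ℂ L] [Algebra ℂ K] [Algebra L K]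
  [IsScalarTower ℂ L K] [FiniteDimensional L K] (n d m e : ℕ)
  (F G : MvPolynomial (Fin (n + 2)) ℂ), F.IsHomogeneous d → G.IsHomogeneous e →
  m + e + n + 2 = d → d ≤ Module.finrank L K + m + 1 → ∀ a b : Fin (n + 2) → L,
  LinearIndependent L ![a, b] → MvPolynomial.aeval b F ≠ 0 → ∀ τ : K,
  IntermediateField.adjoin L {τ} = ⊤ → m + 2 ≤ Module.finrank L K → ∀ x : Fin (n + 2) → K,
  (∀ j, x j = algebraMap L K (a j) + τ * algebraMap L K (b j)) → MvPolynomial.aeval x F = 0 →
  MvPolynomial.aeval x G ≠ 0 →
  ∀ (E : Fin n → Derivation ℂ L L) (E' : Fin n → Derivation ℂ K K),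
  (∀ i f, E' i (algebraMap L K f) = algebraMap L K (E i f)) → ∀ c : Fin (n + 2) → K,
  ∑ l, MvPolynomial.aeval x (MvPolynomial.pderiv l F) * c l = 1 → (rows c x E').det ≠ 0 →
  (∀ f : Fin m → Fin (n + 2), Algebra.trace L K ((∏ k, x (f k)) *
    (MvPolynomial.aeval x G * (rows c x E').det)) = 0) →
  ∃ h : L[X], restr F a b = minpoly L τ * h ∧ aeval τ h ≠ 0 ∧ h ∣ jac E a b * restr G a b ∧
    aeval τ (jac E a b) ≠ 0

theorem t_JacG2 : StJacG2 := by
  intro L K _ _ _ _ _ _ _ n d m e F G hF hG hmd hnd a b hab hFb τ hτ hr x hx hFx hGx E E' hE' c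
    hc hdet htr
  classical
  have : CharZero L := charZero_of_injective_algebraMap (algebraMap ℂ L).injective
  have : CharZero K := charZero_of_injective_algebraMap (algebraMap ℂ K).injective
  set r := finrank L K with hrdef
  have hint : IsIntegral L τ := Algebra.IsIntegral.isIntegral τ
  have hτ' : Algebra.adjoin L {τ} = ⊤ := by
    rw [← IntermediateField.adjoin_simple_toSubalgebra_of_isAlgebraic hint.isAlgebraic, hτ]
    rfl
  set g₀ := minpoly L τ with hg₀
  have hg₀deg : g₀.natDegree = r := by
    have h2 := (PowerBasis.ofAdjoinEqTop hint hτ').finrank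
    have h3 : (PowerBasis.ofAdjoinEqTop hint hτ').dim = (minpoly L τ).natDegree := rfl
    rw [hrdef, h2, h3]
  have hg₀0 : g₀ ≠ 0 := minpoly.ne_zero hint
  -- the restriction
  set P := restr F a b with hP
  have hPτ : aeval τ P = 0 := by
    rw [hP]
    unfold restr
    rw [aeval_lin hx, hFx]
  obtain ⟨hPd, hPc⟩ := restr_coeff hF a b
  have hP0 : P ≠ 0 := by
    intro h0
    rw [← hPc, ← hP, h0, coeff_zero] at hFb
    exact hFb rfl
  have hPdeg : P.natDegree = d := by
    refine le_antisymm hPd (le_natDegree_of_ne_zero ?_)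
    rw [hP, hPc]
    exact hFb
  obtain ⟨h, hh⟩ := minpoly.dvd L τ hPτ
  have hh0 : h ≠ 0 := by
    rintro rfl
    rw [mul_zero] at hh
    exact hP0 hh
  have hhdeg : r + h.natDegree = d := by
    rw [← hPdeg, hh, natDegree_mul hg₀0 hh0, hg₀deg]
  have hhτ : aeval τ h ≠ 0 := by
    intro h0
    have h1 := natDegree_le_of_dvd (minpoly.dvd L τ h0) hh0
    rw [← hg₀, hg₀deg] at h1
    omega
  have hg₀' : aeval τ (derivative g₀) ≠ 0 :=
    (minpoly.irreducible hint).separable.aeval_derivative_ne_zero (minpoly.aeval L τ)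
  have hP' : aeval τ (derivative P) = aeval τ (derivative g₀) * aeval τ h := by
    rw [hh, derivative_mul, map_add, map_mul, map_mul, minpoly.aeval, zero_mul, add_zero]
  have hP'0 : aeval τ (derivative P) ≠ 0 := by
    rw [hP']
    exact mul_ne_zero hg₀' hhτ
  -- the adjoint form
  set Q := restr G a b with hQ
  have hQτ : aeval τ Q = MvPolynomial.aeval x G := by
    rw [hQ]
    unfold restr
    rw [aeval_lin hx]
  have hQτ0 : aeval τ Q ≠ 0 := by
    rw [hQτ]
    exact hGx
  have hQdeg : Q.natDegree ≤ e := (restr_coeff hG a b).1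
  -- the gradient
  set g : Fin (n + 2) → K := fun l => MvPolynomial.aeval x (MvPolynomial.pderiv l F) with hg
  have hg0 : g ≠ 0 := by
    intro h0
    have h1 : ∑ l, g l * c l = 1 := hc
    rw [h0] at h1
    simp at h1
  have hchain : ∑ l, g l * algebraMap L K (b l) = aeval τ (derivative P) := by
    have h1 := der_mv ((Polynomial.derivative' (R := L)).restrictScalars ℂ) (lin a b) F
    have h2 : ((Polynomial.derivative' (R := L)).restrictScalars ℂ) (MvPolynomial.aeval (lin a b) F) =
        derivative P := rfl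
    rw [h2] at h1
    rw [h1, map_sum]
    refine Finset.sum_congr rfl fun l _ => ?_
    rw [map_mul, aeval_lin hx]
    congr 1
    have h3 : ((Polynomial.derivative' (R := L)).restrictScalars ℂ) (lin a b l) =
        derivative (lin a b l) := rfl
    rw [h3]
    unfold lin
    rw [derivative_add, derivative_C, zero_add, derivative_mul, derivative_X, derivative_C, one_mul,
      mul_zero, add_zero, aeval_C]
  have hgx : ∑ l, g l * x l = 0 := by
    have := euler_mv hF x
    rw [hFx, mul_zero] at this
    exact this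
  have hgD : ∀ i, ∑ l, g l * E' i (x l) = 0 := by
    intro i
    have := der_mv (E' i) x F
    rw [hFx, map_zero] at this
    exact this.symm
  -- the first row can be replaced
  set P' := aeval τ (derivative P) with hP'def
  set bK : Fin (n + 2) → K := fun l => algebraMap L K (b l) with hbK
  have hrows : (rows c x E').det = (mat3 (P'⁻¹ • bK) x fun i j => E' i (x j)).det := by
    have h1 : (mat3 (c - P'⁻¹ • bK) x fun i j => E' i (x j)).det = 0 := by
      refine det_zero g _ _ _ hg0 ?_ hgx hgD
      have h2 : ∑ l, g l * (c - P'⁻¹ • bK) l = ∑ l, g l * c l - P'⁻¹ * ∑ l, g l * bK l := by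
        rw [Finset.mul_sum, ← Finset.sum_sub_distrib]
        refine Finset.sum_congr rfl fun l _ => ?_
        rw [Pi.sub_apply, Pi.smul_apply, smul_eq_mul]
        ring
      rw [h2]
      have h3 : ∑ l, g l * c l = 1 := hc
      rw [h3, hbK]
      simp only
      rw [hchain, inv_mul_cancel₀ hP'0, sub_self]
    rw [mat3_sub, sub_eq_zero] at h1
    exact h1
  -- the Jacobian
  set J := jac E a b with hJ
  have hJτ : aeval τ J = (mat3 x bK fun i j => algebraMap L K (E i (a j)) +
      τ * algebraMap L K (E i (b j))).det := by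
    rw [hJ]
    have h1 : jac E a b = (mat3 (lin a b) (fun j => C (b j))
      (fun i => lin (fun j => E i (a j)) (fun j => E i (b j)))).det := rfl
    rw [h1]
    have h2 := AlgHom.map_det (aeval τ : L[X] →ₐ[L] K) (mat3 (lin a b) (fun j => C (b j))
      (fun i => lin (fun j => E i (a j)) (fun j => E i (b j))))
    rw [h2]
    congr 1
    ext i j
    rw [AlgHom.mapMatrix_apply, Matrix.map_apply]
    have hl : ∀ u v : Fin (n + 2) → L, aeval τ (lin u v j) =
        algebraMap L K (u j) + τ * algebraMap L K (v j) := by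
      intro u v
      unfold lin
      rw [map_add, map_mul, aeval_C, aeval_X, aeval_C]
    refine Fin.cases ?_ (fun i => ?_) i
    · rw [mat3_zero, mat3_zero, hl, hx]
    · refine Fin.cases ?_ (fun i => ?_) i
      · rw [mat3_one, mat3_one, aeval_C]
      · rw [mat3_ss, mat3_ss, hl]
  have hdetJ : (rows c x E').det = -(aeval τ J / (aeval τ (derivative g₀) * aeval τ h)) := by
    rw [hrows, mat3_smul, hJτ]
    have h1 : (fun i j => E' i (x j)) = fun (i : Fin n) (j : Fin (n + 2)) =>
        (algebraMap L K (E i (a j)) + τ * algebraMap L K (E i (b j))) + E' i τ * bK j := by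
      funext i j
      rw [hx, map_add, Derivation.leibniz, hE', hE', smul_eq_mul, smul_eq_mul]
      ring
    rw [h1, mat3_add, mat3_swap, ← hP']
    field_simp
  have hJτ0 : aeval τ J ≠ 0 := by
    intro h0
    rw [hdetJ, h0, zero_div, neg_zero] at hdet
    exact hdet rfl
  -- the traces
  set h₀ := MvPolynomial.aeval x G * (rows c x E').det with hh₀
  have htrw : ∀ w : Fin m → Fin (n + 2) → L,
      Algebra.trace L K ((∏ k, ∑ j, algebraMap L K (w k j) * x j) * h₀) = 0 := by
    intro w
    rw [Finset.prod_univ_sum, Finset.sum_mul, map_sum]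
    refine Finset.sum_eq_zero fun f _ => ?_
    rw [Finset.prod_mul_distrib, ← map_prod, mul_assoc, ← Algebra.smul_def, map_smul, htr f,
      smul_zero]
  obtain ⟨⟨w', hw'a, hw'b⟩, ⟨w'', hw''a, hw''b⟩⟩ := exists_dual hab
  have hlin : ∀ w : Fin (n + 2) → L, ∑ j, algebraMap L K (w j) * x j =
      algebraMap L K (∑ j, w j * a j) + τ * algebraMap L K (∑ j, w j * b j) := by
    intro w
    rw [map_sum, map_sum, Finset.mul_sum, ← Finset.sum_add_distrib]
    refine Finset.sum_congr rfl fun j _ => ?_
    rw [hx, map_mul, map_mul]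
    ring
  have htrτ : ∀ i ≤ m, Algebra.trace L K (τ ^ i * h₀) = 0 := by
    intro i hi
    have h1 := htrw fun k => if (k : ℕ) < i then w'' else w'
    have h2 : ∏ k : Fin m, ∑ j, algebraMap L K ((if (k : ℕ) < i then w'' else w') j) * x j =
        τ ^ i := by
      have h3 : ∀ k : Fin m, ∑ j, algebraMap L K ((if (k : ℕ) < i then w'' else w') j) * x j =
          if (k : ℕ) < i then τ else 1 := by
        intro k
        split_ifs
        · rw [hlin, hw''a, hw''b, map_zero, map_one, zero_add, mul_one]
        · rw [hlin, hw'a, hw'b, map_zero, map_one, mul_zero, add_zero]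
      rw [Finset.prod_congr rfl fun k _ => h3 k, Finset.prod_ite, Finset.prod_const_one, mul_one,
        Finset.prod_const]
      congr 1
      have h4 : (Finset.univ.filter fun k : Fin m => (k : ℕ) < i).card = i := by
        rw [Fin.card_filter_val_lt]
        omega
      exact h4
    rw [h2] at h1
    exact h1
  -- the polynomial `U`
  obtain ⟨U, hUdeg, hU⟩ : ∃ U : L[X], U.natDegree < r ∧
      aeval τ U = aeval τ J * aeval τ Q / aeval τ h := by
    have h1 : aeval τ J * aeval τ Q / aeval τ h ∈ Algebra.adjoin L {τ} := by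
      rw [hτ']
      exact Algebra.mem_top
    obtain ⟨V, hV⟩ := Algebra.adjoin_singleton_eq_range_aeval L τ ▸ h1
    refine ⟨V %ₘ g₀, ?_, ?_⟩
    · rw [← hg₀deg]
      refine natDegree_modByMonic_lt _ (minpoly.monic hint) ?_
      intro h2
      have h3 := congrArg natDegree h2
      rw [hg₀deg, natDegree_one] at h3
      omega
    · rw [← hV]
      have h2 := modByMonic_add_div V g₀
      have h3 := congrArg (aeval τ) h2
      rw [map_add, map_mul, minpoly.aeval, zero_mul, add_zero] at h3
      exact h3
  have hU0 : U ≠ 0 := by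
    rintro rfl
    rw [map_zero] at hU
    exact div_ne_zero (mul_ne_zero hJτ0 hQτ0) hhτ hU.symm
  have hdrop := degree_drop hτ' (m := m) hUdeg hU0 (fun i hi => by
    have h1 := htrτ i hi
    rw [hh₀, hdetJ, ← hQτ] at h1
    have h2 : τ ^ i * (aeval τ Q * -(aeval τ J / (aeval τ (derivative g₀) * aeval τ h))) =
        -(τ ^ i * (aeval τ U / aeval τ (derivative (minpoly L τ)))) := by
      rw [hU, ← hg₀]
      field_simp
    rw [h2, map_neg, neg_eq_zero] at h1
    exact h1)
  -- conclusion
  have hJdeg : J.natDegree ≤ n := natDegree_jac E a b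
  have hdiv : g₀ ∣ J * Q - U * h := by
    refine minpoly.dvd L τ ?_
    rw [map_sub, map_mul, map_mul, hU, div_mul_cancel₀ _ hhτ, sub_self]
  have hzero : J * Q - U * h = 0 := by
    by_contra hne
    have h1 := natDegree_le_of_dvd hdiv hne
    rw [hg₀deg] at h1
    have h2 : (J * Q - U * h).natDegree ≤ n + e := by
      refine (natDegree_sub_le _ _).trans (max_le ?_ ?_)
      · refine natDegree_mul_le.trans ?_
        omega
      · rw [natDegree_mul hU0 hh0]
        omega
    omega
  refine ⟨h, hh, hhτ, ⟨U, ?_⟩, hJτ0⟩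
  rw [sub_eq_zero] at hzero
  rw [hzero, mul_comm]

end Pool.Agent.Y184.NT
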