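import Pool.Agent.Y184.NT.StD

/-!
Varieties dominated by a variety with positive canonical bundle: further statements of the parts of
the proof.
-/

set_option autoImplicit false

open FF Polynomial Pool.Agent.W602.GT

namespace Pool.Agent.Y184.NT

/-- the forms which vanish on an irreducible hypersurface are multiples of its equation -/
def StIrr : Prop := ∀ (K : Type) [Field K] [Algebra ℂ K] (n d m : ℕ)
  (F G : MvPolynomial (Fin (n + 2)) ℂ), Algebra.trdeg ℂ K = n → Irreducible F →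
  F.IsHomogeneous d → G.IsHomogeneous m → ∀ (x : Fin (n + 2) → K) (j0 : Fin (n + 2)), x j0 ≠ 0 →
  IntermediateField.adjoin ℂ (Set.range fun j => x j / x j0) = ⊤ →
  MvPolynomial.aeval x F = 0 → MvPolynomial.aeval x G = 0 → F ∣ G

/-- the restriction of the equation of an irreducible hypersurface to the lines is not zero -/
def StNLF : Prop := ∀ (L K : Type) [Field L] [Field K] [Algebra ℂ L] [Algebra ℂ K]
  [Algebra.EssFiniteType ℂ K] [Algebra L K] [IsScalarTower ℂ L K] (n l d : ℕ),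
  Algebra.trdeg ℂ K = n → ∀ z : Fin l → L, IsTranscendenceBasis ℂ z →
  ∀ ω : (Fin n → Derivation ℂ K K) → K, IsPluri 1 ω →
  (∀ P : Place ℂ K, Divisorial n P → RegAt P ω) → (∃ D, ω D ≠ 0) →
  ∀ F : MvPolynomial (Fin (n + 2)) ℂ, Irreducible F → F.IsHomogeneous d →
  ∀ (x : Fin (n + 2) → K) (j0 : Fin (n + 2)), x j0 = 1 →
  IntermediateField.adjoin ℂ (Set.range x) = ⊤ → MvPolynomial.aeval x F = 0 →
  ∀ (a b : Fin (n + 2) → L) (τ : K), LinearIndependent L ![a, b] →
  (∀ j, x j = algebraMap L K (a j) + τ * algebraMap L K (b j)) → restr F a b ≠ 0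

/-- the lines through the points of a correspondence are not contained in the variety -/
def StNLy : Prop := ∀ (L K M : Type) [Field L] [Field K] [Field M] [Algebra ℂ L] [Algebra ℂ K]
  [Algebra ℂ M] [Algebra.EssFiniteType ℂ M] [Algebra L K] [Algebra M K] [IsScalarTower ℂ L K]
  [IsScalarTower ℂ M K] (n N l : ℕ), Algebra.trdeg ℂ M = n →
  ∀ z : Fin l → L, IsTranscendenceBasis ℂ z →
  ∀ ω : (Fin n → Derivation ℂ M M) → M, IsPluri 1 ω →
  (∀ P : Place ℂ M, Divisorial n P → RegAt P ω) → (∃ D, ω D ≠ 0) →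
  ∀ x : Fin N → M, IntermediateField.adjoin ℂ (Set.range x) = ⊤ → ∀ (a b : Fin N → L) (τ : K),
  b ≠ 0 → (∀ j, algebraMap M K (x j) = algebraMap L K (a j) + τ * algebraMap L K (b j)) →
  ∃ F : MvPolynomial (Fin N) ℂ, MvPolynomial.aeval x F = 0 ∧ restr F a b ≠ 0

end Pool.Agent.Y184.NT
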