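import Pool.Agent.Y184.NT.StB

/-!
Varieties dominated by a hypersurface, general type: the statements of the parts of the proof.
-/

set_option autoImplicit false

open FF Polynomial Pool.Agent.W602.GT

namespace Pool.Agent.Y184.NT

/-- Cayley–Bacharach for double points: points with tangent vectors, a relation which involves the
tangent vectors of all points, of total length at most `2 m + 1`. -/
def StCB2 : Prop := ∀ (Ω : Type) [Field Ω] (N : ℕ) (ι : Type) (m : ℕ) (S : Finset ι)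
  (v t : ι → Fin N → Ω) (α β : ι → Ω), S.Nonempty → (∀ i ∈ S, β i ≠ 0) →
  (∀ i ∈ S, LinearIndependent Ω ![v i, t i]) →
  (∀ i ∈ S, ∀ j ∈ S, i ≠ j → LinearIndependent Ω ![v i, v j]) →
  (∀ l : Fin m → Module.Dual Ω (Fin N → Ω), ∑ i ∈ S, (α i * ∏ k, l k (v i) +
    β i * ∑ j, (l j (t i) * ∏ k ∈ Finset.univ.erase j, l k (v i))) = 0) →
  2 * S.card ≤ 2 * m + 1 →
  m + 2 ≤ 2 * S.card ∧ ∀ i ∈ S, ∀ j ∈ S, i ≠ j → ∀ k ∈ S,
    v k ∈ Submodule.span Ω {v i, v j} ∧ t k ∈ Submodule.span Ω {v i, v j}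

/-- the ratios of the traces separate the tangent vectors -/
def StGT : Prop := ∀ (L K : Type) [Field L] [Field K] [Algebra ℂ L] [Algebra ℂ K] [Algebra L K]
  [IsScalarTower ℂ L K] [FiniteDimensional L K] (N m : ℕ) (F : MvPolynomial (Fin N) ℂ)
  (x : Fin N → K) (j0 : Fin N), x j0 = 1 → IntermediateField.adjoin ℂ (Set.range x) = ⊤ →
  MvPolynomial.aeval x F = 0 → 1 ≤ m → Module.finrank L K ≤ m →
  (∀ (a b : Fin N → L) (τ : K), LinearIndependent L ![a, b] →
    (∀ j, x j = algebraMap L K (a j) + τ * algebraMap L K (b j)) → restr F a b ≠ 0) →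
  ∀ h : K, h ≠ 0 → ∀ T : (Fin m → Fin N) → L,
  (∀ f, T f = Algebra.trace L K ((∏ k, x (f k)) * h)) → ∀ D : Derivation ℂ L L,
  (∀ f g, T f * D (T g) = T g * D (T f)) → D = 0

/-- the ratios of the traces separate the tangent vectors, for an arbitrary variety: the equation
of the variety which does not vanish on the line may depend on the line -/
def StGTx : Prop := ∀ (L K : Type) [Field L] [Field K] [Algebra ℂ L] [Algebra ℂ K] [Algebra L K]
  [IsScalarTower ℂ L K] [FiniteDimensional L K] (N m : ℕ)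
  (x : Fin N → K) (j0 : Fin N), x j0 = 1 → IntermediateField.adjoin ℂ (Set.range x) = ⊤ →
  1 ≤ m → Module.finrank L K ≤ m →
  (∀ (a b : Fin N → L) (τ : K), LinearIndependent L ![a, b] →
    (∀ j, x j = algebraMap L K (a j) + τ * algebraMap L K (b j)) →
    ∃ F : MvPolynomial (Fin N) ℂ, MvPolynomial.aeval x F = 0 ∧ restr F a b ≠ 0) →
  ∀ h : K, h ≠ 0 → ∀ T : (Fin m → Fin N) → L,
  (∀ f, T f = Algebra.trace L K ((∏ k, x (f k)) * h)) → ∀ D : Derivation ℂ L L,
  (∀ f g, T f * D (T g) = T g * D (T f)) → D = 0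

end Pool.Agent.Y184.NT
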