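import Pool.Agent.Y692.NT.Tr
import Pool.Agent.Y184.NT.StC
import Pool.Agent.Y888.NT.FinDer

/-!
Traces of regular canonical forms, and general type.
-/

set_option autoImplicit false
set_option linter.overlappingInstances false
set_option linter.unusedSectionVars false

open FF Polynomial Pool.Agent.W602.GT Pool.Agent.W603.LV Pool.Agent.W619.PQ Pool.Agent.Y172
open Pool.Agent.Y692.NT

namespace Pool.Agent.Y184.NT

section

variable {K : Type} [Field K] [Algebra ℂ K] {n : ℕ}

/-- the trace form of `W` in the coordinates `y` -/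
noncomputable def trForm (y : Fin n → K) (t : K) (D : Fin n → Derivation ℂ K K) : K :=
  (Matrix.of fun i j => D i (y j) : Matrix (Fin n) (Fin n) K).det * t

theorem trForm_pluri (y : Fin n → K) (t : K) : IsPluri 1 (trForm y t) := by
  intro A D
  have e1 : (Matrix.of fun a b => (∑ j, A a j • D j) (y b)) =
      A * Matrix.of fun a b => D a (y b) := by
    ext a b
    rw [Matrix.of_apply, Matrix.mul_apply, sum_smul_apply]
    rfl
  change (Matrix.of fun a b => (∑ j, A a j • D j) (y b)).det * _ = _
  rw [e1, Matrix.det_mul, pow_one, mul_assoc]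
  rfl

end

section

variable {K L : Type} [Field K] [Field L] [Algebra ℂ K] [Algebra ℂ L] [Algebra K L]
  [IsScalarTower ℂ K L] [FiniteDimensional K L] [Algebra.EssFiniteType ℂ K]
  [Algebra.EssFiniteType ℂ L] {n : ℕ}

/-- traces of regular canonical forms are regular -/
theorem trForm_reg (hn : Algebra.trdeg ℂ K = n) {y : Fin n → K} {E : Fin n → Derivation ℂ K K}
    (hy : IsTranscendenceBasis ℂ y) (hE : ∀ i j, E i (y j) = if i = j then 1 else 0)
    {E' : Fin n → Derivation ℂ L L}
    (hE' : ∀ i f, E' i (algebraMap K L f) = algebraMap K L (E i f))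
    (W : (Fin n → Derivation ℂ L L) → L) (hW : IsPluri 1 W)
    (hreg : ∀ Q : Place ℂ L, Divisorial n Q → RegAt Q W) (P : Place ℂ K) (hP : Divisorial n P) :
    RegAt P (trForm y (Algebra.trace K L (W E'))) := by
  classical
  have hnL : Algebra.trdeg ℂ L = n := trdeg_up (K := K) hn
  intro G hG
  obtain ⟨yP, EP, i0, hl⟩ := exists_loc hn hP
  choose EP' hEP' using fun i => exists_lift (L := L) hn (EP i)
  obtain ⟨B, hB⟩ : ∃ B : Matrix (Fin n) (Fin n) K, B = Matrix.of fun i j => E i (yP j) :=
    ⟨_, rfl⟩
  have hC : (Matrix.of fun i j => G i (yP j) : Matrix (Fin n) (Fin n) K).det =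
      (Matrix.of fun i j => G i (y j) : Matrix (Fin n) (Fin n) K).det * B.det := by
    rw [← Matrix.det_mul]
    congr 1
    ext i j
    rw [Matrix.of_apply, Matrix.mul_apply, hB]
    have h1 := Pool.Agent.W73.PG.PULL.expand y hy E hE (G i)
    conv_lhs => rw [← h1]
    rw [sum_smul_apply]
    rfl
  have hWB : W E' = algebraMap K L B.det * W EP' := by
    have h1 := pluri_coord (hl.bas.algebraMap_comp (A := L)) (lift_dual hl.dual hEP') hW E'
    rw [h1, pow_one]
    congr 1
    rw [hB, RingHom.map_det]
    congr 1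
    ext i j
    rw [Matrix.of_apply, RingHom.mapMatrix_apply, Matrix.map_apply, Matrix.of_apply]
    exact hE' i (yP j)
  have hval : (Matrix.of fun i j => G i (y j) : Matrix (Fin n) (Fin n) K).det *
      Algebra.trace K L (W E') =
      (Matrix.of fun i j => G i (yP j) : Matrix (Fin n) (Fin n) K).det *
        Algebra.trace K L (W EP') := by
    rw [hC, hWB, ← Algebra.smul_def, map_smul, smul_eq_mul]
    ring
  change P.Reg ((Matrix.of fun i j => G i (y j) : Matrix (Fin n) (Fin n) K).det *
      Algebra.trace K L (W E'))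
  rw [hval]
  refine P.reg_mul ?_ ?_
  · have h9 : Ge P 0 (Matrix.of fun i j => G i (yP j) : Matrix (Fin n) (Fin n) K).det :=
      ge_det P _ _ (fun _ _ => 0) (fun a b => hG a _ (hl.reg b)) fun σ => by simp
    exact h9
  · refine Pool.Agent.Y692.NT.trace_reg P (W EP') fun Q e hQ => ?_
    have hQd : Divisorial n Q := divisorial_up hQ hP
    have h1 := down_ge hnL hQ hQd hl hEP' hW (c := 0) (fun G' hG' => by
      rcases hreg Q hQd G' hG' with h | h
      · exact Or.inl h
      · exact Or.inr (by exact_mod_cast h))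
    rcases h1 with h1 | h1
    · exact Or.inl h1
    · right
      have h2 : ((1 - e : ℤ) : ℝ) ≤ (Q.ord (W EP') : ℝ) := by
        push_cast
        push_cast at h1
        linarith
      exact_mod_cast h2

end

open IntermediateField.algebraAdjoinAdjoin in
/-- elements with ratios which separate the vector fields: `n + 1` of them have algebraically
independent ratios -/
theorem exists_ratios {L : Type} [Field L] [Algebra ℂ L] [Algebra.EssFiniteType ℂ L] {n : ℕ}
    (hn : 1 ≤ n) (hL : Algebra.trdeg ℂ L = n) {ι : Type} (T : ι → L)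
    (hT : ∀ D : Derivation ℂ L L, (∀ f g, T f * D (T g) = T g * D (T f)) → D = 0) :
    ∃ s : Fin (n + 1) → ι, T (s 0) ≠ 0 ∧
      AlgebraicIndependent ℂ (fun i : Fin n => T (s i.succ) / T (s 0)) := by
  classical
  -- one of the elements is not zero
  obtain ⟨f0, hf0⟩ : ∃ f0, T f0 ≠ 0 := by
    by_contra hcon
    push Not at hcon
    obtain ⟨z, E, hz, hE⟩ := exists_crd (k := ℂ) (K := L) hL
    have h1 : E ⟨0, hn⟩ = 0 := hT _ fun f g => by simp [hcon]
    have h2 := hE ⟨0, hn⟩ ⟨0, hn⟩
    rw [h1, if_pos rfl] at h2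
    exact zero_ne_one h2
  obtain ⟨E0, hE0⟩ : ∃ E0 : IntermediateField ℂ L,
    E0 = IntermediateField.adjoin ℂ (Set.range fun g => T g / T f0) := ⟨_, rfl⟩
  have hmem : ∀ g, T g / T f0 ∈ E0 := fun g => by
    rw [hE0]
    exact IntermediateField.subset_adjoin _ _ ⟨g, rfl⟩
  have hfin : FiniteDimensional E0 L := Pool.Agent.Y888.NT.stFin L E0 fun D hD => by
    refine hT D fun f g => ?_
    have h1 : ∀ g, T f0 * D (T g) = T g * D (T f0) := by
      intro g
      have h2 : T g = T g / T f0 * T f0 := by field_simp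
      have h3 : D (T g) = T g / T f0 * D (T f0) := by
        conv_lhs => rw [h2, D.leibniz, hD _ (hmem g), smul_zero, add_zero, smul_eq_mul]
      rw [h3]
      field_simp
    have h4 : T f0 * (T f * D (T g)) = T f0 * (T g * D (T f)) := by
      have h5 := h1 g
      have h6 := h1 f
      linear_combination T f * h5 - T g * h6
    exact mul_left_cancel₀ hf0 h4
  have h1 : Algebra.IsAlgebraic (IntermediateField.adjoin ℂ (Set.range fun g => T g / T f0)) L := by
    rw [← hE0]
    infer_instance
  have h2 : Algebra.IsAlgebraic (Algebra.adjoin ℂ (Set.range fun g => T g / T f0)) L :=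
    (IsFractionRing.comap_isAlgebraic_iff (A := Algebra.adjoin ℂ (Set.range fun g => T g / T f0))
      (K := IntermediateField.adjoin ℂ (Set.range fun g => T g / T f0)) (C := L)).2 h1
  obtain ⟨t, ht, hb⟩ := exists_isTranscendenceBasis_subset (R := ℂ)
    (Set.range fun g => T g / T f0)
  have hcard := hb.cardinalMk_eq_trdeg
  rw [hL] at hcard
  have h3 : Cardinal.mk t = Cardinal.mk (Fin n) := by simpa using hcard
  obtain ⟨e⟩ := Cardinal.eq.1 h3
  choose s hs using fun i : Fin n => ht (e.symm i).2
  refine ⟨Fin.cons f0 s, by simpa using hf0, ?_⟩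
  have h4 : AlgebraicIndependent ℂ (fun i : Fin n => ((e.symm i : t) : L)) :=
    hb.1.comp _ e.symm.injective
  convert h4 using 1
  funext i
  rw [Fin.cons_succ, Fin.cons_zero]
  exact hs i

end Pool.Agent.Y184.NT
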