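import Pool.Agent.Y184.NT.Main
import Pool.Agent.Y184.NT.CongG
import Pool.Agent.Y184.NT.JacG2
import Pool.Agent.Y184.NT.StE
import Pool.Agent.Y184.NT.TrForm

/-!
Varieties dominated by a hypersurface with an adjoint form.
-/

set_option autoImplicit false
set_option linter.overlappingInstances false
set_option linter.unusedSectionVars false

open FF Polynomial Pool.Agent.W602.GT Pool.Agent.W603.LV
open Pool.Agent.W619.PQ (IsUniruled)

namespace Pool.Agent.Y184.NT

section

variable {L K : Type} [Field L] [Field K] [Algebra ℂ L] [Algebra ℂ K] [Algebra L K]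
  [IsScalarTower ℂ L K] [FiniteDimensional L K] {n d : ℕ}

/-- the lifts of a basis of the derivations are linearly independent -/
theorem lift_ind {z : Fin n → L} {E : Fin n → Derivation ℂ L L}
    (hE : ∀ i j, E i (z j) = if i = j then 1 else 0) {E' : Fin n → Derivation ℂ K K}
    (hE' : ∀ i f, E' i (algebraMap L K f) = algebraMap L K (E i f)) :
    LinearIndependent K E' := by
  rw [Fintype.linearIndependent_iff]
  intro g hg i
  have h1 := congrArg (fun D : Derivation ℂ K K => D (algebraMap L K (z i))) hg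
  simp only [Derivation.coe_zero, Pi.zero_apply] at h1
  have h2 : (∑ i, g i • E' i) (algebraMap L K (z i)) = ∑ j, g j * E' j (algebraMap L K (z i)) := by
    have h5 : (∑ i, g i • E' i) (algebraMap L K (z i)) =
        ∑ j, (g j • E' j) (algebraMap L K (z i)) := by
      rw [← Derivation.coeFnAddMonoidHom_apply, map_sum, Finset.sum_apply]
      rfl
    rw [h5]
    rfl
  rw [h2, Finset.sum_eq_single i] at h1
  · rw [hE', hE, if_pos rfl, map_one, mul_one] at h1
    exact h1
  · intro j _ hj
    rw [hE', hE, if_neg hj, map_zero, mul_zero]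
  · intro h
    exact absurd (Finset.mem_univ i) h

theorem trdeg_below [FiniteDimensional L K] (htr : Algebra.trdeg ℂ K = n) :
    Algebra.trdeg ℂ L = n := by
  have h1 := trdeg_add_eq ℂ L (A := K)
  have h2 : Algebra.trdeg L K = 0 := by
    rw [trdeg_eq_zero_iff]
    infer_instance
  rw [h2, add_zero, htr] at h1
  exact h1

/-- **Varieties of geometric genus zero dominated by a hypersurface with an adjoint form.** -/
theorem pg_zeroG (hVert : StVertG) [hK : Algebra.EssFiniteType ℂ K] (hn : 1 ≤ n)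
    {m e : ℕ} (hm : m + e + n + 2 = d) {F G : MvPolynomial (Fin (n + 2)) ℂ}
    (hh : F.IsHomogeneous d) (hG : G.IsHomogeneous e)
    {x : Fin (n + 2) → K} (hx : MvPolynomial.aeval x F = 0) (hx0 : x 0 = 1)
    (hgen : IntermediateField.adjoin ℂ (Set.range x) = ⊤) (htr : Algebra.trdeg ℂ K = n)
    {c : Fin (n + 2) → K} (hc : ∑ l, MvPolynomial.aeval x (MvPolynomial.pderiv l F) * c l = 1)
    (hGx : MvPolynomial.aeval x G ≠ 0)
    (hadj : ∀ (f : Fin m → Fin (n + 2)) (P : Place ℂ K), Divisorial n P →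
      RegAt P (fun D : Fin n → Derivation ℂ K K =>
        (∏ k, x (f k)) * (MvPolynomial.aeval x G * (rows c x D).det)))
    (hR : ∀ (a b : Fin (n + 2) → L) (τ : K), LinearIndependent L ![a, b] →
      (∀ j, x j = algebraMap L K (a j) + τ * algebraMap L K (b j)) → restr F a b ≠ 0)
    (hr1 : n + e + 1 ≤ Module.finrank L K) (hr : Module.finrank L K ≤ 2 * m + 1)
    (hpg : ∀ ω : (Fin n → Derivation ℂ L L) → L, IsPluri 1 ω →
      (∀ P : Place ℂ L, Divisorial n P → RegAt P ω) → ∀ D, ω D = 0) :
    m + 2 ≤ Module.finrank L K ∧ ∃ f : Fin n → L, AlgebraicIndependent ℂ f ∧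
      IntermediateField.adjoin ℂ (Set.range f) = ⊤ := by
  classical
  have hessL : Algebra.EssFiniteType ℂ L := Pool.Agent.TH466.QG.ess_below (K := K)
  have hcL : CharZero L := charZero_of_injective_algebraMap (algebraMap ℂ L).injective
  have hL : Algebra.trdeg ℂ L = n := trdeg_below (K := K) htr
  have hgen' : IntermediateField.adjoin ℂ (Set.range fun j => x j / x 0) = ⊤ := by
    have h1 : (fun j => x j / x 0) = x := by
      funext j
      rw [hx0, div_one]
    rw [h1, hgen]
  have hx00 : x 0 ≠ 0 := by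
    rw [hx0]
    exact one_ne_zero
  obtain ⟨z, E, hz, hE⟩ := Pool.Agent.Y172.exists_crd (k := ℂ) (K := L) hL
  choose E' hE' using fun i => Pool.Agent.Y172.exists_lift (k := ℂ) (K := L) (L := K) hL (E i)
  have hEind : LinearIndependent K E' := lift_ind hE hE'
  have hne : (rows c x E').det ≠ 0 := Pool.Agent.Y988.NT.res_c K n d F hh (by omega) c x hx hc
    (fun D hD => der_gen hx00 hgen' D hD) E' hEind
  -- the canonical form
  obtain ⟨ω, hωdef⟩ : ∃ ω : (Fin n → Derivation ℂ K K) → K,
    ω = fun D => MvPolynomial.aeval x G * (rows c x D).det := ⟨_, rfl⟩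
  have hω : IsPluri 1 ω := by
    rw [hωdef]
    exact Pool.Agent.Y988.NT.res_a K n _ c x
  have hωr : ∀ P : Place ℂ K, Divisorial n P → RegAt P ω := by
    intro P hP
    have h1 := hadj (fun _ => 0) P hP
    simp only [hx0, Finset.prod_const_one, one_mul] at h1
    rw [hωdef]
    exact h1
  have hω0 : ∃ D, ω D ≠ 0 := ⟨E', by rw [hωdef]; exact mul_ne_zero hGx hne⟩
  have htrc : ∀ f : Fin m → Fin (n + 2), Algebra.trace L K ((∏ k, x (f k)) *
      (MvPolynomial.aeval x G * (rows c x E').det)) = 0 := by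
    intro f
    refine Pool.Agent.Y692.NT.t_Tr L K n hL hpg (fun D => (∏ k, x (f k)) *
      (MvPolynomial.aeval x G * (rows c x D).det)) ?_ (hadj f) E E' hE'
    have h1 := Pool.Agent.Y988.NT.res_a K n ((∏ k, x (f k)) * MvPolynomial.aeval x G) c x
    have h2 : (fun D : Fin n → Derivation ℂ K K => (∏ k, x (f k)) *
        (MvPolynomial.aeval x G * (rows c x D).det)) =
        fun D => (∏ k, x (f k)) * MvPolynomial.aeval x G * (rows c x D).det := by
      funext D
      ring
    rw [h2]
    exact h1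
  have hgenL : IntermediateField.adjoin L (Set.range x) = ⊤ := by
    rw [eq_top_iff]
    intro y _
    have h1 : y ∈ IntermediateField.adjoin ℂ (Set.range x) := by
      rw [hgen]
      trivial
    have h2 : IntermediateField.adjoin ℂ (Set.range x) ≤
        (IntermediateField.adjoin L (Set.range x)).restrictScalars ℂ := by
      rw [IntermediateField.adjoin_le_iff]
      exact IntermediateField.subset_adjoin L _
    exact h2 h1
  obtain ⟨hrm, a, b, τ, hxab, hτ, hab⟩ := Pool.Agent.Y614.NT.stLine Pool.Agent.Y153.NT.stCB L K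
    (n + 2) m x 0 hx0 hgenL _ (mul_ne_zero hGx hne) htrc hr
  refine ⟨hrm, ?_⟩
  obtain ⟨s, hsx⟩ := exists_s htr hgen'
  have hP : restr F a b ≠ 0 := hR a b τ hab hxab
  obtain ⟨a', b', τ', μ, hμ, hab', hFb, hτ', hsh⟩ := shift hab hτ (by omega) hP
  -- the new coordinates
  obtain ⟨x', hx'⟩ : ∃ x' : Fin (n + 2) → K,
    ∀ j, x' j = algebraMap L K (a' j) + τ' * algebraMap L K (b' j) := ⟨_, fun _ => rfl⟩
  have hxx' : ∀ j, x j = μ * x' j := fun j => by rw [hxab, hsh, hx']
  have hxf : x = fun j => μ * x' j := funext hxx'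
  have hx'0 : x' 0 ≠ 0 := by
    intro h0
    rw [hxx', h0, mul_zero] at hx00
    exact hx00 rfl
  have hrat : ∀ j, x' j / x' 0 = x j / x 0 := by
    intro j
    rw [hxx' j, hxx' 0, mul_div_mul_left _ _ hμ]
  have hgen'' : IntermediateField.adjoin ℂ (Set.range fun j => x' j / x' 0) = ⊤ := by
    simp only [hrat]
    exact hgen'
  have hFx' : MvPolynomial.aeval x' F = 0 := by
    have h1 := hx
    rw [hxf, Pool.Agent.Y988.NT.aeval_smul_form hh] at h1
    exact (mul_eq_zero.1 h1).resolve_left (pow_ne_zero _ hμ)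
  have hGx2 : MvPolynomial.aeval x G = μ ^ e * MvPolynomial.aeval x' G := by
    rw [hxf, Pool.Agent.Y988.NT.aeval_smul_form hG]
  have hGx' : MvPolynomial.aeval x' G ≠ 0 := by
    intro h0
    rw [hGx2, h0, mul_zero] at hGx
    exact hGx rfl
  obtain ⟨c', hc'def⟩ : ∃ c' : Fin (n + 2) → K, c' = fun l => μ ^ (d - 1) * c l := ⟨_, rfl⟩
  have hc' : ∑ l, MvPolynomial.aeval x' (MvPolynomial.pderiv l F) * c' l = 1 := by
    rw [← hc, hc'def]
    refine Finset.sum_congr rfl fun l _ => ?_
    have h1 : (MvPolynomial.pderiv l F).IsHomogeneous (d - 1) := hh.pderiv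
    have h2 : MvPolynomial.aeval x (MvPolynomial.pderiv l F) =
        μ ^ (d - 1) * MvPolynomial.aeval x' (MvPolynomial.pderiv l F) := by
      rw [hxf, Pool.Agent.Y988.NT.aeval_smul_form h1]
    rw [h2]
    ring
  have hscale : ∀ D : Fin n → Derivation ℂ K K, (rows c' x' D).det =
      μ ^ (m + e) * (rows c x D).det := by
    intro D
    have h1 := Pool.Agent.Y988.NT.k2 μ 1 c x' D
    have h2 := Pool.Agent.Y988.NT.k2 1 (μ ^ (d - 1)) c x' D
    simp only [one_mul, one_pow, mul_one] at h1 h2
    rw [← hxf] at h1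
    have h3 : (rows c' x' D).det = μ ^ (d - 1) * (rows c x' D).det := by
      rw [hc'def]
      exact h2
    rw [h3, h1, ← hm]
    have h4 : m + e + n + 2 - 1 = (m + e) + (n + 1) := by omega
    rw [h4, pow_add, pow_succ' μ n]
    ring
  have hprod : ∀ f : Fin m → Fin (n + 2), ∏ k, x (f k) = μ ^ m * ∏ k, x' (f k) := by
    intro f
    rw [Finset.prod_congr rfl fun k _ => hxx' (f k), Finset.prod_mul_distrib, Finset.prod_const,
      Finset.card_univ, Fintype.card_fin]
  have hne' : (rows c' x' E').det ≠ 0 := by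
    rw [hscale]
    exact mul_ne_zero (pow_ne_zero _ hμ) hne
  have htrc' : ∀ f : Fin m → Fin (n + 2), Algebra.trace L K ((∏ k, x' (f k)) *
      (MvPolynomial.aeval x' G * (rows c' x' E').det)) = 0 := by
    intro f
    have h1 := htrc f
    rw [hprod, hGx2] at h1
    rw [hscale]
    rw [← h1]
    congr 1
    rw [pow_add]
    ring
  obtain ⟨h, hPh, hh0, hJ, hJ0⟩ := t_JacG2 L K n d m e F G hh hG hm (by omega) a' b' hab' hFb τ'
    hτ' hrm x' hx' hFx' hGx' E E' hE' c' hc' hne' htrc'
  have hsx' : AlgebraicIndependent ℂ (fun i => x' (s i) / x' 0) := by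
    simp only [hrat]
    exact hsx
  have hcong := congG (q0 := e) Pool.Agent.Y929.NT.t_W0 Pool.Agent.Y48.NT.tame
    Pool.Agent.Y888.NT.stFin Pool.Agent.Y888.NT.stDer hVert hn hL htr hω hωr hω0 hh hG hGx' hab'
    hFb hx' hPh hh0 hz hE hJ hJ0 hx'0 hgen'' hsx'
  exact Pool.Agent.Y484.NT.rat L n hL a' b' hab' hcong

end

end Pool.Agent.Y184.NT
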