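import Pool.Agent.Y184.NT.GT2
import Pool.Agent.Y184.NT.Main2
import Pool.Agent.Y362.NT.NLx
import Pool.Agent.Y297.NT.Pull
import Pool.Agent.Y71.NT.Abh

/-!
Canonical forms of varieties which correspond to a variety with positive canonical bundle.
-/

set_option autoImplicit false
set_option linter.overlappingInstances false
set_option linter.unusedSectionVars false

open FF Polynomial Pool.Agent.W602.GT Pool.Agent.W603.LV

namespace Pool.Agent.Y184.NT

theorem nly (hNLG : StNLG) : StNLy := by
  intro L K M _ _ _ _ _ _ _ _ _ _ _ n N l hn z hz ω hω hreg hne x hx a b τ hb hxab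
  by_contra hcon
  push Not at hcon
  have h1 : ∀ G : MvPolynomial (Fin N) ℂ, aeval τ (restr G a b) =
      algebraMap M K (MvPolynomial.aeval x G) := by
    intro G
    have h5 := MvPolynomial.comp_aeval_apply
      (φ := (aeval τ : L[X] →ₐ[L] K).restrictScalars ℂ) (lin a b) G
    have h6 : (fun j => (aeval τ : L[X] →ₐ[L] K).restrictScalars ℂ (lin a b j)) =
        fun j => algebraMap M K (x j) := by
      funext j
      change aeval τ (lin a b j) = _
      rw [aeval_lin, hxab]
    rw [h6] at h5
    have h7 := MvPolynomial.aeval_algebraMap_apply (R := ℂ) K x G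
    rw [← h7]
    exact h5
  have h2 : ∀ G : MvPolynomial (Fin N) ℂ, MvPolynomial.aeval x G = 0 ↔
      MvPolynomial.aeval (fun j => io (lin a b j)) G = 0 := by
    intro G
    rw [← io_restr]
    constructor
    · intro h
      rw [hcon G h]
      exact map_zero _
    · intro h
      have h3 : restr G a b = 0 := by
        apply IsFractionRing.injective L[X] (RatFunc L)
        rw [map_zero]
        exact h
      have h4 := h1 G
      rw [h3, map_zero] at h4
      exact (map_eq_zero _).1 h4.symm
  obtain ⟨φ, hφ⟩ := Pool.Agent.Y362.NT.exists_hom x (fun j => io (lin a b j)) hx h2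
  apply hb
  funext j
  obtain ⟨c, hc⟩ := hNLG M L n l hn z hz ω hω hreg hne φ (x j)
  rw [hφ, ← io_C] at hc
  have h4 : lin a b j = C c := IsFractionRing.injective L[X] (RatFunc L) hc
  have h5 := congrArg (fun p => Polynomial.coeff p 1) h4
  simpa [Pool.Agent.Y184.NT.lin] using h5

section

variable {M K L : Type} [Field M] [Field K] [Field L] [Algebra ℂ M] [Algebra ℂ K] [Algebra ℂ L]
  [Algebra M K] [Algebra L K] [IsScalarTower ℂ M K] [IsScalarTower ℂ L K]
  [FiniteDimensional M K] [FiniteDimensional L K] {n N m : ℕ}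

/-- the pull-back of the form with the value `y` on the frame dual to `z` -/
noncomputable def pull (z : Fin n → M) (y : M) (D : Fin n → Derivation ℂ K K) : K :=
  (Matrix.of fun i j => D i (algebraMap M K (z j)) : Matrix (Fin n) (Fin n) K).det *
    algebraMap M K y

theorem pull_pluri (z : Fin n → M) (y : M) :
    IsPluri 1 (pull z y : (Fin n → Derivation ℂ K K) → K) := by
  have h1 := trForm_pluri (fun j => algebraMap M K (z j)) (algebraMap M K y)
  exact h1

/-- the minor of a frame is not zero -/
theorem minor_ne {z : Fin n → K} (hz : IsTranscendenceBasis ℂ z) {E : Fin n → Derivation ℂ K K}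
    (hE : ∀ i j, E i (z j) = if i = j then 1 else 0) {D : Fin n → Derivation ℂ K K}
    (hD : LinearIndependent K D) :
    (Matrix.of fun i j => D i (z j) : Matrix (Fin n) (Fin n) K).det ≠ 0 := by
  intro h0
  obtain ⟨v, hv, hv2⟩ := Matrix.exists_vecMul_eq_zero_iff.2 h0
  apply hv
  rw [Fintype.linearIndependent_iff] at hD
  funext i
  refine hD v ?_ i
  have h1 := Pool.Agent.W73.PG.PULL.expand z hz E hE (∑ i, v i • D i)
  rw [← h1]
  refine Finset.sum_eq_zero fun j _ => ?_
  have h2 : (∑ i, v i • D i) (z j) = ∑ i, v i * D i (z j) := by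
    have h5 : (∑ i, v i • D i) (z j) = ∑ i, (v i • D i) (z j) := by
      rw [← Derivation.coeFnAddMonoidHom_apply, map_sum, Finset.sum_apply]
      rfl
    rw [h5]
    rfl
  have h3 := congrFun hv2 j
  rw [Matrix.vecMul, dotProduct] at h3
  rw [h2]
  have h4 : ∑ i, v i * D i (z j) = 0 := h3
  rw [h4, zero_smul]

/-- **Canonical forms of varieties which correspond to a variety with positive canonical
bundle.** -/
theorem dom (hNLG : StNLG) [Algebra.EssFiniteType ℂ M] (hn : 1 ≤ n)
    (hM : Algebra.trdeg ℂ M = n) {x : Fin N → M} {j0 : Fin N} (hj0 : x j0 = 1)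
    (hgen : IntermediateField.adjoin ℂ (Set.range x) = ⊤)
    {ω : (Fin n → Derivation ℂ M M) → M} (hω : IsPluri 1 ω) (hω0 : ∃ D, ω D ≠ 0)
    (hreg : ∀ (f : Fin m → Fin N) (P : Place ℂ M), Divisorial n P →
      RegAt P (fun D => (∏ k, x (f k)) * ω D))
    (hgenL : IntermediateField.adjoin L (Set.range fun j => algebraMap M K (x j)) = ⊤) :
    (Module.finrank L K ≤ m + 1 → ∃ θ : (Fin n → Derivation ℂ L L) → L, IsPluri 1 θ ∧
      (∀ P : Place ℂ L, Divisorial n P → RegAt P θ) ∧ ∃ D, θ D ≠ 0) ∧
    (Module.finrank L K ≤ m → GeneralType ℂ L n) := by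
  classical
  have hessMK : Algebra.EssFiniteType M K := inferInstance
  have hessK : Algebra.EssFiniteType ℂ K := Algebra.EssFiniteType.comp ℂ M K
  have hessL : Algebra.EssFiniteType ℂ L := Pool.Agent.TH466.QG.ess_below (K := K)
  have hcL : CharZero L := charZero_of_injective_algebraMap (algebraMap ℂ L).injective
  have hK : Algebra.trdeg ℂ K = n := Pool.Agent.Y172.trdeg_up (K := M) hM
  have hL : Algebra.trdeg ℂ L = n := trdeg_below (K := K) hK
  obtain ⟨z, EM, hz, hEM⟩ := Pool.Agent.Y172.exists_crd (k := ℂ) (K := M) hM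
  choose EK hEK using fun i => Pool.Agent.Y172.exists_lift (k := ℂ) (K := M) (L := K) hM (EM i)
  have hzK : IsTranscendenceBasis ℂ (fun j => algebraMap M K (z j)) := hz.algebraMap_comp
  have hEKd := Pool.Agent.Y172.lift_dual hEM hEK
  obtain ⟨y, E, hy, hE⟩ := Pool.Agent.Y172.exists_crd (k := ℂ) (K := L) hL
  choose E' hE' using fun i => Pool.Agent.Y172.exists_lift (k := ℂ) (K := L) (L := K) hL (E i)
  have hEind : LinearIndependent K E' := lift_ind hE hE'
  -- the forms
  have hωE : ω EM ≠ 0 := by
    intro h0
    obtain ⟨D, hD⟩ := hω0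
    apply hD
    rw [Pool.Agent.Y172.pluri_coord hz hEM hω D, h0, mul_zero]
  obtain ⟨W, hWdef⟩ : ∃ W : (Fin m → Fin N) → (Fin n → Derivation ℂ K K) → K,
    W = fun f => pull z ((∏ k, x (f k)) * ω EM) := ⟨_, rfl⟩
  have hWp : ∀ f, IsPluri 1 (W f) := fun f => by
    rw [hWdef]
    exact pull_pluri _ _
  have hWr : ∀ f (Q : Place ℂ K), Divisorial n Q → RegAt Q (W f) := by
    intro f Q hQ D hD
    rw [hWdef]
    have hp : IsPluri 1 (fun D => (∏ k, x (f k)) * ω D) := by
      intro A D
      change (∏ k, x (f k)) * ω (fun i => ∑ j, A i j • D j) = _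
      rw [hω A D]
      ring
    exact Pool.Agent.Y297.NT.t_Pull Pool.Agent.Y71.NT.t_abh M K n n hM hK z hz EM hEM
      (fun D => (∏ k, x (f k)) * ω D) hp (hreg f) Q hQ D hD
  obtain ⟨h, hhdef⟩ : ∃ h : K, h = pull z (ω EM) E' := ⟨_, rfl⟩
  have hh : h ≠ 0 := by
    rw [hhdef]
    exact mul_ne_zero (minor_ne hzK hEKd hEind) (by simpa using hωE)
  have hWE : ∀ f, W f E' = (∏ k, algebraMap M K (x (f k))) * h := by
    intro f
    rw [hWdef, hhdef]
    simp only [pull]
    rw [map_mul, map_prod]
    ring
  obtain ⟨T, hT⟩ : ∃ T : (Fin m → Fin N) → L,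
    ∀ f, T f = Algebra.trace L K ((∏ k, algebraMap M K (x (f k))) * h) := ⟨_, fun _ => rfl⟩
  -- the trace forms
  have hθp : ∀ f, IsPluri 1 (trForm y (T f)) := fun f => trForm_pluri y (T f)
  have hθr : ∀ f (P : Place ℂ L), Divisorial n P → RegAt P (trForm y (T f)) := by
    intro f P hP
    rw [hT, ← hWE]
    exact trForm_reg hL hy hE hE' (W f) (hWp f) (hWr f) P hP
  have hθE : ∀ t, trForm y t E = t := by
    intro t
    have h1 : (Matrix.of fun i j => E i (y j) : Matrix (Fin n) (Fin n) L) = 1 := by
      ext i j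
      rw [Matrix.of_apply, hE, Matrix.one_apply]
    rw [trForm, h1, Matrix.det_one, one_mul]
  have hj0' : algebraMap M K (x j0) = 1 := by rw [hj0, map_one]
  refine ⟨fun hr => ?_, fun hr => ?_⟩
  · obtain ⟨f, hf⟩ : ∃ f, T f ≠ 0 := by
      by_contra hcon
      push Not at hcon
      have h1 := (Pool.Agent.Y614.NT.stLine Pool.Agent.Y153.NT.stCB L K N m
        (fun j => algebraMap M K (x j)) j0 hj0' hgenL h hh
        (fun f => by rw [← hT, hcon]) (by omega)).1
      omega
    exact ⟨trForm y (T f), hθp f, hθr f, E, by rw [hθE]; exact hf⟩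
  · have hder : ∀ D : Derivation ℂ K K, (∀ j, D (algebraMap M K (x j)) = 0) → D = 0 := by
      intro D hD
      let C0 : IntermediateField ℂ M :=
        { carrier := {f | D (algebraMap M K f) = 0}
          mul_mem' := fun {f g} hf hg => by
            change D (algebraMap M K (f * g)) = 0
            rw [map_mul, D.leibniz, show D (algebraMap M K f) = 0 from hf,
              show D (algebraMap M K g) = 0 from hg]
            simp
          add_mem' := fun {f g} hf hg => by
            change D (algebraMap M K (f + g)) = 0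
            rw [map_add, map_add, show D (algebraMap M K f) = 0 from hf,
              show D (algebraMap M K g) = 0 from hg, add_zero]
          algebraMap_mem' := fun c => by
            change D (algebraMap M K (algebraMap ℂ M c)) = 0
            rw [← IsScalarTower.algebraMap_apply]
            exact D.map_algebraMap c
          inv_mem' := fun f hf => by
            change D (algebraMap M K f⁻¹) = 0
            rw [map_inv₀, Derivation.leibniz_inv, show D (algebraMap M K f) = 0 from hf,
              smul_zero] }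
      have h2 : IntermediateField.adjoin ℂ (Set.range x) ≤ C0 := by
        rw [IntermediateField.adjoin_le_iff]
        rintro _ ⟨j, rfl⟩
        exact hD j
      have h1 := Pool.Agent.W73.PG.PULL.expand _ hzK EK hEKd D
      rw [← h1]
      refine Finset.sum_eq_zero fun j _ => ?_
      have h3 : z j ∈ IntermediateField.adjoin ℂ (Set.range x) := by
        rw [hgen]
        trivial
      have h4 : D (algebraMap M K (z j)) = 0 := h2 h3
      rw [h4, zero_smul]
    have hsep := gt_corr Pool.Agent.Y141.NT.stCB2 hj0' hgenL hder hr (fun a b τ hab hxab => by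
      have hb : b ≠ 0 := by
        have h1 := hab.ne_zero 1
        simpa using h1
      have hreg1 : ∀ P : Place ℂ M, Divisorial n P → RegAt P ω := by
        intro P hP
        have h1 := hreg (fun _ => j0) P hP
        simp only [hj0, Finset.prod_const_one, one_mul] at h1
        exact h1
      obtain ⟨F, hF, hR⟩ := nly hNLG L K M n N n hM y hy ω hω hreg1 hω0 x hgen a b τ hb hxab
      refine ⟨F, ?_, hR⟩
      have h7 : MvPolynomial.aeval (fun j => algebraMap M K (x j)) F =
          algebraMap M K (MvPolynomial.aeval x F) := MvPolynomial.aeval_algebraMap_apply K x F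
      rw [h7, hF, map_zero]) hh hT
    obtain ⟨s, hs0, hs⟩ := exists_ratios hn hL T hsep
    refine ⟨hL, 1, one_pos, fun j => trForm y (T (s j)), fun j => hθp _,
      fun P hP j => hθr _ P hP, E, ?_, ?_⟩
    · change trForm y (T (s 0)) E ≠ 0
      rw [hθE]
      exact hs0
    · simp only [hθE]
      exact hs

end

end Pool.Agent.Y184.NT
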