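import Pool.Agent.Y184.NT.Main

/-!
Varieties dominated by a smooth hypersurface: the equivalences.
-/

set_option autoImplicit false
set_option linter.overlappingInstances false
set_option linter.unusedSectionVars false

open FF Polynomial Pool.Agent.W602.GT Pool.Agent.W603.LV
open Pool.Agent.W619.PQ (IsUniruled)

namespace Pool.Agent.Y184.NT

section

variable {L : Type} [Field L] [Algebra ℂ L] {n : ℕ}

open IntermediateField.algebraAdjoinAdjoin in
/-- rational varieties of positive dimension are uniruled -/
theorem uniruled_of_rational (hn : 1 ≤ n) {f : Fin n → L} (hf : AlgebraicIndependent ℂ f)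
    (htop : IntermediateField.adjoin ℂ (Set.range f) = ⊤) : IsUniruled ℂ L n := by
  classical
  have hess : Algebra.EssFiniteType ℂ L := by
    rw [← IntermediateField.fg_top_iff]
    exact ⟨Finset.univ.image f, by rw [Finset.coe_image, Finset.coe_univ, Set.image_univ, htop]⟩
  have hbas : IsTranscendenceBasis ℂ f := by
    rw [hf.isTranscendenceBasis_iff_isAlgebraic]
    apply alg_adjoin
    rw [htop]
    infer_instance
  have htr : Algebra.trdeg ℂ L = n := by
    rw [← hbas.cardinalMk_eq_trdeg]
    simp
  refine Pool.Agent.TH466.QG.uniruled_below (F := L) (K := L) htr ?_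
  obtain ⟨m, rfl⟩ : ∃ m, n = m + 1 := ⟨n - 1, by omega⟩
  refine ⟨IntermediateField.adjoin ℂ (f '' {0}ᶜ), f 0, ?_, ?_⟩
  · have h1 := ((AlgebraicIndependent.iff_transcendental_adjoin_image 0).1 hf).2
    intro h2
    apply h1
    exact (IsFractionRing.isAlgebraic_iff (Algebra.adjoin ℂ (f '' {0}ᶜ))
      (IntermediateField.adjoin ℂ (f '' {0}ᶜ)) L).2 h2
  · rw [eq_top_iff]
    intro y _
    have h1 : y ∈ IntermediateField.adjoin ℂ (Set.range f) := by
      rw [htop]
      trivial
    have h2 : IntermediateField.adjoin ℂ (Set.range f) ≤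
        (IntermediateField.adjoin (IntermediateField.adjoin ℂ (f '' {0}ᶜ)) {f 0}).restrictScalars
          ℂ := by
      rw [IntermediateField.adjoin_le_iff]
      rintro _ ⟨i, rfl⟩
      by_cases hi : i = 0
      · rw [hi]
        exact IntermediateField.mem_adjoin_simple_self _ _
      · have h3 : f i ∈ IntermediateField.adjoin ℂ (f '' {0}ᶜ) :=
          IntermediateField.subset_adjoin _ _ ⟨i, by simpa using hi, rfl⟩
        exact IntermediateField.algebraMap_mem (IntermediateField.adjoin
          (IntermediateField.adjoin ℂ (f '' {0}ᶜ)) {f 0}) ⟨f i, h3⟩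
    exact h2 h1

end

end Pool.Agent.Y184.NT
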