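import Pool.Agent.Y954.NT.GT
import Pool.Agent.Y141.NT.CB2
import Pool.Agent.Y184.NT.StE
import Pool.Agent.Y184.NT.TrForm

/-!
Traces of canonical forms under correspondences, and general type.
-/

set_option autoImplicit false
set_option linter.overlappingInstances false
set_option linter.unusedSectionVars false

open Module Polynomial

namespace Pool.Agent.Y184.NT

open Pool.Agent.Y954.NT (exists_lift trace_der cst mem_cst const_of_alg rel2 line_of)

/-- the ratios of the traces separate the tangent vectors, for correspondences -/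
theorem gt_corr (hCB2 : StCB2) {L K : Type} [Field L] [Field K] [Algebra ℂ L] [Algebra ℂ K]
    [Algebra L K] [IsScalarTower ℂ L K] [FiniteDimensional L K] {N m : ℕ}
    {x : Fin N → K} {j0 : Fin N} (hj0 : x j0 = 1)
    (hgenL : IntermediateField.adjoin L (Set.range x) = ⊤)
    (hder : ∀ D : Derivation ℂ K K, (∀ j, D (x j) = 0) → D = 0)
    (hfin : Module.finrank L K ≤ m)
    (hnl : ∀ (a b : Fin N → L) (τ : K), LinearIndependent L ![a, b] →
      (∀ j, x j = algebraMap L K (a j) + τ * algebraMap L K (b j)) →
      ∃ F : MvPolynomial (Fin N) ℂ, MvPolynomial.aeval x F = 0 ∧ restr F a b ≠ 0)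
    {h : K} (hh : h ≠ 0) {T : (Fin m → Fin N) → L}
    (hT : ∀ f, T f = Algebra.trace L K ((∏ k, x (f k)) * h)) (D : Derivation ℂ L L)
    (hTD : ∀ f g, T f * D (T g) = T g * D (T f)) : D = 0 := by
  classical
  have hchar : CharZero L := charZero_of_injective_algebraMap (algebraMap ℂ L).injective
  let Ω := AlgebraicClosure L
  have hcard : Fintype.card (K →ₐ[L] Ω) = finrank L K := AlgHom.card L K Ω
  by_contra hD
  -- a nonzero trace
  obtain ⟨g, hg⟩ : ∃ g, T g ≠ 0 := by
    by_contra hcon
    push Not at hcon
    have h1 := (Pool.Agent.Y614.NT.stLine Pool.Agent.Y153.NT.stCB L K N m x j0 hj0 hgenL h hh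
      (fun f => by rw [← hT, hcon]) (by omega)).1
    omega
  obtain ⟨lam, hlam⟩ : ∃ lam : L, ∀ f, D (T f) = lam * T f := by
    refine ⟨D (T g) / T g, fun f => ?_⟩
    have h1 := hTD f g
    rw [div_mul_eq_mul_div, eq_div_iff hg]
    linear_combination -h1
  obtain ⟨D', hD'⟩ := exists_lift (K := K) D
  -- the tangent vector is not zero
  have hx : ∃ j, D' (x j) ≠ 0 := by
    by_contra hcon
    push Not at hcon
    apply hD
    have h1 : D' = 0 := hder D' hcon
    ext y
    have h2 : D' (algebraMap L K y) = 0 := by
      rw [h1]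
      rfl
    rw [hD'] at h2
    exact (map_eq_zero _).1 h2
  have hx0 : D' (x j0) = 0 := by
    rw [hj0]
    exact D'.map_one_eq_zero
  -- the relation
  have htr : ∀ f : Fin m → Fin N, Algebra.trace L K ((D' h - algebraMap L K lam * h) *
      ∏ k, x (f k) + h * ∑ j, D' (x (f j)) * ∏ k ∈ Finset.univ.erase j, x (f k)) = 0 := by
    intro f
    have hprod : ∀ s : Finset (Fin m), D' (∏ k ∈ s, x (f k)) =
        ∑ j ∈ s, D' (x (f j)) * ∏ k ∈ s.erase j, x (f k) := by
      intro s
      induction s using Finset.induction_on with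
      | empty => simp [D'.map_one_eq_zero]
      | insert i s hi ih =>
        rw [Finset.prod_insert hi, D'.leibniz, ih, Finset.sum_insert hi, Finset.erase_insert hi,
          smul_eq_mul, smul_eq_mul, Finset.mul_sum, add_comm, mul_comm (∏ k ∈ s, x (f k))]
        congr 1
        refine Finset.sum_congr rfl fun j hj => ?_
        have hji : i ≠ j := fun e => hi (e ▸ hj)
        rw [Finset.erase_insert_of_ne hji, Finset.prod_insert
          (fun e => hi (Finset.mem_of_mem_erase e))]
        ring
    have h1 : D' ((∏ k, x (f k)) * h) = D' h * ∏ k, x (f k) +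
        h * ∑ j, D' (x (f j)) * ∏ k ∈ Finset.univ.erase j, x (f k) := by
      rw [D'.leibniz, hprod, smul_eq_mul, smul_eq_mul]
      ring
    have h2 := trace_der hD' ((∏ k, x (f k)) * h)
    rw [← hT, hlam, h1] at h2
    have h3 : (D' h - algebraMap L K lam * h) * ∏ k, x (f k) +
        h * ∑ j, D' (x (f j)) * ∏ k ∈ Finset.univ.erase j, x (f k) =
        (D' h * ∏ k, x (f k) + h * ∑ j, D' (x (f j)) * ∏ k ∈ Finset.univ.erase j, x (f k)) -
        lam • ((∏ k, x (f k)) * h) := by
      rw [Algebra.smul_def]
      ring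
    rw [h3, map_sub, map_smul, h2, ← hT, smul_eq_mul, sub_self]
  obtain ⟨hm2, hspan⟩ := hCB2 Ω N (K →ₐ[L] Ω) m Finset.univ (fun σ j => σ (x j))
    (fun σ j => σ (D' (x j))) (fun σ => σ (D' h - algebraMap L K lam * h)) (fun σ => σ h)
    (by
      rw [← Finset.card_pos, Finset.card_univ, hcard]
      exact finrank_pos)
    (fun σ _ => by
      rw [_root_.map_ne_zero]
      exact hh)
    (fun σ _ => by
      rw [LinearIndependent.pair_iff]
      intro s t hst
      have h1 := congrFun hst j0
      simp only [Pi.add_apply, Pi.smul_apply, smul_eq_mul, hj0, map_one, mul_one,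
        Pi.zero_apply, D'.map_one_eq_zero, map_zero, mul_zero, add_zero] at h1
      obtain ⟨j, hj⟩ := hx
      have h2 := congrFun hst j
      simp only [Pi.add_apply, Pi.smul_apply, smul_eq_mul, Pi.zero_apply, h1, zero_mul,
        zero_add] at h2
      exact ⟨h1, (mul_eq_zero.1 h2).resolve_right fun e => hj ((_root_.map_eq_zero σ).1 e)⟩)
    (fun σ _ σ' _ hne => by
      rw [LinearIndependent.pair_iff]
      intro s t hst
      have h1 := congrFun hst j0
      simp only [Pi.add_apply, Pi.smul_apply, smul_eq_mul, hj0, map_one, mul_one,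
        Pi.zero_apply] at h1
      have h2 : t = -s := by linear_combination h1
      subst h2
      by_cases hs : s = 0
      · simp [hs]
      · exfalso
        apply hne
        apply Pool.Agent.Y614.NT.emb_ext x hgenL
        intro j
        have h3 := congrFun hst j
        simp only [Pi.add_apply, Pi.smul_apply, smul_eq_mul, Pi.zero_apply] at h3
        have h4 : s * (σ (x j) - σ' (x j)) = 0 := by linear_combination h3
        rcases mul_eq_zero.1 h4 with h5 | h5
        · exact absurd h5 hs
        · exact sub_eq_zero.1 h5)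
    (fun l => rel2 x (fun j => D' (x j)) h _ htr l)
    (by rw [Finset.card_univ, hcard]; omega)
  rw [Finset.card_univ, hcard] at hm2
  obtain ⟨a, b, j1, hab, a0, b0, a1, b1, uniq, σ1, σ2, h12⟩ := line_of x j0 hj0 hgenL (by omega)
    (fun σ1 σ2 hne σ => (hspan σ1 (Finset.mem_univ _) σ2 (Finset.mem_univ _) hne σ
      (Finset.mem_univ _)).1)
  -- the derivative of the coordinates
  have hDx : ∀ j, D' (x j) = D' (x j1) * algebraMap L K (b j) := by
    intro j
    have hne12 : σ1 ≠ σ2 := fun e => h12 (by rw [e])
    have h1 := (hspan σ1 (Finset.mem_univ _) σ2 (Finset.mem_univ _) hne12 σ1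
      (Finset.mem_univ _)).2
    rw [Submodule.mem_span_pair] at h1
    obtain ⟨s, t, hst⟩ := h1
    have c0 := congrFun hst j0
    have c1 := congrFun hst j1
    have c2 := congrFun hst j
    simp only [Pi.add_apply, Pi.smul_apply, smul_eq_mul, hj0, map_one, mul_one,
      D'.map_one_eq_zero, map_zero] at c0 c1 c2
    have e1 : σ1 (x j) = algebraMap L Ω (a j) + σ1 (x j1) * algebraMap L Ω (b j) := by
      conv_lhs => rw [hab j]
      rw [map_add, map_mul, AlgHom.commutes, AlgHom.commutes]
    have e2 : σ2 (x j) = algebraMap L Ω (a j) + σ2 (x j1) * algebraMap L Ω (b j) := by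
      conv_lhs => rw [hab j]
      rw [map_add, map_mul, AlgHom.commutes, AlgHom.commutes]
    apply σ1.toRingHom.injective
    change σ1 (D' (x j)) = σ1 (D' (x j1) * algebraMap L K (b j))
    rw [map_mul, AlgHom.commutes, ← c2, ← c1, e1, e2]
    linear_combination (algebraMap L Ω (a j)) * c0
  have hDab : ∀ j, D (a j) = 0 ∧ D (b j) = 0 := by
    intro j
    apply uniq
    have h1 : D' (x j) = algebraMap L K (D (a j)) + (D' (x j1) * algebraMap L K (b j) +
        x j1 * algebraMap L K (D (b j))) := by
      conv_lhs => rw [hab j]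
      rw [map_add, D'.leibniz, hD', hD', smul_eq_mul, smul_eq_mul]
      ring
    rw [hDx j] at h1
    linear_combination -h1
  have hLI : LinearIndependent L ![a, b] := by
    rw [LinearIndependent.pair_iff]
    intro s t hst
    have c0 := congrFun hst j0
    have c1 := congrFun hst j1
    simp only [Pi.add_apply, Pi.smul_apply, smul_eq_mul, Pi.zero_apply] at c0 c1
    rw [a0, b0] at c0
    rw [a1, b1] at c1
    refine ⟨?_, ?_⟩
    · simpa using c0
    · simpa using c1
  obtain ⟨F, hF, hP⟩ := hnl a b (x j1) hLI hab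
  -- the parameter is algebraic over the constants
  let a' : Fin N → cst D' := fun j => ⟨algebraMap L K (a j), by
    rw [mem_cst, hD', (hDab j).1, map_zero]⟩
  let b' : Fin N → cst D' := fun j => ⟨algebraMap L K (b j), by
    rw [mem_cst, hD', (hDab j).2, map_zero]⟩
  let P0 : (cst D')[X] := MvPolynomial.aeval (fun j => C (a' j) + X * C (b' j)) F
  have hP0 : P0 ≠ 0 := by
    intro h0
    let φ1 : (cst D')[X] →ₐ[ℂ] K[X] := Polynomial.mapAlgHom (IsScalarTower.toAlgHom ℂ (cst D') K)
    let φ2 : L[X] →ₐ[ℂ] K[X] := Polynomial.mapAlgHom (IsScalarTower.toAlgHom ℂ L K)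
    have h1 : φ1 P0 = MvPolynomial.aeval
        (fun j => C (algebraMap L K (a j)) + X * C (algebraMap L K (b j))) F := by
      show φ1 (MvPolynomial.aeval (fun j => C (a' j) + X * C (b' j)) F) = _
      rw [MvPolynomial.comp_aeval_apply]
      congr 1
      congr 1
      funext j
      simp only [φ1, map_add, map_mul, Polynomial.coe_mapAlgHom, Polynomial.map_C,
        Polynomial.map_X]
      rfl
    have h2 : φ2 (restr F a b) = MvPolynomial.aeval
        (fun j => C (algebraMap L K (a j)) + X * C (algebraMap L K (b j))) F := by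
      unfold restr
      rw [MvPolynomial.comp_aeval_apply]
      congr 1
      congr 1
      funext j
      unfold lin
      simp only [φ2, map_add, map_mul, Polynomial.coe_mapAlgHom, Polynomial.map_C,
        Polynomial.map_X]
      rfl
    apply hP
    have h3 : φ2 (restr F a b) = 0 := by rw [h2, ← h1, h0, map_zero]
    have h4 : (restr F a b).map (algebraMap L K) = 0 := h3
    exact (Polynomial.map_eq_zero _).1 h4
  have hroot : aeval (x j1) P0 = 0 := by
    let ev : (cst D')[X] →ₐ[ℂ] K := (Polynomial.aeval (x j1)).restrictScalars ℂ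
    have h1 : ev P0 = MvPolynomial.aeval x F := by
      show ev (MvPolynomial.aeval (fun j => C (a' j) + X * C (b' j)) F) = _
      rw [MvPolynomial.comp_aeval_apply]
      congr 1
      congr 1
      funext j
      show Polynomial.aeval (x j1) (C (a' j) + X * C (b' j)) = x j
      rw [map_add, map_mul, Polynomial.aeval_C, Polynomial.aeval_C, Polynomial.aeval_X]
      exact (hab j).symm
    rw [hF] at h1
    exact h1
  have hτ : D' (x j1) = 0 := const_of_alg D' ⟨P0, hP0, hroot⟩
  obtain ⟨j, hj⟩ := hx
  apply hj
  rw [hDx j, hτ, zero_mul]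


end Pool.Agent.Y184.NT
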