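import Pool.Agent.Y184.NT.StB
import Pool.Agent.Y988.NT.Res

/-!
Lines through the fibres of a map: a change of the coordinates on the line, coordinates, vectors
dual to the gradient.
-/

set_option autoImplicit false
set_option linter.overlappingInstances false
set_option linter.unusedSectionVars false

open FF Polynomial Pool.Agent.W602.GT

namespace Pool.Agent.Y184.NT

section

variable {K : Type} [Field K] [Algebra ℂ K] {n : ℕ}

/-- a vector dual to the gradient -/
theorem exists_c {F : MvPolynomial (Fin (n + 2)) ℂ} (hs : Sm F) {x : Fin (n + 2) → K}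
    {j0 : Fin (n + 2)} (hj0 : x j0 ≠ 0) : ∃ c : Fin (n + 2) → K,
      ∑ l, MvPolynomial.aeval x (MvPolynomial.pderiv l F) * c l = 1 := by
  obtain ⟨M, A, hA⟩ := Pool.Agent.Y988.NT.null_cert hs j0
  refine ⟨fun l => MvPolynomial.aeval x (A l) / x j0 ^ M, ?_⟩
  have h1 := congrArg (MvPolynomial.aeval x) hA
  rw [map_pow, MvPolynomial.aeval_X, map_sum] at h1
  have h2 : ∑ l, MvPolynomial.aeval x (MvPolynomial.pderiv l F) *
      (MvPolynomial.aeval x (A l) / x j0 ^ M) =
      (∑ l, MvPolynomial.aeval x (A l * MvPolynomial.pderiv l F)) / x j0 ^ M := by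
    rw [Finset.sum_div]
    refine Finset.sum_congr rfl fun l _ => ?_
    rw [map_mul]
    ring
  rw [h2, ← h1, div_self (pow_ne_zero _ hj0)]

/-- the vector fields which do not move the generic point -/
theorem der_gen {x : Fin (n + 2) → K} {j0 : Fin (n + 2)} (_hj0 : x j0 ≠ 0)
    (hgen : IntermediateField.adjoin ℂ (Set.range fun j => x j / x j0) = ⊤)
    (D : Derivation ℂ K K) (hD : ∀ i j, x i * D (x j) = x j * D (x i)) : D = 0 := by
  have h1 : ∀ j, D (x j / x j0) = 0 := by
    intro j
    rw [Derivation.leibniz_div]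
    rw [smul_eq_mul, smul_eq_mul]
    have h2 := hD j0 j
    have h3 : x j0 * D (x j) - x j * D (x j0) = 0 := by rw [h2, sub_self]
    simp [h3]
  let C0 : IntermediateField ℂ K :=
    { carrier := {f | D f = 0}
      mul_mem' := fun {f g} hf hg => by
        change D (f * g) = 0
        rw [D.leibniz, show D f = 0 from hf, show D g = 0 from hg]
        simp
      add_mem' := fun {f g} hf hg => by
        change D (f + g) = 0
        rw [map_add, show D f = 0 from hf, show D g = 0 from hg, add_zero]
      algebraMap_mem' := fun c => D.map_algebraMap c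
      inv_mem' := fun f hf => by
        change D f⁻¹ = 0
        rw [Derivation.leibniz_inv, show D f = 0 from hf, smul_zero] }
  have h2 : IntermediateField.adjoin ℂ (Set.range fun j => x j / x j0) ≤ C0 := by
    rw [IntermediateField.adjoin_le_iff]
    rintro _ ⟨j, rfl⟩
    exact h1 j
  ext f
  have h3 : f ∈ IntermediateField.adjoin ℂ (Set.range fun j => x j / x j0) := by
    rw [hgen]
    trivial
  exact h2 h3

open IntermediateField.algebraAdjoinAdjoin in
/-- algebraically independent coordinates -/
theorem exists_s (hn : Algebra.trdeg ℂ K = n) {x : Fin (n + 2) → K} {j0 : Fin (n + 2)}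
    (hgen : IntermediateField.adjoin ℂ (Set.range fun j => x j / x j0) = ⊤) :
    ∃ s : Fin n → Fin (n + 2), AlgebraicIndependent ℂ (fun i => x (s i) / x j0) := by
  have h1 : Algebra.IsAlgebraic (IntermediateField.adjoin ℂ (Set.range fun j => x j / x j0)) K := by
    rw [hgen]
    infer_instance
  have h2 : Algebra.IsAlgebraic (Algebra.adjoin ℂ (Set.range fun j => x j / x j0)) K :=
    (IsFractionRing.comap_isAlgebraic_iff (A := Algebra.adjoin ℂ (Set.range fun j => x j / x j0))
      (K := IntermediateField.adjoin ℂ (Set.range fun j => x j / x j0)) (C := K)).2 h1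
  obtain ⟨t, ht, hb⟩ := exists_isTranscendenceBasis_subset (R := ℂ)
    (Set.range fun j => x j / x j0)
  have hcard := hb.cardinalMk_eq_trdeg
  rw [hn] at hcard
  have h3 : Cardinal.mk t = Cardinal.mk (Fin n) := by simpa using hcard
  obtain ⟨e⟩ := Cardinal.eq.1 h3
  choose s hs using fun i : Fin n => ht (e.symm i).2
  refine ⟨s, ?_⟩
  have h4 : AlgebraicIndependent ℂ (fun i : Fin n => ((e.symm i : t) : K)) :=
    hb.1.comp _ e.symm.injective
  convert h4 using 1
  funext i
  exact hs i

end

section

variable {L K : Type} [Field L] [Field K] [Algebra ℂ L] [Algebra ℂ K] [Algebra L K]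
  [IsScalarTower ℂ L K] [FiniteDimensional L K] {n d : ℕ}

theorem restr_eval {N : ℕ} (F : MvPolynomial (Fin N) ℂ) (a b : Fin N → L) (l : L) :
    (restr F a b).eval l = MvPolynomial.aeval (fun j => a j + l * b j) F := by
  have h5 := MvPolynomial.comp_aeval_apply
    (φ := (aeval l : L[X] →ₐ[L] L).restrictScalars ℂ) (lin a b) F
  have h6 : (fun j => (aeval l : L[X] →ₐ[L] L).restrictScalars ℂ (lin a b j)) =
      fun j => a j + l * b j := by
    funext j
    change aeval l (lin a b j) = _
    simp only [lin, map_add, map_mul, aeval_C, aeval_X, Algebra.algebraMap_self, RingHom.id_apply]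
  rw [h6] at h5
  rw [← h5]
  change _ = aeval l _
  rw [coe_aeval_eq_eval]
  rfl

theorem shift {F : MvPolynomial (Fin (n + 2)) ℂ} {a b : Fin (n + 2) → L}
    (hab : LinearIndependent L ![a, b]) {τ : K} (hτ : IntermediateField.adjoin L {τ} = ⊤)
    (hr : 2 ≤ Module.finrank L K) (hP : restr F a b ≠ 0) :
    ∃ (a' b' : Fin (n + 2) → L) (τ' μ : K), μ ≠ 0 ∧ LinearIndependent L ![a', b'] ∧
      MvPolynomial.aeval b' F ≠ 0 ∧ IntermediateField.adjoin L {τ'} = ⊤ ∧
      ∀ j, algebraMap L K (a j) + τ * algebraMap L K (b j) =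
        μ * (algebraMap L K (a' j) + τ' * algebraMap L K (b' j)) := by
  have hcL : CharZero L := charZero_of_injective_algebraMap (algebraMap ℂ L).injective
  have hinf : Infinite L := inferInstance
  obtain ⟨l, hl⟩ : ∃ l : L, (restr F a b).eval l ≠ 0 := by
    by_contra hcon
    push Not at hcon
    exact hP (Polynomial.funext fun l => by rw [hcon l, eval_zero])
  have hτl : τ - algebraMap L K l ≠ 0 := by
    intro h0
    rw [sub_eq_zero] at h0
    have h1 : (⊥ : IntermediateField L K) = ⊤ := by
      rw [← hτ, eq_comm, IntermediateField.adjoin_simple_eq_bot_iff, h0]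
      exact IntermediateField.algebraMap_mem _ _
    have h2 : Module.finrank L K = 1 := by
      rw [← IntermediateField.finrank_top', ← h1, IntermediateField.finrank_bot]
    omega
  refine ⟨b, fun j => a j + l * b j, (τ - algebraMap L K l)⁻¹, τ - algebraMap L K l, hτl, ?_, ?_,
    ?_, ?_⟩
  · rw [LinearIndependent.pair_iff] at hab ⊢
    intro s t h
    obtain ⟨h1, h2⟩ := hab t (s + t * l) (by
      funext j
      have h3 := congrFun h j
      simp only [Pi.add_apply, Pi.smul_apply, smul_eq_mul, Pi.zero_apply] at h3 ⊢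
      linear_combination h3)
    rw [h1, zero_mul, add_zero] at h2
    exact ⟨h2, h1⟩
  · rwa [restr_eval] at hl
  · rw [eq_top_iff, ← hτ, IntermediateField.adjoin_simple_le_iff]
    have h1 : τ = ((τ - algebraMap L K l)⁻¹)⁻¹ + algebraMap L K l := by
      rw [inv_inv]
      ring
    rw [h1]
    refine add_mem (inv_mem ?_) (IntermediateField.algebraMap_mem _ _)
    have h2 := IntermediateField.mem_adjoin_simple_self L ((τ - algebraMap L K l)⁻¹)
    simpa using h2
  · intro j
    rw [map_add, map_mul]
    field_simp
    ring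

end

end Pool.Agent.Y184.NT
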