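import Pool.Agent.Y184.NT.Cong3
import Pool.Agent.Y184.NT.Prep
import Pool.Agent.Y172.Cov3
import Pool.Agent.Y153.NT.CB
import Pool.Agent.Y614.NT.Line
import Pool.Agent.Y363.NT.NL
import Pool.Agent.Y692.NT.Jac
import Pool.Agent.Y692.NT.Tr
import Pool.Agent.Y484.NT.Rat
import Pool.Agent.Y721.NT.Vert
import Pool.Agent.Y929.NT.W0
import Pool.Agent.Y48.NT.Tame
import Pool.Agent.Y888.NT.FinDer
import Pool.Agent.TH466.QG.Top

/-!
Varieties dominated by a smooth hypersurface.
-/

set_option autoImplicit false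
set_option linter.overlappingInstances false
set_option linter.unusedSectionVars false

open FF Polynomial Pool.Agent.W602.GT Pool.Agent.W603.LV
open Pool.Agent.W619.PQ (IsUniruled)

namespace Pool.Agent.Y184.NT

section

variable {L K : Type} [Field L] [Field K] [Algebra ℂ L] [Algebra ℂ K] [Algebra L K]
  [IsScalarTower ℂ L K] [FiniteDimensional L K] {n d : ℕ}

theorem aeval_monom {n m : ℕ} (f : Fin m → Fin (n + 2)) (x : Fin (n + 2) → K) :
    MvPolynomial.aeval x (∏ k, (MvPolynomial.X (f k) : MvPolynomial (Fin (n + 2)) ℂ)) =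
      ∏ k, x (f k) := by
  rw [map_prod]
  exact Finset.prod_congr rfl fun k _ => MvPolynomial.aeval_X _ _

theorem hom_monom {n m : ℕ} (f : Fin m → Fin (n + 2)) :
    (∏ k, (MvPolynomial.X (f k) : MvPolynomial (Fin (n + 2)) ℂ)).IsHomogeneous m := by
  have h1 := MvPolynomial.IsHomogeneous.prod (R := ℂ) (σ := Fin (n + 2)) Finset.univ
    (fun k => (MvPolynomial.X (f k) : MvPolynomial (Fin (n + 2)) ℂ)) (fun _ => 1)
    (fun k _ => MvPolynomial.isHomogeneous_X ℂ (f k))
  simpa using h1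

/-- the traces of the residue forms -/
theorem traces [Algebra.EssFiniteType ℂ K] [Algebra.EssFiniteType ℂ L]
    (hL : Algebra.trdeg ℂ L = n) {m : ℕ} {F : MvPolynomial (Fin (n + 2)) ℂ} (hs : Sm F)
    (hh : F.IsHomogeneous d) (hm : m + n + 2 = d)
    (hpg : ∀ ω : (Fin n → Derivation ℂ L L) → L, IsPluri 1 ω →
      (∀ P : Place ℂ L, Divisorial n P → RegAt P ω) → ∀ D, ω D = 0)
    {c x : Fin (n + 2) → K} (hx : MvPolynomial.aeval x F = 0)
    (hc : ∑ l, MvPolynomial.aeval x (MvPolynomial.pderiv l F) * c l = 1)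
    {E : Fin n → Derivation ℂ L L} {E' : Fin n → Derivation ℂ K K}
    (hE' : ∀ i f, E' i (algebraMap L K f) = algebraMap L K (E i f)) (f : Fin m → Fin (n + 2)) :
    Algebra.trace L K ((∏ k, x (f k)) * (rows c x E').det) = 0 := by
  have h1 := Pool.Agent.Y692.NT.t_Tr L K n hL hpg
    (fun D => MvPolynomial.aeval x (∏ k, (MvPolynomial.X (f k) : MvPolynomial (Fin (n + 2)) ℂ)) *
      (rows c x D).det)
    (Pool.Agent.Y988.NT.res_a K n _ c x)
    (fun Q _ => Pool.Agent.Y988.NT.res_b K n m d F _ hs hh (hom_monom f) hm c x hx hc Q)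
    E E' hE'
  simp only [aeval_monom] at h1
  exact h1

/-- **Varieties of geometric genus zero dominated by a smooth hypersurface.** -/
theorem pg_zero [hK : Algebra.EssFiniteType ℂ K] (hn : 1 ≤ n) (hd : 2 * n < d)
    {F : MvPolynomial (Fin (n + 2)) ℂ} (hs : Sm F) (hh : F.IsHomogeneous d)
    {x : Fin (n + 2) → K} (hx : MvPolynomial.aeval x F = 0) (hx0 : x 0 = 1)
    (hgen : IntermediateField.adjoin ℂ (Set.range x) = ⊤) (htr : Algebra.trdeg ℂ K = n)
    (hr : Module.finrank L K + 2 * n + 3 ≤ 2 * d)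
    (hpg : ∀ ω : (Fin n → Derivation ℂ L L) → L, IsPluri 1 ω →
      (∀ P : Place ℂ L, Divisorial n P → RegAt P ω) → ∀ D, ω D = 0) :
    d ≤ Module.finrank L K + n ∧ ∃ f : Fin n → L, AlgebraicIndependent ℂ f ∧
      IntermediateField.adjoin ℂ (Set.range f) = ⊤ := by
  classical
  have hessL : Algebra.EssFiniteType ℂ L := Pool.Agent.TH466.QG.ess_below (K := K)
  have hcL : CharZero L := charZero_of_injective_algebraMap (algebraMap ℂ L).injective
  obtain ⟨m, hm⟩ : ∃ m, m + n + 2 = d := ⟨d - n - 2, by omega⟩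
  have hL : Algebra.trdeg ℂ L = n := by
    have h1 := trdeg_add_eq ℂ L (A := K)
    have h2 : Algebra.trdeg L K = 0 := by
      rw [trdeg_eq_zero_iff]
      infer_instance
    rw [h2, add_zero, htr] at h1
    exact h1
  have hgen' : IntermediateField.adjoin ℂ (Set.range fun j => x j / x 0) = ⊤ := by
    have h1 : (fun j => x j / x 0) = x := by
      funext j
      rw [hx0, div_one]
    rw [h1, hgen]
  have hx00 : x 0 ≠ 0 := by
    rw [hx0]
    exact one_ne_zero
  obtain ⟨z, E, hz, hE⟩ := Pool.Agent.Y172.exists_crd (k := ℂ) (K := L) hL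
  choose E' hE' using fun i => Pool.Agent.Y172.exists_lift (k := ℂ) (K := L) (L := K) hL (E i)
  have hEind : LinearIndependent K E' := by
    rw [Fintype.linearIndependent_iff]
    intro g hg i
    have h1 := congrArg (fun D : Derivation ℂ K K => D (algebraMap L K (z i))) hg
    simp only [Derivation.coe_zero, Pi.zero_apply] at h1
    have h2 : (∑ i, g i • E' i) (algebraMap L K (z i)) = ∑ j, g j * E' j (algebraMap L K (z i)) := by
      have h5 : (∑ i, g i • E' i) (algebraMap L K (z i)) =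
          ∑ j, (g j • E' j) (algebraMap L K (z i)) := by
        rw [← Derivation.coeFnAddMonoidHom_apply, map_sum, Finset.sum_apply]
        rfl
      rw [h5]
      rfl
    rw [h2, Finset.sum_eq_single i] at h1
    · rw [hE', hE, if_pos rfl, map_one, mul_one] at h1
      exact h1
    · intro j _ hj
      rw [hE', hE, if_neg hj, map_zero, mul_zero]
    · intro h
      exact absurd (Finset.mem_univ i) h
  obtain ⟨c, hc⟩ := exists_c hs hx00
  have hne : (rows c x E').det ≠ 0 := Pool.Agent.Y988.NT.res_c K n d F hh (by omega) c x hx hc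
    (fun D hD => der_gen hx00 hgen' D hD) E' hEind
  have htrc := traces (L := L) hL hs hh hm hpg hx hc hE'
  have hgenL : IntermediateField.adjoin L (Set.range x) = ⊤ := by
    rw [eq_top_iff]
    intro y _
    have h1 : y ∈ IntermediateField.adjoin ℂ (Set.range x) := by
      rw [hgen]
      trivial
    have h2 : IntermediateField.adjoin ℂ (Set.range x) ≤
        (IntermediateField.adjoin L (Set.range x)).restrictScalars ℂ := by
      rw [IntermediateField.adjoin_le_iff]
      exact IntermediateField.subset_adjoin L _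
    exact h2 h1
  obtain ⟨hrm, a, b, τ, hxab, hτ, hab⟩ := Pool.Agent.Y614.NT.stLine Pool.Agent.Y153.NT.stCB L K
    (n + 2) m x 0 hx0 hgenL _ hne htrc (by omega)
  refine ⟨by omega, ?_⟩
  obtain ⟨s, hsx⟩ := exists_s htr hgen'
  have hP : restr F a b ≠ 0 := Pool.Agent.Y363.NT.t_NL L n n d hn z hz F hs hh (by omega) a b hab
    K τ x hxab 0 hx00 s hsx
  obtain ⟨a', b', τ', μ, hμ, hab', hFb, hτ', hsh⟩ := shift hab hτ (by omega) hP
  -- the new coordinates
  obtain ⟨x', hx'⟩ : ∃ x' : Fin (n + 2) → K,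
    ∀ j, x' j = algebraMap L K (a' j) + τ' * algebraMap L K (b' j) := ⟨_, fun _ => rfl⟩
  have hxx' : ∀ j, x j = μ * x' j := fun j => by rw [hxab, hsh, hx']
  have hx'0 : x' 0 ≠ 0 := by
    intro h0
    rw [hxx', h0, mul_zero] at hx00
    exact hx00 rfl
  have hrat : ∀ j, x' j / x' 0 = x j / x 0 := by
    intro j
    rw [hxx' j, hxx' 0, mul_div_mul_left _ _ hμ]
  have hgen'' : IntermediateField.adjoin ℂ (Set.range fun j => x' j / x' 0) = ⊤ := by
    simp only [hrat]
    exact hgen'
  have hFx' : MvPolynomial.aeval x' F = 0 := by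
    have h1 : x = fun j => μ * x' j := funext hxx'
    rw [h1, Pool.Agent.Y988.NT.aeval_smul_form hh] at hx
    exact (mul_eq_zero.1 hx).resolve_left (pow_ne_zero _ hμ)
  obtain ⟨c', hc'⟩ := exists_c hs hx'0
  have hne' : (rows c' x' E').det ≠ 0 := Pool.Agent.Y988.NT.res_c K n d F hh (by omega) c' x' hFx'
    hc' (fun D hD => der_gen hx'0 hgen'' D hD) E' hEind
  have htrc' := traces (L := L) hL hs hh hm hpg hFx' hc' hE'
  obtain ⟨h, hPh, hh0, hJ, hJ0⟩ := Pool.Agent.Y692.NT.t_Jac L K n d m F hh hm hd a' b' hab' hFb τ'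
    hτ' hrm x' hx' hFx' E E' hE' c' hc' hne' htrc'
  have hsx' : AlgebraicIndependent ℂ (fun i => x' (s i) / x' 0) := by
    simp only [hrat]
    exact hsx
  have hcong := cong Pool.Agent.Y929.NT.t_W0 Pool.Agent.Y48.NT.tame Pool.Agent.Y888.NT.stFin
    Pool.Agent.Y888.NT.stDer (Pool.Agent.Y721.NT.t_vert Pool.Agent.Y363.NT.t_NL) hn hL hs hh
    (by omega) hab' hFb hx' hPh hh0 hz hE hJ hJ0 hx'0 hgen'' hsx'
  exact Pool.Agent.Y484.NT.rat L n hL a' b' hab' hcong

end

end Pool.Agent.Y184.NT
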