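import Pool.Agent.Y184.NT.Base
import Pool.Agent.W602.GT.Defs

/-!
Lines through the fibres of a map: the statements of the parts of the proof.
-/

set_option autoImplicit false

open FF Polynomial Pool.Agent.W602.GT

namespace Pool.Agent.Y184.NT

/-- the form `F` has no singular zeros -/
def Sm {m : ℕ} (F : MvPolynomial (Fin m) ℂ) : Prop :=
  ∀ x : Fin m → ℂ, x ≠ 0 → ∃ l, MvPolynomial.eval x (MvPolynomial.pderiv l F) ≠ 0

/-- Cayley–Bacharach: at most `2 m + 1` distinct points in projective space with a relation with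
nonzero coefficients for all products of `m` linear forms are on a line. -/
def StCB : Prop := ∀ (Ω : Type) [Field Ω] (N : ℕ) (ι : Type) (m : ℕ) (S : Finset ι)
  (v : ι → Fin N → Ω) (c : ι → Ω), S.Nonempty → (∀ i ∈ S, c i ≠ 0) → (∀ i ∈ S, v i ≠ 0) →
  (∀ i ∈ S, ∀ j ∈ S, i ≠ j → LinearIndependent Ω ![v i, v j]) →
  (∀ l : Fin m → Module.Dual Ω (Fin N → Ω), ∑ i ∈ S, c i * ∏ k, l k (v i) = 0) →
  S.card ≤ 2 * m + 1 →
  m + 2 ≤ S.card ∧ ∀ i ∈ S, ∀ j ∈ S, i ≠ j → ∀ k ∈ S, v k ∈ Submodule.span Ω {v i, v j}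

/-- the generic fibre is on a line over the base -/
def StLine : Prop := ∀ (L K : Type) [Field L] [Field K] [CharZero L] [Algebra L K]
  [FiniteDimensional L K] (N m : ℕ) (x : Fin N → K) (j0 : Fin N), x j0 = 1 →
  IntermediateField.adjoin L (Set.range x) = ⊤ → ∀ h : K, h ≠ 0 →
  (∀ f : Fin m → Fin N, Algebra.trace L K ((∏ k, x (f k)) * h) = 0) →
  Module.finrank L K ≤ 2 * m + 1 →
  m + 2 ≤ Module.finrank L K ∧ ∃ (a b : Fin N → L) (τ : K),
    (∀ j, x j = algebraMap L K (a j) + τ * algebraMap L K (b j)) ∧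
    IntermediateField.adjoin L {τ} = ⊤ ∧ LinearIndependent L ![a, b]

/-- a smooth hypersurface of degree `d > n` of dimension `n` is not covered by lines -/
def StNL : Prop := ∀ (M : Type) [Field M] [Algebra ℂ M] (N n d : ℕ), 1 ≤ n →
  ∀ z : Fin N → M, IsTranscendenceBasis ℂ z →
  ∀ F : MvPolynomial (Fin (n + 2)) ℂ, Sm F → F.IsHomogeneous d → n < d →
  ∀ a b : Fin (n + 2) → M, LinearIndependent M ![a, b] →
  ∀ (Ω : Type) [Field Ω] [Algebra ℂ Ω] [Algebra M Ω] [IsScalarTower ℂ M Ω] (t : Ω)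
    (y : Fin (n + 2) → Ω), (∀ j, y j = algebraMap M Ω (a j) + t * algebraMap M Ω (b j)) →
  ∀ j0 : Fin (n + 2), y j0 ≠ 0 → ∀ s : Fin n → Fin (n + 2),
  AlgebraicIndependent ℂ (fun i : Fin n => y (s i) / y j0) → restr F a b ≠ 0

/-- the residual points are foci -/
def StJac : Prop := ∀ (L K : Type) [Field L] [Field K] [Algebra ℂ L] [Algebra ℂ K] [Algebra L K]
  [IsScalarTower ℂ L K] [FiniteDimensional L K] (n d m : ℕ) (F : MvPolynomial (Fin (n + 2)) ℂ),
  F.IsHomogeneous d → m + n + 2 = d → 2 * n < d → ∀ a b : Fin (n + 2) → L,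
  LinearIndependent L ![a, b] → MvPolynomial.aeval b F ≠ 0 → ∀ τ : K,
  IntermediateField.adjoin L {τ} = ⊤ → m + 2 ≤ Module.finrank L K → ∀ x : Fin (n + 2) → K,
  (∀ j, x j = algebraMap L K (a j) + τ * algebraMap L K (b j)) → MvPolynomial.aeval x F = 0 →
  ∀ (E : Fin n → Derivation ℂ L L) (E' : Fin n → Derivation ℂ K K),
  (∀ i f, E' i (algebraMap L K f) = algebraMap L K (E i f)) → ∀ c : Fin (n + 2) → K,
  ∑ l, MvPolynomial.aeval x (MvPolynomial.pderiv l F) * c l = 1 → (rows c x E').det ≠ 0 →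
  (∀ f : Fin m → Fin (n + 2), Algebra.trace L K ((∏ k, x (f k)) * (rows c x E').det) = 0) →
  ∃ h : L[X], restr F a b = minpoly L τ * h ∧ aeval τ h ≠ 0 ∧ h ∣ jac E a b ∧
    aeval τ (jac E a b) ≠ 0

/-- the base of a congruence of lines of order one is rational -/
def StRat : Prop := ∀ (L : Type) [Field L] [Algebra ℂ L] [Algebra.EssFiniteType ℂ L] (n : ℕ),
  Algebra.trdeg ℂ L = n → ∀ a b : Fin (n + 2) → L, LinearIndependent L ![a, b] →
  IntermediateField.adjoin ℂ (Set.range fun p : Fin (n + 2) × Fin (n + 2) =>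
    algebraMap L[X] (RatFunc L) (lin a b p.1) / algebraMap L[X] (RatFunc L) (lin a b p.2)) = ⊤ →
  ∃ f : Fin n → L, AlgebraicIndependent ℂ f ∧ IntermediateField.adjoin ℂ (Set.range f) = ⊤

/-- the residue forms are pluricanonical forms -/
def StResA : Prop := ∀ (K : Type) [Field K] [Algebra ℂ K] (n : ℕ) (A : K)
  (c x : Fin (n + 2) → K), IsPluri 1 (fun D : Fin n → Derivation ℂ K K => A * (rows c x D).det)

/-- the residue forms are regular -/
def StResB : Prop := ∀ (K : Type) [Field K] [Algebra ℂ K] (n m d : ℕ)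
  (F A : MvPolynomial (Fin (n + 2)) ℂ), Sm F → F.IsHomogeneous d → A.IsHomogeneous m →
  m + n + 2 = d → ∀ c x : Fin (n + 2) → K, MvPolynomial.aeval x F = 0 →
  ∑ l, MvPolynomial.aeval x (MvPolynomial.pderiv l F) * c l = 1 → ∀ P : Place ℂ K,
  RegAt P (fun D : Fin n → Derivation ℂ K K => MvPolynomial.aeval x A * (rows c x D).det)

/-- the residue forms are not zero -/
def StResC : Prop := ∀ (K : Type) [Field K] [Algebra ℂ K] (n d : ℕ)
  (F : MvPolynomial (Fin (n + 2)) ℂ), F.IsHomogeneous d → 2 ≤ d → ∀ c x : Fin (n + 2) → K,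
  MvPolynomial.aeval x F = 0 →
  ∑ l, MvPolynomial.aeval x (MvPolynomial.pderiv l F) * c l = 1 →
  (∀ D : Derivation ℂ K K, (∀ i j, x i * D (x j) = x j * D (x i)) → D = 0) →
  ∀ D : Fin n → Derivation ℂ K K, LinearIndependent K D → (rows c x D).det ≠ 0

/-- traces of regular forms -/
def StTr : Prop := ∀ (L K : Type) [Field L] [Field K] [Algebra ℂ L] [Algebra ℂ K] [Algebra L K]
  [IsScalarTower ℂ L K] [FiniteDimensional L K] [Algebra.EssFiniteType ℂ L]
  [Algebra.EssFiniteType ℂ K] (n : ℕ), Algebra.trdeg ℂ L = n →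
  (∀ ω : (Fin n → Derivation ℂ L L) → L, IsPluri 1 ω →
    (∀ P : Place ℂ L, Divisorial n P → RegAt P ω) → ∀ D, ω D = 0) →
  ∀ W : (Fin n → Derivation ℂ K K) → K, IsPluri 1 W →
  (∀ Q : Place ℂ K, Divisorial n Q → RegAt Q W) → ∀ (E : Fin n → Derivation ℂ L L)
  (E' : Fin n → Derivation ℂ K K), (∀ i f, E' i (algebraMap L K f) = algebraMap L K (E i f)) →
  Algebra.trace L K (W E') = 0

/-- the places above are trivial on the base -/
def StVert : Prop := ∀ (L R : Type) [Field L] [Algebra ℂ L] [Field R] [Algebra ℂ R] [Algebra L R]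
  [IsScalarTower ℂ L R] (n d : ℕ), 1 ≤ n → Algebra.trdeg ℂ L = n →
  ∀ F : MvPolynomial (Fin (n + 2)) ℂ, Sm F → F.IsHomogeneous d → n < d → ∀ (w : Place ℂ R)
  (a b : Fin (n + 2) → L), LinearIndependent L ![a, b] → ∀ u : Fin (n + 2) → R,
  (∀ j, w.Reg (u j)) → ∀ j0 : Fin (n + 2), u j0 = 1 → ∀ α β : R,
  (∀ j, u j = α * algebraMap L R (a j) + β * algebraMap L R (b j)) → ∀ s : Fin n → Fin (n + 2),
  (∀ G : MvPolynomial (Fin n) ℂ, G ≠ 0 → MvPolynomial.aeval (fun i => u (s i)) G ≠ 0 ∧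
    w.ord (MvPolynomial.aeval (fun i => u (s i)) G) = 0) →
  (MvPolynomial.aeval u F = 0 ∨ 1 ≤ w.ord (MvPolynomial.aeval u F)) →
  ∀ l : L, l ≠ 0 → w.ord (algebraMap L R l) = 0

end Pool.Agent.Y184.NT
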