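import Pool.Agent.Y184.NT.St
import Pool.Agent.Helper386.D5V.Helper399_OverDefs

/-!
Lines through the fibres of a map: the statements of further parts of the proof.
-/

set_option autoImplicit false

open FF Polynomial Pool.Agent.W602.GT

namespace Pool.Agent.Y184.NT

/-- the place of an irreducible polynomial -/
def StW0 : Prop := ∀ (L : Type) [Field L] [Algebra ℂ L] (g : L[X]), Irreducible g →
  ∃ w0 : Place ℂ (RatFunc L), (∀ A : L[X], w0.Reg (algebraMap L[X] (RatFunc L) A)) ∧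
    (∀ A : L[X], A ≠ 0 → ¬ g ∣ A → w0.ord (algebraMap L[X] (RatFunc L) A) = 0) ∧
    w0.ord (algebraMap L[X] (RatFunc L) g) = 1 ∧
    (∀ f : RatFunc L, w0.Reg f → ∃ A B : L[X], ¬ g ∣ B ∧
      f * algebraMap L[X] (RatFunc L) B = algebraMap L[X] (RatFunc L) A) ∧
    ∀ w : Place ℂ (RatFunc L), (∀ l : L, l ≠ 0 → w.ord (algebraMap L (RatFunc L) l) = 0) →
      1 ≤ w.ord (algebraMap L[X] (RatFunc L) g) → w = w0

/-- the order of the different -/
def StTame : Prop := ∀ (E0 R : Type) [Field E0] [Field R] [Algebra ℂ E0] [Algebra ℂ R]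
  [Algebra E0 R] [IsScalarTower ℂ E0 R] [FiniteDimensional E0 R] [Algebra.EssFiniteType ℂ E0]
  [Algebra.EssFiniteType ℂ R] (N : ℕ), Algebra.trdeg ℂ E0 = N → ∀ t : Fin N → R,
  IsTranscendenceBasis ℂ t → ∀ δ : Fin N → Derivation ℂ R R,
  (∀ i j, δ i (t j) = if i = j then 1 else 0) → ∀ (v : Place ℂ E0) (w w0 : Place ℂ R) (e : ℕ),
  Divisorial N v → Over w v e → Over w0 v 1 → (∀ j, w.Reg (t j)) →
  (∀ i, DerReg w0 (δ i)) → ∀ u : Fin (N + 1) → E0, ∀ J : R,
  J = (Matrix.of (Fin.cons (fun j => algebraMap E0 R (u j))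
    fun i j => δ i (algebraMap E0 R (u j)) : Fin (N + 1) → Fin (N + 1) → R)).det → J ≠ 0 →
  w.ord J ≤ e * w0.ord J + (e - 1)

/-- fields without vector fields which vanish on a subfield -/
def StFin : Prop := ∀ (R : Type) [Field R] [Algebra ℂ R] [Algebra.EssFiniteType ℂ R]
  (E0 : IntermediateField ℂ R),
  (∀ D : Derivation ℂ R R, (∀ x ∈ E0, D x = 0) → D = 0) → FiniteDimensional E0 R

/-- the vector fields of the family of lines -/
def StDer : Prop := ∀ (L : Type) [Field L] [Algebra ℂ L] (n : ℕ) (z : Fin n → L),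
  IsTranscendenceBasis ℂ z → ∀ E : Fin n → Derivation ℂ L L,
  (∀ i j, E i (z j) = if i = j then 1 else 0) →
  IsTranscendenceBasis ℂ (Fin.cons RatFunc.X fun i => algebraMap L (RatFunc L) (z i) :
    Fin (n + 1) → RatFunc L) ∧
  ∃ δ : Fin (n + 1) → Derivation ℂ (RatFunc L) (RatFunc L),
    δ 0 RatFunc.X = 1 ∧ (∀ l, δ 0 (algebraMap L (RatFunc L) l) = 0) ∧
    (∀ i : Fin n, δ i.succ RatFunc.X = 0) ∧
    ∀ (i : Fin n) l, δ i.succ (algebraMap L (RatFunc L) l) = algebraMap L (RatFunc L) (E i l)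

end Pool.Agent.Y184.NT
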