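import Pool.Agent.Y184.NT.Dom
import Pool.Agent.Y184.NT.Fin

/-!
Varieties dominated by a variety with positive canonical bundle: the equivalences.
-/

set_option autoImplicit false
set_option linter.overlappingInstances false
set_option linter.unusedSectionVars false

open FF Polynomial Pool.Agent.W602.GT Pool.Agent.W603.LV
open Pool.Agent.W619.PQ (IsUniruled)

namespace Pool.Agent.Y184.NT

section

variable {L : Type} [Field L] [Algebra ℂ L] {n : ℕ}

/-- the equivalences -/
theorem tfae_of [Algebra.EssFiniteType ℂ L] (hn : 1 ≤ n) (htr : Algebra.trdeg ℂ L = n)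
    (hmain : (∀ ω : (Fin n → Derivation ℂ L L) → L, IsPluri 1 ω →
      (∀ P : Place ℂ L, Divisorial n P → RegAt P ω) → ∀ D, ω D = 0) →
      ∃ f : Fin n → L, AlgebraicIndependent ℂ f ∧
        IntermediateField.adjoin ℂ (Set.range f) = ⊤) :
    [(∀ ω : (Fin n → Derivation ℂ L L) → L, IsPluri 1 ω →
      (∀ P : Place ℂ L, Divisorial n P → RegAt P ω) → ∀ D, ω D = 0),
      ¬ KodGe ℂ L n (fun _ => False) 0, ¬ Psef ℂ L n (fun _ => False), IsUniruled ℂ L n,
      ∃ f : Fin n → L, AlgebraicIndependent ℂ f ∧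
        IntermediateField.adjoin ℂ (Set.range f) = ⊤].TFAE := by
  tfae_have 1 → 5 := hmain
  tfae_have 5 → 4 := fun ⟨f, hf, htop⟩ => uniruled_of_rational hn hf htop
  tfae_have 4 → 3 := fun h h' =>
    (Pool.Agent.W619.Y.uniruled_neg n htr h).1 ((Pool.Agent.TH466.QG.psef_iff n).1 h')
  tfae_have 3 → 2 := fun h h' => h (psef_of_kodGe h')
  tfae_have 2 → 1 := by
    intro h ω hω hreg D
    by_contra hne
    refine h ⟨1, one_pos, fun _ => ω, fun _ => ⟨hω, fun P hP D' hD' => ?_, fun P hP _ => hreg P hP⟩,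
      D, hne, ?_⟩
    · exact hreg P hP D' fun i => Pool.Agent.TH466.QG.derReg_of_log (hD' i)
    · exact algebraicIndependent_empty_type
  tfae_finish

end

/-- smooth hypersurfaces do not contain the lines -/
theorem restr_smooth {L K : Type} [Field L] [Field K] [Algebra ℂ L] [Algebra ℂ K] [Algebra L K]
    [IsScalarTower ℂ L K] [FiniteDimensional L K] {n d : ℕ} (hn : 1 ≤ n) (hd : n < d)
    {F : MvPolynomial (Fin (n + 2)) ℂ} (hs : Sm F) (hh : F.IsHomogeneous d)
    {x : Fin (n + 2) → K} (hx0 : x 0 = 1)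
    (hgen : IntermediateField.adjoin ℂ (Set.range x) = ⊤) (htr : Algebra.trdeg ℂ K = n)
    (a b : Fin (n + 2) → L) (τ : K) (hab : LinearIndependent L ![a, b])
    (hxab : ∀ j, x j = algebraMap L K (a j) + τ * algebraMap L K (b j)) : restr F a b ≠ 0 := by
  have hess : Algebra.EssFiniteType ℂ K := by
    classical
    rw [← IntermediateField.fg_top_iff]
    exact ⟨Finset.univ.image x, by
      rw [Finset.coe_image, Finset.coe_univ, Set.image_univ, hgen]⟩
  have hessL : Algebra.EssFiniteType ℂ L := Pool.Agent.TH466.QG.ess_below (K := K)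
  have hL : Algebra.trdeg ℂ L = n := trdeg_below (K := K) htr
  have hgen' : IntermediateField.adjoin ℂ (Set.range fun j => x j / x 0) = ⊤ := by
    have h1 : (fun j => x j / x 0) = x := by
      funext j
      rw [hx0, div_one]
    rw [h1, hgen]
  have hx00 : x 0 ≠ 0 := by
    rw [hx0]
    exact one_ne_zero
  obtain ⟨z, E, hz, hE⟩ := Pool.Agent.Y172.exists_crd (k := ℂ) (K := L) hL
  obtain ⟨s, hsx⟩ := exists_s htr hgen'
  exact Pool.Agent.Y363.NT.t_NL L n n d hn z hz F hs hh hd a b hab K τ x hxab 0 hx00 s hsx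

end Pool.Agent.Y184.NT
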